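import Pool.Agent.H48.UD.Defs

/-!
# Project UD, row UD-7: linear algebra of functions on sets (helper84)

* `exists_adapted`: independent functions of small total weight;
* `sum_wt_ge`: independent functions have large total weight;
* `exists_det_ne`, `indep_of_det`: independence and nonzero determinants of values.
-/

set_option autoImplicit false

open Module

namespace Pool.Agent.H48.UD

section Gen

variable {F V ι : Type*} [Field F] [AddCommGroup V] [Module F V] (v : ι → V) (w : ι → ℕ)

/-- the dimension of the span of the `v i` with `w i ≤ a` -/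
noncomputable def ud7_rk (a : ℕ) : ℕ :=
  finrank F (Submodule.span F (v '' {i | w i ≤ a}))

theorem ud7_finrank_eq (T : Finset ι) (hT : LinearIndepOn F v (T : Set ι)) :
    finrank F (Submodule.span F (v '' (T : Set ι))) = T.card := by
  have h1 : LinearIndependent F (fun i : T => v i) := hT
  have h2 := finrank_span_eq_card h1
  rw [Fintype.card_coe] at h2
  have h3 : v '' (T : Set ι) = Set.range (fun i : T => v i) := by
    ext x
    simp only [Set.mem_image, Finset.mem_coe, Set.mem_range, Subtype.exists, exists_prop]
  rw [h3, h2]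

theorem ud7_card_le (hfin : ∀ a, {i | w i ≤ a}.Finite) (a : ℕ) (T : Finset ι)
    (hT : LinearIndepOn F v (T : Set ι)) (hw : ∀ i ∈ T, w i ≤ a) :
    T.card ≤ ud7_rk (F := F) v w a := by
  rw [← ud7_finrank_eq v T hT]
  have : FiniteDimensional F (Submodule.span F (v '' {i | w i ≤ a})) :=
    FiniteDimensional.span_of_finite F ((hfin a).image v)
  apply Submodule.finrank_mono
  apply Submodule.span_mono
  apply Set.image_mono
  intro i hi
  exact hw i hi

/-- the greedy choice -/
theorem ud7_greedy (hfin : ∀ a, {i | w i ≤ a}.Finite) (A : ℕ) :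
    ∀ M : ℕ, M ≤ ud7_rk (F := F) v w A → ∃ T : Finset ι, LinearIndepOn F v (T : Set ι) ∧
      T.card = M ∧ (∀ i ∈ T, w i ≤ A) ∧
      ∀ a, a ≤ A → min M (ud7_rk (F := F) v w a) ≤ (T.filter fun i => w i ≤ a).card := by
  classical
  induction A with
  | zero =>
    intro M hM
    obtain ⟨b, hb1, -, hb2, hb3⟩ := exists_linearIndepOn_extension (K := F) (v := v)
      (s := ∅) (t := {i | w i ≤ 0}) (linearIndepOn_empty F v) (Set.empty_subset _)
    have hbf : b.Finite := (hfin 0).subset hb1
    obtain ⟨B, rfl⟩ : ∃ B : Finset ι, (B : Set ι) = b := ⟨hbf.toFinset, hbf.coe_toFinset⟩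
    have hcard : B.card = ud7_rk (F := F) v w 0 := by
      rw [← ud7_finrank_eq v B hb3, ud7_rk]
      have : Submodule.span F (v '' (B : Set ι)) = Submodule.span F (v '' {i | w i ≤ 0}) :=
        le_antisymm (Submodule.span_mono (Set.image_mono hb1)) (Submodule.span_le.2 hb2)
      rw [this]
    obtain ⟨T, hTB, hTM⟩ := Finset.exists_subset_card_eq (hM.trans_eq hcard.symm)
    refine ⟨T, hb3.mono (Finset.coe_subset.2 hTB), hTM, fun i hi => hb1 (hTB hi), ?_⟩
    intro a ha
    have hTf : (T.filter fun i => w i ≤ a) = T := by
      apply Finset.filter_true_of_mem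
      intro i hi
      have h3 : w i ≤ 0 := hb1 (hTB hi)
      omega
    rw [hTf, hTM]
    exact min_le_left _ _
  | succ A IH =>
    intro M hM
    by_cases hMA : M ≤ ud7_rk (F := F) v w A
    · obtain ⟨T, h1, h2, h3, h4⟩ := IH M hMA
      refine ⟨T, h1, h2, fun i hi => (h3 i hi).trans (Nat.le_succ A), ?_⟩
      intro a ha
      by_cases haA : a ≤ A
      · exact h4 a haA
      · have hTf : (T.filter fun i => w i ≤ a) = T := by
          apply Finset.filter_true_of_mem
          intro i hi
          have := h3 i hi
          omega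
        rw [hTf, h2]
        exact min_le_left _ _
    · push Not at hMA
      obtain ⟨T0, h1, h2, h3, h4⟩ := IH _ le_rfl
      obtain ⟨b, hb1, hb0, hb2, hb3⟩ := exists_linearIndepOn_extension (K := F) (v := v)
        (s := (T0 : Set ι)) (t := {i | w i ≤ A + 1}) h1
        (fun i hi => (h3 i hi).trans (Nat.le_succ A))
      have hbf : b.Finite := (hfin (A + 1)).subset hb1
      obtain ⟨B, rfl⟩ : ∃ B : Finset ι, (B : Set ι) = b := ⟨hbf.toFinset, hbf.coe_toFinset⟩
      have hcard : B.card = ud7_rk (F := F) v w (A + 1) := by
        rw [← ud7_finrank_eq v B hb3, ud7_rk]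
        have : Submodule.span F (v '' (B : Set ι)) = Submodule.span F (v '' {i | w i ≤ A + 1}) :=
          le_antisymm (Submodule.span_mono (Set.image_mono hb1)) (Submodule.span_le.2 hb2)
        rw [this]
      obtain ⟨T, hT0, hTB, hTM⟩ := Finset.exists_subsuperset_card_eq (Finset.coe_subset.1 hb0)
        (h2.trans_le hMA.le) (hM.trans_eq hcard.symm)
      refine ⟨T, hb3.mono (Finset.coe_subset.2 hTB), hTM, fun i hi => hb1 (hTB hi), ?_⟩
      intro a ha
      by_cases haA : a ≤ A
      · have h5 := h4 a haA
        have h6 : (T0.filter fun i => w i ≤ a).card ≤ (T.filter fun i => w i ≤ a).card :=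
          Finset.card_le_card (Finset.filter_subset_filter _ hT0)
        have h7 : ud7_rk (F := F) v w a ≤ ud7_rk (F := F) v w A := by
          rw [ud7_rk, ud7_rk]
          have : FiniteDimensional F (Submodule.span F (v '' {i | w i ≤ A})) :=
            FiniteDimensional.span_of_finite F ((hfin A).image v)
          apply Submodule.finrank_mono
          apply Submodule.span_mono
          apply Set.image_mono
          intro i hi
          exact le_trans hi haA
        have h8 : min (ud7_rk (F := F) v w A) (ud7_rk (F := F) v w a)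
            = ud7_rk (F := F) v w a := min_eq_right h7
        rw [h8] at h5
        exact (min_le_right _ _).trans (h5.trans h6)
      · have hTf : (T.filter fun i => w i ≤ a) = T := by
          apply Finset.filter_true_of_mem
          intro i hi
          have h5 : w i ≤ A + 1 := hb1 (hTB hi)
          omega
        rw [hTf, hTM]
        exact min_le_left _ _

/-- counting: the total weight, layer by layer -/
theorem ud7_sum_eq {κ : Type*} (T : Finset κ) (u : κ → ℕ) (A : ℕ)
    (h : ∀ i ∈ T, u i ≤ A) :
    ∑ i ∈ T, u i = ∑ a ∈ Finset.range A, (T.filter fun i => a < u i).card := by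
  classical
  have h1 : ∀ a, (T.filter fun i => a < u i).card = ∑ i ∈ T, if a < u i then 1 else 0 := by
    intro a
    rw [Finset.card_filter]
  simp_rw [h1]
  rw [Finset.sum_comm]
  apply Finset.sum_congr rfl
  intro i hi
  rw [← Finset.card_filter]
  have h2 : ((Finset.range A).filter fun a => a < u i) = Finset.range (u i) := by
    ext a
    simp only [Finset.mem_filter, Finset.mem_range]
    have := h i hi
    omega
  rw [h2, Finset.card_range]

theorem ud7_sum_ge {κ : Type*} (T : Finset κ) (u : κ → ℕ) (A : ℕ) :
    ∑ a ∈ Finset.range A, (T.filter fun i => a < u i).card ≤ ∑ i ∈ T, u i := by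
  classical
  have h1 : ∀ a, (T.filter fun i => a < u i).card = ∑ i ∈ T, if a < u i then 1 else 0 := by
    intro a
    rw [Finset.card_filter]
  simp_rw [h1]
  rw [Finset.sum_comm]
  apply Finset.sum_le_sum
  intro i hi
  rw [← Finset.card_filter]
  have h2 : ((Finset.range A).filter fun a => a < u i) ⊆ Finset.range (u i) := by
    intro a
    simp only [Finset.mem_filter, Finset.mem_range]
    exact fun h => h.2
  exact (Finset.card_le_card h2).trans_eq (Finset.card_range _)

end Gen

theorem exists_adapted {F X ι : Type*} [Field F] (Y : Set X) (f : ι → X → F) (w : ι → ℕ)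
    (hfin : ∀ a, {i | w i ≤ a}.Finite) (M A : ℕ) (hM : M ≤ rk Y f w A) :
    ∃ s : Fin M → ι, LinearIndependent F (fun i => fun y : Y => f (s i) y) ∧
      ∑ i, w (s i) ≤ ∑ a ∈ Finset.range A, (M - rk Y f w a) := by
  classical
  obtain ⟨T, h1, h2, h3, h4⟩ := ud7_greedy (F := F) (fun i => fun y : Y => f i y) w hfin A M hM
  have e : Fin M ≃ T := (Fin.castOrderIso h2.symm).toEquiv.trans T.equivFin.symm
  refine ⟨fun i => (e i : ι), ?_, ?_⟩
  · have h5 : LinearIndependent F (fun i : T => (fun y : Y => f i y)) := h1
    exact h5.comp e e.injective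
  · have h6 : ∑ i, w (e i : ι) = ∑ i ∈ T, w i := by
      rw [Equiv.sum_comp e (fun i : T => w (i : ι))]
      exact Finset.sum_coe_sort T w
    rw [h6, ud7_sum_eq T w A h3]
    apply Finset.sum_le_sum
    intro a ha
    have h7 := h4 a (Finset.mem_range.1 ha).le
    have h8 : (T.filter fun i => w i ≤ a).card + (T.filter fun i => a < w i).card = T.card := by
      have h9 := Finset.card_filter_add_card_filter_not (s := T) (fun i => w i ≤ a)
      simp only [not_le] at h9
      exact h9
    have h10 : rk Y f w a = ud7_rk (F := F) (fun i => fun y : Y => f i y) w a := rfl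
    rw [h10]
    omega

theorem sum_wt_ge {F X ι : Type*} [Field F] (Y : Set X) (f : ι → X → F) (w : ι → ℕ)
    (hfin : ∀ a, {i | w i ≤ a}.Finite) {M : ℕ} (s : Fin M → ι)
    (hs : LinearIndependent F (fun i => fun y : Y => f (s i) y)) (A : ℕ) :
    ∑ a ∈ Finset.range A, (M - rk Y f w a) ≤ ∑ i, w (s i) := by
  classical
  refine le_trans ?_ (ud7_sum_ge Finset.univ (fun i => w (s i)) A)
  apply Finset.sum_le_sum
  intro a _
  have hinj : Function.Injective s := by
    intro i j hij
    apply hs.injective
    simp only [hij]
  set T : Finset ι := (Finset.univ.filter fun i => w (s i) ≤ a).image s with hT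
  have h1 : LinearIndepOn F (fun i => fun y : Y => f i y) (T : Set ι) := by
    have h2 : LinearIndepOn F ((fun i => fun y : Y => f i y) ∘ s) Set.univ := by
      rw [linearIndepOn_univ_iff]
      exact hs
    have h3 := (h2.mono (Set.subset_univ
      ((Finset.univ.filter fun i => w (s i) ≤ a : Finset (Fin M)) : Set (Fin M)))).image_of_comp
    rw [hT, Finset.coe_image]
    exact h3
  have h2 := ud7_card_le (F := F) (fun i => fun y : Y => f i y) w hfin a T h1 (by
    intro i hi
    rw [hT, Finset.mem_image] at hi
    obtain ⟨j, hj, rfl⟩ := hi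
    exact (Finset.mem_filter.1 hj).2)
  rw [hT, Finset.card_image_of_injective _ hinj] at h2
  have h8 : (Finset.univ.filter fun i : Fin M => w (s i) ≤ a).card +
      (Finset.univ.filter fun i : Fin M => a < w (s i)).card = M := by
    have h9 := Finset.card_filter_add_card_filter_not (s := (Finset.univ : Finset (Fin M)))
      (fun i => w (s i) ≤ a)
    simp only [not_le] at h9
    rw [h9, Finset.card_univ, Fintype.card_fin]
  have h10 : rk Y f w a = ud7_rk (F := F) (fun i => fun y : Y => f i y) w a := rfl
  rw [h10]
  omega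

theorem exists_det_ne {F X : Type*} [Field F] (Y : Set X) {M : ℕ} (g : Fin M → X → F)
    (h : LinearIndependent F (fun i => fun y : Y => g i y)) :
    ∃ y : Fin M → X, (∀ l, y l ∈ Y) ∧ (Matrix.of fun i l => g i (y l)).det ≠ 0 := by
  classical
  set E : Set (Fin M → F) := (fun y : X => fun i => g i y) '' Y with hE
  have htop : Submodule.span F E = ⊤ := by
    by_contra hne
    obtain ⟨φ, hφ0, hφ⟩ := Submodule.exists_le_ker_of_lt_top _ (lt_top_iff_ne_top.2 hne)
    rw [Fintype.linearIndependent_iff] at h
    have h1 := h (fun i => φ (Pi.single i 1)) (by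
      ext y
      rw [Finset.sum_apply, Pi.zero_apply]
      have h2 : φ (fun i => g i (y : X)) = 0 := by
        have h3 : (fun i => g i (y : X)) ∈ Submodule.span F E :=
          Submodule.subset_span ⟨y, y.2, rfl⟩
        exact hφ h3
      rw [← h2, LinearMap.pi_apply_eq_sum_univ φ (fun i => g i (y : X))]
      apply Finset.sum_congr rfl
      intro i _
      simp only [Pi.smul_apply, smul_eq_mul]
      rw [mul_comm]
      congr 2
      ext j
      rw [Pi.single_apply]
      simp only [eq_comm])
    apply hφ0
    apply LinearMap.pi_ext'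
    intro i
    ext
    simpa using h1 i
  obtain ⟨b, hbE, hbs, hbl⟩ := exists_linearIndependent F E
  rw [htop] at hbs
  have hbf : b.Finite := hbl.setFinite
  let _ : Fintype b := hbf.fintype
  have hcard : Fintype.card b = M := by
    have h2 := finrank_span_eq_card hbl
    rw [Subtype.range_coe, hbs, finrank_top, Module.finrank_fintype_fun_eq_card,
      Fintype.card_fin] at h2
    exact h2.symm
  have e : Fin M ≃ b := (Fin.castOrderIso hcard.symm).toEquiv.trans (Fintype.equivFin b).symm
  have hy : ∀ l : Fin M, ∃ y ∈ Y, (fun i => g i y) = (e l : Fin M → F) := fun l => hbE (e l).2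
  choose y hyY hye using hy
  refine ⟨y, hyY, ?_⟩
  have hcol : LinearIndependent F (Matrix.of fun i l => g i (y l)).col := by
    have h3 := hbl.comp e e.injective
    have h4 : (Matrix.of fun i l => g i (y l)).col = (fun x : b => (x : Fin M → F)) ∘ e := by
      funext l
      rw [Function.comp_apply, ← hye l]
      rfl
    rw [h4]
    exact h3
  rw [Matrix.linearIndependent_cols_iff_isUnit, Matrix.isUnit_iff_isUnit_det] at hcol
  exact hcol.ne_zero

theorem indep_of_det {F X : Type*} [Field F] (Y : Set X) {M : ℕ} (g : Fin M → X → F)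
    (y : Fin M → X) (hy : ∀ l, y l ∈ Y) (h : (Matrix.of fun i l => g i (y l)).det ≠ 0) :
    LinearIndependent F (fun i => fun y : Y => g i y) := by
  rw [Fintype.linearIndependent_iff]
  intro c hc
  have h1 : Matrix.vecMul c (Matrix.of fun i l => g i (y l)) = 0 := by
    funext l
    have h2 := congrFun hc ⟨y l, hy l⟩
    rw [Finset.sum_apply, Pi.zero_apply] at h2
    rw [Pi.zero_apply, ← h2]
    simp only [Matrix.vecMul, dotProduct, Matrix.of_apply, Pi.smul_apply, smul_eq_mul]
  have h3 := Matrix.eq_zero_of_vecMul_eq_zero h h1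
  intro i
  rw [h3, Pi.zero_apply]

end Pool.Agent.H48.UD
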