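import Pool.Agent.H48.UD.Defs

/-!
# Project UD (MP_a3214d): existence of relations of bounded degree
-/

set_option autoImplicit false

open NumberField Module Pool.Agent.H52.UB

namespace Pool.Agent.H48.UD

theorem rk_mono {F X ι : Type*} [Field F] (Y : Set X) (f : ι → X → F) (w : ι → ℕ)
    (hfin : ∀ a, {i | w i ≤ a}.Finite) : Monotone (rk Y f w) := by
  intro a b hab
  unfold rk
  haveI : FiniteDimensional F
      (Submodule.span F ((fun i => fun y : Y => f i y) '' {i | w i ≤ b})) :=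
    FiniteDimensional.span_of_finite F ((hfin b).image _)
  refine Submodule.finrank_mono (Submodule.span_mono (Set.image_mono ?_))
  intro i hi
  exact le_trans hi hab

theorem ud10_fin (n r a : ℕ) : {α : Fin n → Fin r → ℕ | dg α ≤ a}.Finite := by
  refine Set.Finite.subset (Set.Finite.pi' (fun j => Set.Finite.pi' (fun i =>
    Set.finite_Iic a))) ?_
  intro α hα j i
  have h1 : α j i ≤ ∑ i, α j i := Finset.single_le_sum (f := fun i => α j i)
    (fun _ _ => Nat.zero_le _) (Finset.mem_univ i)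
  have h2 : ∑ i, α j i ≤ ∑ j, ∑ i, α j i := Finset.single_le_sum (f := fun j => ∑ i, α j i)
    (fun _ _ => Nat.zero_le _) (Finset.mem_univ j)
  have h3 : dg α ≤ a := hα
  unfold dg at h3
  exact le_trans h1 (le_trans h2 h3)

theorem ud10_mem {F : Type*} [Field F] {n r : ℕ} (Y : Set (Fin n → Fin r → F))
    (P : MvPolynomial (Fin n × Fin r) F) (a : ℕ) (hP : P.totalDegree ≤ a) :
    (fun y : Y => MvPolynomial.eval (fun ρ => (y : Fin n → Fin r → F) ρ.1 ρ.2) P) ∈
      Submodule.span F ((fun α => fun y : Y => mn α (y : Fin n → Fin r → F)) '' {α | dg α ≤ a}) := by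
  classical
  have h : (fun y : Y => MvPolynomial.eval (fun ρ => (y : Fin n → Fin r → F) ρ.1 ρ.2) P) =
      ∑ m ∈ P.support, P.coeff m •
        (fun y : Y => mn (fun j i => m (j, i)) (y : Fin n → Fin r → F)) := by
    funext y
    rw [MvPolynomial.eval_eq', Finset.sum_apply]
    refine Finset.sum_congr rfl (fun m _ => ?_)
    simp only [Pi.smul_apply, smul_eq_mul, mn, Fintype.prod_prod_type]
  rw [h]
  refine Submodule.sum_mem _ (fun m hm => Submodule.smul_mem _ _ (Submodule.subset_span ?_))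
  refine ⟨fun j i => m (j, i), ?_, rfl⟩
  have h1 := MvPolynomial.le_totalDegree hm
  rw [Finsupp.sum_fintype _ _ (fun _ => rfl), Fintype.sum_prod_type] at h1
  exact le_trans h1 hP

theorem ud10_dep {F V : Type*} [Field F] [AddCommGroup V] [Module F V] (S : Submodule F V)
    [FiniteDimensional F S] {E : Type*} [Fintype E] (g : E → V) (hg : ∀ ε, g ε ∈ S)
    (h : finrank F S < Fintype.card E) : ∃ c : E → F, ∑ ε, c ε • g ε = 0 ∧ ∃ ε, c ε ≠ 0 := by
  by_contra hcon
  push Not at hcon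
  have hli : LinearIndependent F (fun ε => (⟨g ε, hg ε⟩ : S)) := by
    rw [Fintype.linearIndependent_iff]
    intro c hc ε
    refine hcon c ?_ ε
    have h1 := congrArg (S.subtype) hc
    rw [map_sum, map_zero] at h1
    rw [← h1]
    exact Finset.sum_congr rfl (fun ε _ => by rw [map_smul]; rfl)
  have h1 := hli.fintype_card_le_finrank
  omega

theorem ud10_poly {F ι : Type*} [Field F] [DecidableEq ι] (e : ℕ) (B : Finset ι) (c : (B → Fin (e + 1)) → F)
    (ε0 : B → Fin (e + 1)) (hε0 : c ε0 ≠ 0) : ∃ Q : MvPolynomial ι F, Q ≠ 0 ∧ (Q.vars ⊆ B) ∧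
      (∀ i, Q.degreeOf i ≤ e) ∧
      ∀ v, MvPolynomial.eval v Q = ∑ ε, c ε * ∏ i : B, v i ^ (ε i : ℕ) := by
  classical
  let m : (B → Fin (e + 1)) → (ι →₀ ℕ) := fun ε => Finsupp.indicator B (fun i hi => (ε ⟨i, hi⟩ : ℕ))
  have hm : ∀ ε (i : B), m ε i = (ε i : ℕ) := by
    intro ε i
    exact Finsupp.indicator_of_mem i.2 _
  have hm0 : ∀ ε i, i ∉ B → m ε i = 0 := fun ε i hi => Finsupp.indicator_of_notMem hi _
  have hinj : Function.Injective m := by
    intro ε ε' h
    funext i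
    apply Fin.ext
    rw [← hm, ← hm, h]
  have hmle : ∀ ε i, m ε i ≤ e := by
    intro ε i
    by_cases hi : i ∈ B
    · rw [show m ε i = (ε ⟨i, hi⟩ : ℕ) from hm ε ⟨i, hi⟩]
      exact Nat.lt_succ_iff.mp (ε ⟨i, hi⟩).2
    · rw [hm0 ε i hi]
      exact Nat.zero_le _
  have hsupp : ∀ s ∈ (∑ ε, MvPolynomial.monomial (m ε) (c ε) : MvPolynomial ι F).support,
      ∃ ε, s = m ε := by
    intro s hs
    obtain ⟨ε, _, hε⟩ := Finset.mem_biUnion.mp (MvPolynomial.support_sum hs)
    exact ⟨ε, Finset.mem_singleton.mp (MvPolynomial.support_monomial_subset hε)⟩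
  refine ⟨∑ ε, MvPolynomial.monomial (m ε) (c ε), ?_, ?_, ?_, ?_⟩
  · intro h0
    apply hε0
    have h1 := congrArg (MvPolynomial.coeff (m ε0)) h0
    rw [MvPolynomial.coeff_sum, MvPolynomial.coeff_zero, Finset.sum_eq_single ε0] at h1
    · rwa [MvPolynomial.coeff_monomial, if_pos rfl] at h1
    · intro ε _ hne
      rw [MvPolynomial.coeff_monomial, if_neg (fun h => hne (hinj h))]
    · intro h
      exact absurd (Finset.mem_univ _) h
  · intro i hi
    rw [MvPolynomial.mem_vars] at hi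
    obtain ⟨s, hs, his⟩ := hi
    obtain ⟨ε, rfl⟩ := hsupp s hs
    by_contra hiB
    rw [Finsupp.mem_support_iff] at his
    exact his (hm0 ε i hiB)
  · intro i
    rw [MvPolynomial.degreeOf_le_iff]
    intro s hs
    obtain ⟨ε, rfl⟩ := hsupp s hs
    exact hmle ε i
  · intro v
    rw [map_sum]
    refine Finset.sum_congr rfl (fun ε _ => ?_)
    rw [MvPolynomial.eval_monomial, Finsupp.prod_of_support_subset (s := B) _ ?_ _
      (fun _ _ => pow_zero _)]
    · congr 1
      rw [← Finset.prod_coe_sort B]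
      exact Finset.prod_congr rfl (fun i _ => by rw [hm ε i])
    · intro i hi
      by_contra hiB
      rw [Finsupp.mem_support_iff] at hi
      exact hi (hm0 ε i hiB)

theorem exists_rel {F : Type*} [Field F] {n r : ℕ} (Y : Set (Fin n → Fin r → F)) {ι : Type*}
    (d : ℕ) (T : ι → MvPolynomial (Fin n × Fin r) F) (hT : ∀ i, (T i).totalDegree ≤ d) (e : ℕ)
    (B : Finset ι) (h : hil Y (d * e * B.card) < (e + 1) ^ B.card) :
    RelOn e B ((fun (x : Fin n → Fin r → F) (i : ι) =>
      MvPolynomial.eval (fun ρ => x ρ.1 ρ.2) (T i)) '' Y) := by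
  classical
  haveI : FiniteDimensional F (Submodule.span F
      ((fun α => fun y : Y => mn α (y : Fin n → Fin r → F)) '' {α | dg α ≤ d * e * B.card})) :=
    FiniteDimensional.span_of_finite F ((ud10_fin n r (d * e * B.card)).image _)
  have hG : ∀ ε : B → Fin (e + 1),
      (∏ i : B, (T i) ^ (ε i : ℕ)).totalDegree ≤ d * e * B.card := by
    intro ε
    refine le_trans (MvPolynomial.totalDegree_finsetProd _ _) ?_
    have h1 : ∀ i ∈ (Finset.univ : Finset B), ((T i) ^ (ε i : ℕ)).totalDegree ≤ e * d := by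
      intro i _
      refine le_trans (MvPolynomial.totalDegree_pow _ _) ?_
      exact Nat.mul_le_mul (Nat.lt_succ_iff.mp (ε i).2) (hT i)
    refine le_trans (Finset.sum_le_card_nsmul _ _ _ h1) ?_
    rw [Finset.card_univ, Fintype.card_coe, smul_eq_mul]
    exact le_of_eq (by ring)
  have hcard : Fintype.card (B → Fin (e + 1)) = (e + 1) ^ B.card := by
    rw [Fintype.card_fun, Fintype.card_fin, Fintype.card_coe]
  obtain ⟨c, hc, ε0, hε0⟩ := ud10_dep _ (fun ε : B → Fin (e + 1) => fun y : Y =>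
    MvPolynomial.eval (fun ρ => (y : Fin n → Fin r → F) ρ.1 ρ.2) (∏ i : B, (T i) ^ (ε i : ℕ)))
    (fun ε => ud10_mem Y _ _ (hG ε)) (lt_of_lt_of_eq h hcard.symm)
  obtain ⟨Q, hQ0, hQv, hQd, hQe⟩ := ud10_poly e B c ε0 hε0
  refine ⟨Q, hQ0, hQv, hQd, ?_⟩
  rintro v ⟨y, hy, rfl⟩
  rw [hQe]
  have h1 := congrFun hc ⟨y, hy⟩
  rw [Finset.sum_apply, Pi.zero_apply] at h1
  rw [← h1]
  refine Finset.sum_congr rfl (fun ε _ => ?_)
  rw [Pi.smul_apply, smul_eq_mul, map_prod]
  simp only [map_pow]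

end Pool.Agent.H48.UD
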