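import Pool.Agent.H48.UD.Defs

/-!
# Project UD (MP_a3214d), row UD-9: growth of the Hilbert function
-/

set_option autoImplicit false

namespace Pool.Agent.H48.UD

/-- one step of the growth -/
theorem ud9_step (N w E : ℕ) (c1 c2 : ℝ) (h g : ℕ → ℕ) (hg : ∀ a, h a ≤ N * g (a + w)) (M : ℕ)
    (hM : c1 * ((∑ a ∈ Finset.range E, (M - h a) : ℕ) : ℝ) ≤
      ((∑ a ∈ Finset.range (w + E), (M - g a) : ℕ) : ℝ))
    (hbig : (w : ℝ) * M ≤ (c1 - c2) * ((∑ a ∈ Finset.range E, (M - h a) : ℕ) : ℝ)) :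
    N * c2 * ((∑ a ∈ Finset.range E, (M - h a) : ℕ) : ℝ) ≤
      ((∑ a ∈ Finset.range E, (N * M - h a) : ℕ) : ℝ) := by
  have h2 : ∑ a ∈ Finset.range (w + E), (M - g a) ≤
      w * M + ∑ a ∈ Finset.range E, (M - g (a + w)) := by
    rw [Finset.sum_range_add]
    refine add_le_add ?_ (le_of_eq ?_)
    · calc ∑ a ∈ Finset.range w, (M - g a) ≤ ∑ _a ∈ Finset.range w, M :=
            Finset.sum_le_sum fun a _ => Nat.sub_le _ _
        _ = w * M := by rw [Finset.sum_const, Finset.card_range, smul_eq_mul]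
    · exact Finset.sum_congr rfl fun a _ => by rw [Nat.add_comm]
  have h3 : N * ∑ a ∈ Finset.range E, (M - g (a + w)) ≤
      ∑ a ∈ Finset.range E, (N * M - h a) := by
    rw [Finset.mul_sum]
    refine Finset.sum_le_sum fun a _ => ?_
    rw [Nat.mul_sub]
    exact Nat.sub_le_sub_left (hg a) _
  have h2' : ((∑ a ∈ Finset.range (w + E), (M - g a) : ℕ) : ℝ) ≤
      w * M + ((∑ a ∈ Finset.range E, (M - g (a + w)) : ℕ) : ℝ) := by exact_mod_cast h2
  have h3' : (N : ℝ) * ((∑ a ∈ Finset.range E, (M - g (a + w)) : ℕ) : ℝ) ≤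
      ((∑ a ∈ Finset.range E, (N * M - h a) : ℕ) : ℝ) := by exact_mod_cast h3
  have h4 : c2 * ((∑ a ∈ Finset.range E, (M - h a) : ℕ) : ℝ) ≤
      ((∑ a ∈ Finset.range E, (M - g (a + w)) : ℕ) : ℝ) := by linarith
  calc N * c2 * ((∑ a ∈ Finset.range E, (M - h a) : ℕ) : ℝ)
      = N * (c2 * ((∑ a ∈ Finset.range E, (M - h a) : ℕ) : ℝ)) := by ring
    _ ≤ N * ((∑ a ∈ Finset.range E, (M - g (a + w)) : ℕ) : ℝ) :=
      mul_le_mul_of_nonneg_left h4 (Nat.cast_nonneg _)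
    _ ≤ _ := h3'

/-- the choice of the constant -/
theorem ud9_const (N D : ℕ) (c : ℝ) (hN : 1 ≤ N) (hc : 1 < c) (hcN : (N : ℝ) < c ^ (D + 1)) :
    ∃ c2 : ℝ, 1 < c2 ∧ c2 < c ∧ (N : ℝ) < c2 ^ (D + 1) := by
  have hN1 : (1 : ℝ) ≤ N := by exact_mod_cast hN
  have hN0 : (0 : ℝ) < N := by linarith
  set r : ℝ := (N : ℝ) ^ (1 / ((D + 1 : ℕ) : ℝ)) with hr
  have hr0 : 0 ≤ r := Real.rpow_nonneg hN0.le _
  have hrN : r ^ (D + 1) = N := by
    rw [hr, one_div, Real.rpow_inv_natCast_pow hN0.le (by omega)]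
  have hrc : r < c := by
    by_contra hcon
    have h1 : c ^ (D + 1) ≤ r ^ (D + 1) := pow_le_pow_left₀ (by linarith) (not_lt.mp hcon) _
    rw [hrN] at h1
    exact absurd hcN (not_lt.mpr h1)
  have hr1 : 1 ≤ r := by
    by_contra hcon
    have h1 : r ^ (D + 1) < 1 := pow_lt_one₀ hr0 (not_le.mp hcon) (by omega)
    rw [hrN] at h1
    linarith
  refine ⟨(r + c) / 2, by linarith, by linarith, ?_⟩
  rw [← hrN]
  exact pow_lt_pow_left₀ (by linarith) hr0 (by omega)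

/-- If `h a ≤ N g(a + w)` and the main inequality holds, then `h` grows so slowly that the
relations of degree `e` exist. -/
theorem exists_e (N D d w : ℕ) (c : ℝ) (hN : 1 ≤ N) (hc : 1 < c) (hcN : (N : ℝ) < c ^ (D + 1))
    (κ : ℕ → ℕ) : ∃ (e A : ℕ) (c' : ℝ), 1 < c' ∧ c' < c ∧ ∀ h g : ℕ → ℕ, Monotone h →
      Monotone g → (∀ a, h a ≤ N * g (a + w)) → (∀ a, h a ≤ κ a) →
      (∀ M : ℕ, M ≤ g A → c' * ((∑ a ∈ Finset.range (A - w), (M - h a) : ℕ) : ℝ) ≤
        ((∑ a ∈ Finset.range A, (M - g a) : ℕ) : ℝ)) →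
      h (d * e * (D + 1)) < (e + 1) ^ (D + 1) := by
  have hN0 : (0 : ℝ) < N := by exact_mod_cast hN
  obtain ⟨c2, hc2, hc2c, hc2N⟩ := ud9_const N D c hN hc hcN
  -- the threshold `a0`
  obtain ⟨a0, ha0, ha0'⟩ : ∃ a0 : ℕ, 1 ≤ a0 ∧ (w : ℝ) ≤ ((c2 + c) / 2 - c2) * (a0 / 2) := by
    obtain ⟨m, hm⟩ := exists_nat_ge (4 * (w : ℝ) / (c - c2))
    refine ⟨m + 1, by omega, ?_⟩
    have h0 : 0 < c - c2 := by linarith
    rw [div_le_iff₀ h0] at hm
    push_cast
    nlinarith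
  obtain ⟨K0, hK0⟩ : ∃ K0 : ℕ, ∀ a < a0, κ a ≤ K0 :=
    ⟨(Finset.range a0).sup κ, fun a ha => Finset.le_sup (f := κ) (Finset.mem_range.2 ha)⟩
  set M0 : ℕ := 2 * K0 + 1 with hM0
  have hM0r : (0 : ℝ) < M0 := by
    have : 0 < M0 := by omega
    exact_mod_cast this
  -- the number of steps
  set γ : ℝ := c2 ^ (D + 1) / N with hγ
  have hγ1 : 1 < γ := by rw [hγ, one_lt_div hN0]; exact hc2N
  obtain ⟨t0, ht0⟩ := pow_unbounded_of_one_lt ((2 * (d : ℝ) * (D + 1)) ^ (D + 1) * M0) hγ1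
  set t : ℕ := t0 + 1 with ht
  have htγ : (2 * (d : ℝ) * (D + 1)) ^ (D + 1) * M0 < γ ^ t :=
    lt_of_lt_of_le ht0 (pow_le_pow_right₀ hγ1.le (by omega))
  -- the degree
  have hex : ∃ e : ℕ, N ^ t * M0 ≤ (e + 1) ^ (D + 1) := by
    refine ⟨N ^ t * M0, ?_⟩
    calc N ^ t * M0 ≤ N ^ t * M0 + 1 := Nat.le_succ _
      _ ≤ (N ^ t * M0 + 1) ^ (D + 1) := Nat.le_self_pow (by omega) _
  classical
  obtain ⟨e, he, hmin⟩ : ∃ e : ℕ, N ^ t * M0 ≤ (e + 1) ^ (D + 1) ∧ e ^ (D + 1) ≤ N ^ t * M0 := by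
    refine ⟨Nat.find hex, Nat.find_spec hex, ?_⟩
    rcases Nat.eq_zero_or_pos (Nat.find hex) with h0 | h0
    · rw [h0, zero_pow (by omega)]
      exact Nat.zero_le _
    · have h1 := Nat.find_min hex (show Nat.find hex - 1 < Nat.find hex by omega)
      rw [show Nat.find hex - 1 + 1 = Nat.find hex by omega] at h1
      omega
  set b : ℕ := d * e * (D + 1) with hb
  -- `2 b < c2 ^ t`
  have hbt : 2 * (b : ℝ) < c2 ^ t := by
    by_contra hcon
    rw [not_lt] at hcon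
    have h1 : (c2 ^ t) ^ (D + 1) ≤ (2 * (b : ℝ)) ^ (D + 1) :=
      pow_le_pow_left₀ (by positivity) hcon _
    have h2 : (2 * (b : ℝ)) ^ (D + 1) = (2 * (d : ℝ) * (D + 1)) ^ (D + 1) * (e : ℝ) ^ (D + 1) := by
      rw [← mul_pow, hb]
      push_cast
      ring
    have h3 : (e : ℝ) ^ (D + 1) ≤ N ^ t * M0 := by exact_mod_cast hmin
    have h4 : (c2 ^ t) ^ (D + 1) = γ ^ t * N ^ t := by
      rw [hγ, div_pow, div_mul_cancel₀ _ (by positivity), ← pow_mul, ← pow_mul, Nat.mul_comm]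
    have h5 : γ ^ t * N ^ t ≤ (2 * (d : ℝ) * (D + 1)) ^ (D + 1) * M0 * N ^ t := by
      calc γ ^ t * N ^ t = (c2 ^ t) ^ (D + 1) := h4.symm
        _ ≤ (2 * (d : ℝ) * (D + 1)) ^ (D + 1) * (e : ℝ) ^ (D + 1) := h1.trans h2.le
        _ ≤ (2 * (d : ℝ) * (D + 1)) ^ (D + 1) * (N ^ t * M0) :=
          mul_le_mul_of_nonneg_left h3 (by positivity)
        _ = _ := by ring
    have h6 : 0 < (N : ℝ) ^ t := by positivity
    exact absurd (le_of_mul_le_mul_right h5 h6) (not_le.2 htγ)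
  refine ⟨e, w + (max b a0 + 1), (c2 + c) / 2, by linarith, by linarith, ?_⟩
  intro h g hh hgm hg hκ hmain
  set E : ℕ := max b a0 + 1 with hE
  rw [show w + E - w = E by omega] at hmain
  by_contra hcon
  rw [not_lt] at hcon
  have hbig : N ^ t * M0 ≤ h b := he.trans hcon
  set F : ℕ → ℕ := fun M => ∑ a ∈ Finset.range E, (M - h a) with hF
  have hlow : ∀ M : ℕ, M0 ≤ M → (a0 : ℝ) / 2 * M ≤ (F M : ℝ) := by
    intro M hM
    have h1 : a0 * M ≤ 2 * F M := by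
      calc a0 * M = ∑ _a ∈ Finset.range a0, M := by
            rw [Finset.sum_const, Finset.card_range, smul_eq_mul]
        _ ≤ ∑ a ∈ Finset.range a0, 2 * (M - h a) := by
            refine Finset.sum_le_sum fun a ha => ?_
            have h2 : h a ≤ K0 := (hκ a).trans (hK0 a (Finset.mem_range.1 ha))
            omega
        _ ≤ ∑ a ∈ Finset.range E, 2 * (M - h a) := by
            refine Finset.sum_le_sum_of_subset_of_nonneg ?_ fun _ _ _ => Nat.zero_le _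
            refine Finset.range_subset_range.mpr ?_
            have := le_max_right b a0
            omega
        _ = 2 * F M := by rw [hF, Finset.mul_sum]
    have h2 : (a0 : ℝ) * M ≤ 2 * F M := by exact_mod_cast h1
    linarith
  have hstep : ∀ M : ℕ, M0 ≤ M → M ≤ g (w + E) → N * c2 * (F M : ℝ) ≤ (F (N * M) : ℝ) := by
    intro M hM hMg
    refine ud9_step N w E ((c2 + c) / 2) c2 h g hg M (hmain M hMg) ?_
    calc (w : ℝ) * M ≤ ((c2 + c) / 2 - c2) * (a0 / 2) * M :=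
          mul_le_mul_of_nonneg_right ha0' (Nat.cast_nonneg _)
      _ = ((c2 + c) / 2 - c2) * (a0 / 2 * M) := by ring
      _ ≤ ((c2 + c) / 2 - c2) * (F M : ℝ) :=
          mul_le_mul_of_nonneg_left (hlow M hM) (by linarith)
  -- `N ^ (t - 1) M0 ≤ g A`
  have hgA : N ^ t0 * M0 ≤ g (w + E) := by
    have h1 : N * (N ^ t0 * M0) ≤ N * g (b + w) := by
      calc N * (N ^ t0 * M0) = N ^ t * M0 := by rw [ht]; ring
        _ ≤ h b := hbig
        _ ≤ _ := hg b
    have h2 : N ^ t0 * M0 ≤ g (b + w) := Nat.le_of_mul_le_mul_left h1 (by omega)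
    refine h2.trans (hgm ?_)
    have := le_max_left b a0
    omega
  have hiter : ∀ u : ℕ, u ≤ t → ((N : ℝ) * c2) ^ u * (M0 / 2) ≤ (F (N ^ u * M0) : ℝ) := by
    intro u
    induction u with
    | zero =>
      intro _
      rw [pow_zero, pow_zero, one_mul, one_mul]
      have h1 := hlow M0 le_rfl
      have h2 : (1 : ℝ) ≤ a0 := by exact_mod_cast ha0
      nlinarith
    | succ u ih =>
      intro hu
      have h1 : N * (N ^ u * M0) = N ^ (u + 1) * M0 := by ring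
      have h2 : N ^ u * M0 ≤ g (w + E) := by
        refine le_trans (Nat.mul_le_mul_right _ (Nat.pow_le_pow_right hN (by omega))) hgA
      have h3 := hstep (N ^ u * M0) (Nat.le_mul_of_pos_left _ (pow_pos (by omega) _)) h2
      rw [h1] at h3
      refine le_trans ?_ h3
      calc ((N : ℝ) * c2) ^ (u + 1) * (M0 / 2) = N * c2 * (((N : ℝ) * c2) ^ u * (M0 / 2)) := by
            ring
        _ ≤ _ := mul_le_mul_of_nonneg_left (ih (by omega)) (by positivity)
  have hup : (F (N ^ t * M0) : ℝ) ≤ b * (N ^ t * M0) := by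
    have h1 : F (N ^ t * M0) ≤ b * (N ^ t * M0) := by
      have h2 : F (N ^ t * M0) = ∑ a ∈ Finset.range b, (N ^ t * M0 - h a) := by
        rw [hF]
        refine (Finset.sum_subset (Finset.range_subset_range.mpr ?_) ?_).symm
        · have := le_max_left b a0
          omega
        · intro a _ ha
          rw [Finset.mem_range, not_lt] at ha
          exact Nat.sub_eq_zero_of_le (hbig.trans (hh ha))
      rw [h2]
      calc ∑ a ∈ Finset.range b, (N ^ t * M0 - h a) ≤ ∑ _a ∈ Finset.range b, N ^ t * M0 :=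
            Finset.sum_le_sum fun a _ => Nat.sub_le _ _
        _ = b * (N ^ t * M0) := by rw [Finset.sum_const, Finset.card_range, smul_eq_mul]
    exact_mod_cast h1
  have hfin := (hiter t le_rfl).trans hup
  have h6 : 0 < (N : ℝ) ^ t * M0 := by positivity
  have h7 : (N : ℝ) ^ t * M0 * c2 ^ t ≤ (N : ℝ) ^ t * M0 * (2 * b) := by
    rw [mul_pow] at hfin
    nlinarith
  exact absurd (le_of_mul_le_mul_left h7 h6) (not_le.2 hbt)

end Pool.Agent.H48.UD
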