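import Pool.Agent.H48.UD.Defs

/-!
# Project UD (MP_a3214d), row UD-8: the weights of the rows of a nonzero determinant

The product of powers of shifted coordinates is a combination of monomials of at most the same
degree; so the rows of degree at most `a` of a nonzero determinant of such products are at most
`hil Y a` in number, and the sum of the degrees of the rows is at least the sum over `a` of the
numbers `M - hil Y a`. After a file of helper53.
-/

set_option autoImplicit false

open NumberField Module Polynomial Pool.Agent.H52.UB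

namespace Pool.Agent.H48.UD

/-- there are finitely many exponent matrices of degree at most `a` -/
theorem finite_dg (n r a : ℕ) : {α : Fin n → Fin r → ℕ | dg α ≤ a}.Finite := by
  classical
  refine Set.Finite.subset (Set.finite_Iic (fun (_ : Fin n) (_ : Fin r) => a)) fun α hα => ?_
  rw [Set.mem_Iic]
  intro j i
  have h1 : α j i ≤ ∑ i, α j i :=
    Finset.single_le_sum (f := fun i => α j i) (fun _ _ => Nat.zero_le _) (Finset.mem_univ i)
  have h2 : ∑ i, α j i ≤ ∑ j, ∑ i, α j i :=
    Finset.single_le_sum (f := fun j => ∑ i, α j i) (fun _ _ => Nat.zero_le _)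
      (Finset.mem_univ j)
  exact (h1.trans h2).trans hα

/-- a polynomial of degree at most `a` gives an element of the space counted by `hil` -/
theorem ud8_mem {F : Type*} [Field F] {n r : ℕ} (Y : Set (Fin n → Fin r → F)) (a : ℕ)
    (P : MvPolynomial (Fin n × Fin r) F) (hP : P.totalDegree ≤ a) :
    (fun y : Y => MvPolynomial.eval (fun ρ : Fin n × Fin r => y.1 ρ.1 ρ.2) P) ∈
      Submodule.span F ((fun α : Fin n → Fin r → ℕ => fun y : Y => mn α y.1) ''
        {α | dg α ≤ a}) := by
  classical
  have h : (fun y : Y => MvPolynomial.eval (fun ρ : Fin n × Fin r => y.1 ρ.1 ρ.2) P) =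
      ∑ α ∈ P.support, P.coeff α • (fun y : Y => mn (fun j i => α (j, i)) y.1) := by
    funext y
    rw [MvPolynomial.eval_eq', Finset.sum_apply]
    refine Finset.sum_congr rfl fun α _ => ?_
    rw [Pi.smul_apply, smul_eq_mul, mn, Fintype.prod_prod_type]
  rw [h]
  refine Submodule.sum_mem _ fun α hα => Submodule.smul_mem _ _ (Submodule.subset_span ?_)
  refine ⟨fun j i => α (j, i), ?_, rfl⟩
  have h1 := MvPolynomial.le_totalDegree hα
  rw [Finsupp.sum_fintype _ _ (fun _ => rfl), Fintype.sum_prod_type] at h1
  exact h1.trans hP

/-- a product of powers of shifted coordinates is in the space counted by `hil` -/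
theorem ud8_shift {F : Type*} [Field F] {n r : ℕ} (Y : Set (Fin n → Fin r → F))
    (x0 : Fin n → Fin r → F) (α : Fin n → Fin r → ℕ) (a : ℕ) (h : dg α ≤ a) :
    (fun y : Y => mn α (fun j c => y.1 j c - x0 j c)) ∈
      Submodule.span F ((fun α : Fin n → Fin r → ℕ => fun y : Y => mn α y.1) ''
        {α | dg α ≤ a}) := by
  classical
  have h2 := ud8_mem Y a (∏ j, ∏ c, (MvPolynomial.X (j, c) - MvPolynomial.C (x0 j c)) ^ α j c)
    (by
      refine le_trans ?_ h
      refine (MvPolynomial.totalDegree_finsetProd _ _).trans (Finset.sum_le_sum fun j _ => ?_)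
      refine (MvPolynomial.totalDegree_finsetProd _ _).trans (Finset.sum_le_sum fun c _ => ?_)
      refine (MvPolynomial.totalDegree_pow _ _).trans ?_
      have h3 : (MvPolynomial.X (j, c) - MvPolynomial.C (x0 j c) :
          MvPolynomial (Fin n × Fin r) F).totalDegree ≤ 1 := by
        refine (MvPolynomial.totalDegree_sub _ _).trans ?_
        rw [MvPolynomial.totalDegree_C]
        exact max_le (MvPolynomial.totalDegree_X _).le (Nat.zero_le _)
      calc α j c * _ ≤ α j c * 1 := Nat.mul_le_mul_left _ h3
        _ = α j c := Nat.mul_one _)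
  have h3 : (fun y : Y => MvPolynomial.eval (fun ρ : Fin n × Fin r => y.1 ρ.1 ρ.2)
      (∏ j, ∏ c, (MvPolynomial.X (j, c) - MvPolynomial.C (x0 j c)) ^ α j c)) =
      fun y : Y => mn α (fun j c => y.1 j c - x0 j c) := by
    funext y
    simp [mn]
  rw [h3] at h2
  exact h2

/-- the weights of the rows of a nonzero determinant -/
theorem shift_ge {F : Type*} [Field F] {n r : ℕ} (Y : Set (Fin n → Fin r → F))
    (x0 : Fin n → Fin r → F) {M : ℕ} (y : Fin M → Fin n → Fin r → F) (hy : ∀ l, y l ∈ Y)
    (α : Fin M → Fin n → Fin r → ℕ)
    (hdet : (Matrix.of fun i l => mn (α i) (fun j c => y l j c - x0 j c)).det ≠ 0) (A : ℕ) :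
    ∑ a ∈ Finset.range A, (M - hil Y a) ≤ ∑ i, dg (α i) := by
  classical
  -- at most `hil Y a` of the degrees are at most `a`
  have h1 : ∀ a, (Finset.univ.filter fun i => dg (α i) ≤ a).card ≤ hil Y a := by
    intro a
    set s := Finset.univ.filter fun i => dg (α i) ≤ a with hs
    let V := Submodule.span F ((fun α : Fin n → Fin r → ℕ => fun y : Y => mn α y.1) ''
      {α | dg α ≤ a})
    have hV : Module.Finite F V :=
      FiniteDimensional.span_of_finite F ((finite_dg n r a).image _)
    let φ : Fin M → (Y → F) := fun i y => mn (α i) (fun j c => y.1 j c - x0 j c)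
    have hφ : ∀ i ∈ s, φ i ∈ V := fun i hi =>
      ud8_shift Y x0 (α i) a (Finset.mem_filter.mp hi).2
    have hli : LinearIndependent F φ := by
      have h4 : LinearIndependent F
          (Matrix.of fun i l => mn (α i) (fun j c => y l j c - x0 j c)).row :=
        Matrix.linearIndependent_rows_of_det_ne_zero hdet
      -- restriction to the points
      let res : (Y → F) →ₗ[F] (Fin M → F) := LinearMap.funLeft F F fun l => (⟨y l, hy l⟩ : Y)
      refine LinearIndependent.of_comp res ?_
      exact h4
    have hli' : LinearIndependent F (fun i : s => (⟨φ i.1, hφ i.1 i.2⟩ : V)) := by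
      refine LinearIndependent.of_comp V.subtype ?_
      exact hli.comp (fun i : s => i.1) Subtype.val_injective
    have h5 := hli'.fintype_card_le_finrank
    rw [Fintype.card_coe] at h5
    exact h5
  have h2 : ∀ a, M - hil Y a ≤ (Finset.univ.filter fun i => a < dg (α i)).card := by
    intro a
    have h3 := Finset.card_filter_add_card_filter_not (s := (Finset.univ : Finset (Fin M)))
      (fun i => dg (α i) ≤ a)
    rw [Finset.card_univ, Fintype.card_fin] at h3
    simp only [not_le] at h3
    have := h1 a
    omega
  calc ∑ a ∈ Finset.range A, (M - hil Y a)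
      ≤ ∑ a ∈ Finset.range A, (Finset.univ.filter fun i => a < dg (α i)).card :=
        Finset.sum_le_sum fun a _ => h2 a
    _ = ∑ a ∈ Finset.range A, ∑ i : Fin M, if a < dg (α i) then 1 else 0 := by
        refine Finset.sum_congr rfl fun a _ => ?_
        rw [Finset.card_filter]
    _ = ∑ i : Fin M, ∑ a ∈ Finset.range A, if a < dg (α i) then 1 else 0 :=
        Finset.sum_comm
    _ ≤ ∑ i, dg (α i) := by
        refine Finset.sum_le_sum fun i _ => ?_
        rw [← Finset.card_filter]
        calc ((Finset.range A).filter fun a => a < dg (α i)).card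
            ≤ (Finset.range (dg (α i))).card := by
              refine Finset.card_le_card fun a ha => ?_
              rw [Finset.mem_range]
              exact (Finset.mem_filter.mp ha).2
          _ = _ := Finset.card_range _

end Pool.Agent.H48.UD
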