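import Pool.Agent.H48.UD.Defs
import Pool.Agent.H52.UB.Prime

/-!
# Project UD (MP_a3214d), row UD-4: local to global, conjugates, primes, good primes
-/

set_option autoImplicit false

open NumberField Module Polynomial Pool.Agent.H52.UB

namespace Pool.Agent.H48.UD

theorem glob {A : Type*} [CommRing A] (p z : A) (N : ℕ)
    (h : ∀ P : Ideal A, P.IsMaximal → p ∈ P → ∃ s : A, s ∉ P ∧ p ^ N ∣ s * z) : p ^ N ∣ z := by
  by_contra hcon
  obtain ⟨I, hI⟩ : ∃ I : Ideal A, ∀ s, s ∈ I ↔ p ^ N ∣ s * z :=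
    ⟨{ carrier := {s | p ^ N ∣ s * z}
       add_mem' := by
         intro a b ha hb
         simp only [Set.mem_ofPred_eq] at *
         rw [add_mul]
         exact dvd_add ha hb
       zero_mem' := by simp
       smul_mem' := by
         intro c x hx
         simp only [Set.mem_ofPred_eq, smul_eq_mul, mul_assoc] at *
         exact Dvd.dvd.mul_left hx c }, fun s => Iff.rfl⟩
  have hI1 : I ≠ ⊤ := by
    intro h1
    rw [Ideal.eq_top_iff_one, hI, one_mul] at h1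
    exact hcon h1
  obtain ⟨P, hP, hIP⟩ := Ideal.exists_le_maximal I hI1
  have hp : p ∈ P := hP.isPrime.mem_of_pow_mem N (hIP ((hI _).mpr (dvd_mul_right _ _)))
  obtain ⟨s, hs, hsz⟩ := h P hP hp
  exact hs (hIP ((hI s).mpr hsz))

section

variable (k : Type) [Field k] [NumberField k]

theorem ud4_isIntegral (z : Zb k) : IsIntegral ℤ z :=
  (isIntegral_algebraMap_iff (FaithfulSMul.algebraMap_injective (Zb k) (AlgebraicClosure k))).mp z.2

theorem ud4_minpoly (z : Zb k) :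
    minpoly ℚ (z : AlgebraicClosure k) = (minpoly ℤ z).map (algebraMap ℤ ℚ) := by
  have hmz : minpoly ℤ (z : AlgebraicClosure k) = minpoly ℤ z :=
    minpoly.algebraMap_eq (FaithfulSMul.algebraMap_injective (Zb k) (AlgebraicClosure k)) z
  have hint : IsIntegral ℤ (z : AlgebraicClosure k) := z.2
  rw [← hmz]
  exact minpoly.isIntegrallyClosed_eq_field_fractions' ℚ hint

theorem ud4_coeff_ne (z : Zb k) (hz : z ≠ 0) : (minpoly ℤ z).coeff 0 ≠ 0 := by
  intro h0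
  have hint : IsIntegral ℤ (z : AlgebraicClosure k) := z.2
  have h1 : (minpoly ℚ (z : AlgebraicClosure k)).coeff 0 = 0 := by
    rw [ud4_minpoly, coeff_map, h0, map_zero]
  rw [minpoly.coeff_zero_eq_zero (hint.tower_top (A := ℚ))] at h1
  exact hz (Subtype.ext h1)

theorem ud4_root (z : Zb k) (r : ℂ) (hr : r ∈ ((minpoly ℤ z).map (algebraMap ℤ ℂ)).roots) :
    ∃ φ : AlgebraicClosure k →+* ℂ, φ (z : AlgebraicClosure k) = r := by
  haveI : Algebra.IsAlgebraic ℚ (AlgebraicClosure k) := Algebra.IsAlgebraic.trans ℚ k _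
  have hint : IsIntegral ℤ (z : AlgebraicClosure k) := z.2
  have h1 : r ∈ (minpoly ℚ (z : AlgebraicClosure k)).rootSet ℂ := by
    rw [Polynomial.mem_rootSet]
    refine ⟨minpoly.ne_zero (hint.tower_top (A := ℚ)), ?_⟩
    rw [ud4_minpoly, aeval_map_algebraMap]
    have h2 := (mem_roots'.mp hr).2
    rwa [IsRoot.def, eval_map, ← aeval_def] at h2
  rw [← Algebra.IsAlgebraic.range_eval_eq_rootSet_minpoly] at h1
  obtain ⟨ψ, hψ⟩ := h1
  exact ⟨ψ.toRingHom, hψ⟩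

theorem ud4_coeff_le (z : Zb k) (B : ℝ)
    (hB : ∀ r ∈ ((minpoly ℤ z).map (algebraMap ℤ ℂ)).roots, ‖r‖ ≤ B) :
    |(((minpoly ℤ z).coeff 0 : ℤ) : ℝ)| ≤ B ^ (minpoly ℤ z).natDegree := by
  have h1 := coeff_le_of_roots_le (f := algebraMap ℤ ℂ) 0 (minpoly.monic (ud4_isIntegral k z))
    (IsAlgClosed.splits _) hB
  rw [coeff_map, Nat.sub_zero, Nat.choose_zero_right, Nat.cast_one, mul_one] at h1
  have h2 : ‖algebraMap ℤ ℂ ((minpoly ℤ z).coeff 0)‖ =
      |(((minpoly ℤ z).coeff 0 : ℤ) : ℝ)| := by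
    rw [eq_intCast, Complex.norm_intCast]
  rwa [h2] at h1

theorem ud4_coeff_mem (z : Zb k) (P : Ideal (Zb k)) (hz : z ∈ P) :
    ((minpoly ℤ z).coeff 0 : Zb k) ∈ P := by
  have h2 : aeval z (minpoly ℤ z) = 0 := minpoly.aeval ℤ z
  rw [← divX_mul_X_add (minpoly ℤ z), map_add, map_mul, aeval_X, aeval_C] at h2
  have h3 : algebraMap ℤ (Zb k) ((minpoly ℤ z).coeff 0) =
      -(aeval z (minpoly ℤ z).divX * z) := by
    rw [eq_neg_iff_add_eq_zero, add_comm]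
    exact h2
  rw [eq_intCast] at h3
  rw [h3]
  exact P.neg_mem (P.mul_mem_left _ hz)

end

theorem conj_ge (k : Type) [Field k] [NumberField k] (z : Zb k) (hz : z ≠ 0) :
    ∃ φ : AlgebraicClosure k →+* ℂ, 1 ≤ ‖φ (z : AlgebraicClosure k)‖ := by
  have hmonic : (minpoly ℤ z).Monic := minpoly.monic (ud4_isIntegral k z)
  have hdeg : 0 < (minpoly ℤ z).natDegree := minpoly.natDegree_pos (ud4_isIntegral k z)
  have hne : ((minpoly ℤ z).map (algebraMap ℤ ℂ)).roots.toFinset.Nonempty := by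
    obtain ⟨r, hr⟩ := IsAlgClosed.exists_root ((minpoly ℤ z).map (algebraMap ℤ ℂ)) (by
      rw [hmonic.degree_map]
      exact (natDegree_pos_iff_degree_pos.mp hdeg).ne')
    refine ⟨r, ?_⟩
    rw [Multiset.mem_toFinset, mem_roots']
    exact ⟨(hmonic.map _).ne_zero, hr⟩
  obtain ⟨r, hr, hmax⟩ := Finset.exists_max_image _ (fun r : ℂ => ‖r‖) hne
  have h1 := ud4_coeff_le k z ‖r‖ (fun r' hr' => hmax r' (Multiset.mem_toFinset.mpr hr'))
  have h2 : (1 : ℝ) ≤ |(((minpoly ℤ z).coeff 0 : ℤ) : ℝ)| := by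
    exact_mod_cast Int.one_le_abs (ud4_coeff_ne k z hz)
  obtain ⟨φ, hφ⟩ := ud4_root k z r (Multiset.mem_toFinset.mp hr)
  refine ⟨φ, ?_⟩
  rw [hφ]
  exact (one_le_pow_iff_of_nonneg (norm_nonneg r) hdeg.ne').mp (h2.trans h1)

theorem exists_primes (K : ℕ) : ∃ C : ℝ, 0 < C ∧ ∀ Y : ℝ, 1 ≤ Y → ∃ S : Finset ℕ, S.card = K ∧
    ∀ p ∈ S, p.Prime ∧ Y ≤ p ∧ (p : ℝ) ≤ C * Y := by
  refine ⟨2 ^ (K + 1), by positivity, ?_⟩
  intro Y hY
  obtain ⟨m, hm⟩ : ∃ m : ℕ, m = ⌈Y⌉₊ := ⟨_, rfl⟩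
  have hm1 : Y ≤ m := by
    rw [hm]
    exact Nat.le_ceil Y
  have hm2 : (m : ℝ) ≤ 2 * Y := by
    rw [hm]
    have := Nat.ceil_lt_add_one (by linarith : 0 ≤ Y)
    linarith
  have hm0 : 0 < m := by
    have : (0 : ℝ) < m := by linarith
    exact_mod_cast this
  have h1 : ∀ i : ℕ, ∃ q : ℕ, q.Prime ∧ m * 2 ^ i < q ∧ q ≤ m * 2 ^ (i + 1) := by
    intro i
    obtain ⟨q, hq, h2, h3⟩ := Nat.exists_prime_lt_and_le_two_mul (m * 2 ^ i) (by positivity)
    exact ⟨q, hq, h2, by rw [pow_succ 2 i]; linarith⟩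
  choose q hq hq1 hq2 using h1
  have hlt : StrictMono q := by
    intro i j hij
    calc q i ≤ m * 2 ^ (i + 1) := hq2 i
      _ ≤ m * 2 ^ j := Nat.mul_le_mul_left _ (Nat.pow_le_pow_right (by norm_num) (by omega))
      _ < q j := hq1 j
  refine ⟨(Finset.range K).image q, ?_, ?_⟩
  · rw [Finset.card_image_of_injective _ hlt.injective, Finset.card_range]
  · intro p hp
    obtain ⟨i, hi, rfl⟩ := Finset.mem_image.mp hp
    rw [Finset.mem_range] at hi
    refine ⟨hq i, ?_, ?_⟩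
    · have h2 : m ≤ q i := (Nat.le_mul_of_pos_right m (by positivity)).trans (hq1 i).le
      have h3 : (m : ℝ) ≤ q i := by exact_mod_cast h2
      exact hm1.trans h3
    · have h2 : q i ≤ m * 2 ^ K :=
        (hq2 i).trans (Nat.mul_le_mul_left _ (Nat.pow_le_pow_right (by norm_num) (by omega)))
      have h3 : (q i : ℝ) ≤ m * 2 ^ K := by exact_mod_cast h2
      refine h3.trans ?_
      have h4 : (m : ℝ) * 2 ^ K ≤ (2 * Y) * 2 ^ K :=
        mul_le_mul_of_nonneg_right hm2 (by positivity)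
      refine h4.trans (le_of_eq ?_)
      ring

theorem good_prime (k : Type) [Field k] [NumberField k] (Dg : ℕ) (w : ℝ) : ∃ K : ℕ, ∀ H : ℝ,
    2 ≤ H → ∀ S : Finset ℕ, K ≤ S.card → (∀ p ∈ S, p.Prime ∧ H ≤ p) →
    ∀ z : Zb k, z ≠ 0 → (minpoly ℤ z).natDegree ≤ Dg →
      (∀ φ : AlgebraicClosure k →+* ℂ, ‖φ (z : AlgebraicClosure k)‖ ≤ H ^ w) →
      ∃ p ∈ S, Cop k p z := by
  refine ⟨⌊max w 0 * Dg⌋₊ + 1, ?_⟩
  intro H hH S hK hS z hz hdeg hφ
  have ha := ud4_coeff_ne k z hz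
  have hH0 : 0 < H := by linarith
  have hH1 : 1 ≤ H := by linarith
  have hroots : ∀ r ∈ ((minpoly ℤ z).map (algebraMap ℤ ℂ)).roots, ‖r‖ ≤ H ^ max w 0 := by
    intro r hr
    obtain ⟨φ, h1⟩ := ud4_root k z r hr
    rw [← h1]
    exact (hφ φ).trans (Real.rpow_le_rpow_of_exponent_le hH1 (le_max_left _ _))
  have hsize : |(((minpoly ℤ z).coeff 0 : ℤ) : ℝ)| ≤ H ^ (max w 0 * Dg) := by
    refine (ud4_coeff_le k z _ hroots).trans ?_
    rw [← Real.rpow_natCast, ← Real.rpow_mul hH0.le]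
    refine Real.rpow_le_rpow_of_exponent_le hH1 (mul_le_mul_of_nonneg_left ?_ (le_max_right _ _))
    exact_mod_cast hdeg
  by_contra hcon
  push Not at hcon
  have h2 : ∀ p ∈ S, (p : ℤ) ∣ (minpoly ℤ z).coeff 0 := by
    intro p hp
    by_contra hpa
    apply hcon p hp
    intro P hP hpP hzP
    have h1 := ud4_coeff_mem k z P hzP
    have h4 : IsCoprime (p : ℤ) ((minpoly ℤ z).coeff 0) := by
      rw [Prime.coprime_iff_not_dvd (Nat.prime_iff_prime_int.mp (hS p hp).1)]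
      exact hpa
    obtain ⟨u, v, huv⟩ := h4
    apply hP.ne_top
    rw [Ideal.eq_top_iff_one]
    have h5 : ((u : Zb k) * (p : Zb k) + (v : Zb k) * ((minpoly ℤ z).coeff 0 : Zb k)) = 1 := by
      exact_mod_cast congrArg (fun t : ℤ => (t : Zb k)) huv
    rw [← h5]
    exact P.add_mem (P.mul_mem_left _ hpP) (P.mul_mem_left _ h1)
  have h3 : ∏ p ∈ S, (p : ℤ) ∣ (minpoly ℤ z).coeff 0 := by
    refine Finset.prod_dvd_of_coprime ?_ h2
    intro p hp p' hp' hne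
    show IsCoprime (p : ℤ) (p' : ℤ)
    rw [Nat.isCoprime_iff_coprime, Nat.coprime_primes (hS p hp).1 (hS p' hp').1]
    exact hne
  have h4 : ∏ p ∈ S, (p : ℤ) ≤ |(minpoly ℤ z).coeff 0| :=
    Int.le_of_dvd (abs_pos.mpr ha) ((dvd_abs _ _).mpr h3)
  have h5 : ∏ p ∈ S, (p : ℝ) ≤ |(((minpoly ℤ z).coeff 0 : ℤ) : ℝ)| := by
    have h41 : ((∏ p ∈ S, (p : ℤ) : ℤ) : ℝ) ≤ ((|(minpoly ℤ z).coeff 0| : ℤ) : ℝ) :=
      Int.cast_le.mpr h4
    rw [Int.cast_abs, Int.cast_prod] at h41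
    simpa using h41
  have h6 : H ^ S.card ≤ ∏ p ∈ S, (p : ℝ) := by
    rw [← Finset.prod_const]
    exact Finset.prod_le_prod (fun _ _ => hH0.le) (fun p hp => (hS p hp).2)
  have h7 : H ^ (S.card : ℝ) ≤ H ^ (max w 0 * Dg) := by
    rw [Real.rpow_natCast]
    exact h6.trans (h5.trans hsize)
  have h8 : (S.card : ℝ) ≤ max w 0 * Dg :=
    (Real.rpow_le_rpow_left_iff (by linarith)).mp h7
  have h9 : max w 0 * Dg < (⌊max w 0 * Dg⌋₊ + 1 : ℕ) := by
    push_cast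
    exact Nat.lt_floor_add_one _
  have h10 : ((⌊max w 0 * Dg⌋₊ + 1 : ℕ) : ℝ) ≤ S.card := by exact_mod_cast hK
  linarith

end Pool.Agent.H48.UD
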