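import Pool.Agent.H48.UD.Defs

/-!
# Project UD (MP_a3214d), row UD-3

`loc_div`: Taylor expansion at a point of the class and multilinear expansion of the determinant
(adapted from the proof of `det_dvd` by helper53).
-/

set_option autoImplicit false

namespace Pool.Agent.H48.UD

theorem loc_div {A : Type*} [CommRing A] (P : Ideal A) [P.IsPrime] (p : A) {J : Type*} [Fintype J]
    {M : ℕ} (G : Fin M → MvPolynomial J ℤ) (y : Fin M → J → A) (y0 : J → A)
    (hcl : ∀ l, ∃ s : A, s ∉ P ∧ ∀ j, p ∣ s * (y l j - y0 j)) (N : ℕ)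
    (hN : ∀ α : Fin M → J → ℕ, (Matrix.of fun i l => ∏ j, (y l j - y0 j) ^ α i j).det ≠ 0 →
      N ≤ ∑ i, ∑ j, α i j) :
    ∃ s : A, s ∉ P ∧ p ^ N ∣ s * (Matrix.of fun i l => MvPolynomial.aeval (y l) (G i)).det := by
  classical
  -- a common multiplier
  obtain ⟨s, hs, hdvd⟩ : ∃ s : A, s ∉ P ∧ ∀ l j, p ∣ s * (y l j - y0 j) := by
    choose s hs h using hcl
    refine ⟨∏ l, s l, ?_, ?_⟩
    · intro h1
      obtain ⟨l, -, h2⟩ := Ideal.IsPrime.prod_mem_iff.mp h1
      exact hs l h2
    · intro l j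
      rw [← Finset.mul_prod_erase Finset.univ s (Finset.mem_univ l),
        mul_comm (s l), mul_assoc]
      exact (h l j).mul_left _
  set g : Fin M → Fin M → A := fun i l => MvPolynomial.aeval (y l) (G i) with hg
  -- Taylor expansion
  let G' : Fin M → MvPolynomial J A := fun i =>
    MvPolynomial.aeval (fun j => MvPolynomial.X j + MvPolynomial.C (y0 j)) (G i)
  have hG' : ∀ i l, g i l = MvPolynomial.eval (fun j => y l j - y0 j) (G' i) := by
    intro i l
    have h1 : MvPolynomial.eval (fun j => y l j - y0 j) (G' i) =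
        MvPolynomial.aeval (fun j => MvPolynomial.eval (fun j => y l j - y0 j)
          (MvPolynomial.X j + MvPolynomial.C (y0 j))) (G i) := by
      show (MvPolynomial.eval (fun j => y l j - y0 j)) (MvPolynomial.aeval _ (G i)) = _
      rw [MvPolynomial.aeval_def, MvPolynomial.aeval_def, MvPolynomial.hom_eval₂]
      congr 1
      exact RingHom.ext_int _ _
    have h2 : (fun j => MvPolynomial.eval (fun j => y l j - y0 j)
        (MvPolynomial.X j + MvPolynomial.C (y0 j))) = y l := by
      funext j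
      simp
    rw [h1, h2]
  let T : Finset (J →₀ ℕ) := Finset.univ.biUnion fun i => (G' i).support
  have hsum : ∀ i l, g i l = ∑ α ∈ T, (G' i).coeff α * ∏ j, (y l j - y0 j) ^ α j := by
    intro i l
    rw [hG' i l, MvPolynomial.eval_eq']
    refine Finset.sum_subset ?_ ?_
    · intro α hα
      exact Finset.mem_biUnion.mpr ⟨i, Finset.mem_univ _, hα⟩
    · intro α _ hα
      rw [MvPolynomial.notMem_support_iff.mp hα, zero_mul]
  let K : ℕ := T.sup fun α => ∑ j, α j
  refine ⟨s ^ (M * K), fun h => hs ((inferInstance : P.IsPrime).mem_of_pow_mem _ h), ?_⟩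
  -- multilinear expansion
  have hdet : (Matrix.of g).det = ∑ f ∈ Fintype.piFinset (fun _ : Fin M => T),
      (∏ i, (G' i).coeff (f i)) *
        (Matrix.of fun i l => ∏ j, (y l j - y0 j) ^ (f i) j).det := by
    have h1 : (Matrix.of g) = fun i => ∑ α ∈ T, (G' i).coeff α •
        (fun l => ∏ j, (y l j - y0 j) ^ α j) := by
      funext i l
      rw [Finset.sum_apply]
      exact hsum i l
    have h2 := (Matrix.detRowAlternating (n := Fin M) (R := A)).toMultilinearMap.map_sum_finset
      (fun i α => (G' i).coeff α • (fun l => ∏ j, (y l j - y0 j) ^ α j)) (fun _ => T)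
    have h3 : (Matrix.of g).det = (Matrix.detRowAlternating (n := Fin M) (R := A))
        (fun i => ∑ α ∈ T, (G' i).coeff α • (fun l => ∏ j, (y l j - y0 j) ^ α j)) := by
      rw [h1]; rfl
    rw [h3]
    refine h2.trans ?_
    refine Finset.sum_congr rfl fun f _ => ?_
    exact (Matrix.detRowAlternating (n := Fin M) (R := A)).toMultilinearMap.map_smul_univ
      (fun i => (G' i).coeff (f i)) (fun i l => ∏ j, (y l j - y0 j) ^ (f i) j)
  show p ^ N ∣ s ^ (M * K) * (Matrix.of g).det
  rw [hdet, Finset.mul_sum]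
  refine Finset.dvd_sum fun f hf => ?_
  have hfT : ∀ i, f i ∈ T := fun i => Fintype.mem_piFinset.mp hf i
  have key : p ^ N ∣ s ^ (M * K) * (Matrix.of fun i l => ∏ j, (y l j - y0 j) ^ (f i) j).det := by
    by_cases h0 : (Matrix.of fun i l => ∏ j, (y l j - y0 j) ^ (f i) j).det = 0
    · rw [h0, mul_zero]
      exact dvd_zero _
    -- the degrees are large
    have h1 : N ≤ ∑ i, ∑ j, (f i) j := hN (fun i j => (f i) j) h0
    -- divisibility
    choose v hv using hdvd
    have h2 : (Matrix.of fun (i : Fin M) (l : Fin M) =>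
        s ^ (∑ j, (f i) j) * ∏ j, (y l j - y0 j) ^ (f i) j) =
        Matrix.of fun i l => p ^ (∑ j, (f i) j) * ∏ j, v l j ^ (f i) j := by
      ext i l
      simp only [Matrix.of_apply]
      rw [← Finset.prod_pow_eq_pow_sum, ← Finset.prod_mul_distrib,
        ← Finset.prod_pow_eq_pow_sum, ← Finset.prod_mul_distrib]
      refine Finset.prod_congr rfl fun j _ => ?_
      rw [← mul_pow, ← mul_pow, hv l j]
    have h3 := congrArg Matrix.det h2
    have h4 := Matrix.det_mul_column (fun i : Fin M => s ^ (∑ j, (f i) j))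
      (Matrix.of fun (i : Fin M) (l : Fin M) => ∏ j, (y l j - y0 j) ^ (f i) j)
    have h5 := Matrix.det_mul_column (fun i : Fin M => p ^ (∑ j, (f i) j))
      (Matrix.of fun (i : Fin M) (l : Fin M) => ∏ j, v l j ^ (f i) j)
    simp only [Matrix.of_apply] at h4 h5
    rw [h4, h5, Finset.prod_pow_eq_pow_sum, Finset.prod_pow_eq_pow_sum] at h3
    have h6 : p ^ N ∣ s ^ (∑ i, ∑ j, (f i) j) *
        (Matrix.of fun i l => ∏ j, (y l j - y0 j) ^ (f i) j).det := by
      rw [h3]
      exact (pow_dvd_pow p h1).mul_right _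
    refine h6.trans (mul_dvd_mul_right (pow_dvd_pow s ?_) _)
    calc ∑ i, ∑ j, (f i) j ≤ ∑ _i : Fin M, K :=
          Finset.sum_le_sum fun i _ => Finset.le_sup (f := fun α : J →₀ ℕ => ∑ j, α j) (hfT i)
      _ = M * K := by rw [Finset.sum_const, Finset.card_univ, Fintype.card_fin, smul_eq_mul]
  have h7 : s ^ (M * K) * ((∏ i, (G' i).coeff (f i)) *
      (Matrix.of fun i l => ∏ j, (y l j - y0 j) ^ (f i) j).det) =
      (∏ i, (G' i).coeff (f i)) * (s ^ (M * K) *
        (Matrix.of fun i l => ∏ j, (y l j - y0 j) ^ (f i) j).det) := by ring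
  rw [h7]
  exact key.mul_left _

end Pool.Agent.H48.UD
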