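import Pool.Agent.H48.UD.Defs

/-!
# Project UD (MP_a3214d), row UD-15: the functions as polynomials

Ring homomorphisms and the functions `cf`, `dsc`, `mon`, `mn`, `os`; the degrees of the
coefficients and of the traces of the generic point.
-/

set_option autoImplicit false

open NumberField Module Polynomial Pool.Agent.H52.UB

namespace Pool.Agent.H48.UD

section Poly

variable {A B : Type*} [CommRing A] [CommRing B] (f : A →+* B) {n q : ℕ}

theorem ud15_map_fP (x : Fin n → Fin (q + 1) → A) :
    (fP x).map f = fP (fun j i => f (x j i)) := by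
  unfold fP
  rw [Polynomial.map_prod]
  exact Finset.prod_congr rfl fun j _ => by simp

theorem ud15_map_gP (x : Fin n → Fin (q + 1) → A) (i : Fin (q + 1)) :
    (gP x i).map f = gP (fun j i => f (x j i)) i := by
  unfold gP
  rw [Polynomial.map_sum]
  refine Finset.sum_congr rfl fun j _ => ?_
  rw [Polynomial.map_mul, Polynomial.map_C, Polynomial.map_prod]
  congr 1
  exact Finset.prod_congr rfl fun l _ => by simp

theorem map_cf (x : Fin n → Fin (q + 1) → A) (ρ : Fin (q + 1) × Fin n) :
    f (cf x ρ) = cf (fun j i => f (x j i)) ρ := by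
  unfold cf
  split_ifs
  · rw [← ud15_map_fP, Polynomial.coeff_map]
  · rw [← ud15_map_gP, Polynomial.coeff_map]

theorem map_dsc (x : Fin n → Fin (q + 1) → A) : f (dsc x) = dsc (fun j i => f (x j i)) := by
  unfold dsc
  simp only [map_prod, map_sub]

theorem map_mon (x : Fin (q + 1) → A) (b : Fin (q + 1) → ℕ) :
    f (mon x b) = mon (fun i => f (x i)) b := by
  unfold mon
  simp only [map_prod, map_pow]

theorem map_mn {r : ℕ} (α : Fin n → Fin r → ℕ) (x : Fin n → Fin r → A) :
    f (mn α x) = mn α (fun j i => f (x j i)) := by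
  unfold mn
  simp only [map_prod, map_pow]

theorem map_os {r : ℕ} (α : Fin n → Fin r → ℕ) (x : Fin n → Fin r → A) :
    f (os α x) = os α (fun j i => f (x j i)) := by
  unfold os
  rw [map_sum]
  exact Finset.sum_congr rfl fun π _ => map_mn f α _

theorem os_perm {r : ℕ} (α : Fin n → Fin r → ℕ) (x : Fin n → Fin r → A)
    (π : Equiv.Perm (Fin n)) : os α (fun j => x (π j)) = os α x := by
  unfold os
  exact Fintype.sum_equiv (Equiv.mulLeft π) _ _ fun τ => rfl

end Poly

section Deg

/-- the coefficients of a product of polynomials -/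
theorem ud15_coeff_mul {σ : Type*} {R : Type*} [CommRing R]
    {p r : (MvPolynomial σ R)[X]} {a b : ℕ}
    (hp : ∀ m, (p.coeff m).totalDegree ≤ a) (hr : ∀ m, (r.coeff m).totalDegree ≤ b) (m : ℕ) :
    ((p * r).coeff m).totalDegree ≤ a + b := by
  rw [Polynomial.coeff_mul]
  refine MvPolynomial.totalDegree_finsetSum_le fun i _ => ?_
  exact (MvPolynomial.totalDegree_mul _ _).trans (Nat.add_le_add (hp _) (hr _))

theorem ud15_coeff_C {σ : Type*} {R : Type*} [CommRing R] {t : MvPolynomial σ R} {a : ℕ}
    (ht : t.totalDegree ≤ a) (m : ℕ) :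
    ((C t : (MvPolynomial σ R)[X]).coeff m).totalDegree ≤ a := by
  rw [Polynomial.coeff_C]
  split_ifs
  · exact ht
  · simp

theorem ud15_coeff_X {σ : Type*} {R : Type*} [CommRing R] {t : MvPolynomial σ R} {a : ℕ}
    (ht : t.totalDegree ≤ a) (m : ℕ) :
    ((X - C t : (MvPolynomial σ R)[X]).coeff m).totalDegree ≤ a := by
  rw [Polynomial.coeff_sub]
  refine (MvPolynomial.totalDegree_sub _ _).trans (max_le ?_ (ud15_coeff_C ht m))
  rw [Polynomial.coeff_X]
  split_ifs
  · simp
  · simp

theorem ud15_coeff_prod {σ ι : Type*} {R : Type*} [CommRing R]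
    (s : Finset ι) (t : ι → MvPolynomial σ R) (ht : ∀ j, (t j).totalDegree ≤ 1) (m : ℕ) :
    ((∏ j ∈ s, (X - C (t j)) : (MvPolynomial σ R)[X]).coeff m).totalDegree ≤ s.card := by
  classical
  induction s using Finset.induction_on generalizing m with
  | empty =>
    rw [Finset.prod_empty, Polynomial.coeff_one]
    split_ifs <;> simp
  | insert j s hj ih =>
    rw [Finset.prod_insert hj, Finset.card_insert_of_notMem hj, add_comm]
    exact ud15_coeff_mul (ud15_coeff_X (ht j)) ih m

theorem ud15_deg_X {σ : Type*} (i : σ) :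
    (MvPolynomial.X i : MvPolynomial σ ℤ).totalDegree ≤ 1 := by
  rw [MvPolynomial.totalDegree_X]

theorem cf_deg (n q : ℕ) (ρ : Fin (q + 1) × Fin n) :
    (cf (fun (j : Fin n) (i : Fin (q + 1)) =>
      (MvPolynomial.X (j, i) : MvPolynomial (Fin n × Fin (q + 1)) ℤ)) ρ).totalDegree ≤ n := by
  unfold cf
  split_ifs
  · unfold fP
    refine (ud15_coeff_prod Finset.univ _ (fun j => ud15_deg_X _) _).trans ?_
    simp
  · unfold gP
    rw [Polynomial.finsetSum_coeff]
    refine MvPolynomial.totalDegree_finsetSum_le fun j _ => ?_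
    refine (ud15_coeff_mul (ud15_coeff_C (ud15_deg_X _))
      (ud15_coeff_prod _ _ (fun l => ud15_deg_X _)) _).trans ?_
    rw [Finset.card_erase_of_mem (Finset.mem_univ _), Finset.card_univ, Fintype.card_fin]
    have := j.2
    omega

theorem tr_deg (n q d : ℕ) (b : Fin (q + 1) → ℕ) (hb : ∑ l, b l ≤ d) :
    (∑ j : Fin n, mon (fun i : Fin (q + 1) =>
      (MvPolynomial.X (j, i) : MvPolynomial (Fin n × Fin (q + 1)) ℤ)) b).totalDegree ≤ d := by
  refine MvPolynomial.totalDegree_finsetSum_le fun j _ => ?_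
  unfold mon
  refine (MvPolynomial.totalDegree_finsetProd _ _).trans (le_trans ?_ hb)
  refine Finset.sum_le_sum fun i _ => ?_
  refine (MvPolynomial.totalDegree_pow _ _).trans ?_
  rw [MvPolynomial.totalDegree_X, mul_one]

end Deg

end Pool.Agent.H48.UD
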