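import Pool.Agent.H48.UD.Close
import Pool.Agent.H48.UD.Glob
import Pool.Agent.H48.UD.Adapt
import Pool.Agent.H48.UD.LocDiv
import Pool.Agent.H48.UD.Shift
import Pool.Agent.H48.UD.Poly

/-!
# Project UD, row UD-16: the main inequality
-/

set_option autoImplicit false

open NumberField Module Polynomial Pool.Agent.H52.UB

namespace Pool.Agent.H48.UD

/-- the size of an orbit sum -/
theorem ud16_os_le (k : Type) [Field k] [NumberField k] {n q : ℕ} {H : ℝ}
    (x : Fin n → Fin (q + 1) → Zb k) (hx : Sz k H x) (φ : AlgebraicClosure k →+* ℂ)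
    (α : Fin n → Fin (q + 1) → ℕ) :
    ‖φ ((os α x : Zb k) : AlgebraicClosure k)‖ ≤ (n.factorial : ℝ) * H ^ dg α := by
  have h1 : φ ((os α x : Zb k) : AlgebraicClosure k) =
      ∑ π : Equiv.Perm (Fin n), ∏ j, ∏ i, φ (x (π j) i : AlgebraicClosure k) ^ α j i := by
    have h2 := map_os (φ.comp (algebraMap (Zb k) (AlgebraicClosure k))) α x
    have h3 : (φ.comp (algebraMap (Zb k) (AlgebraicClosure k))) (os α x) =
      φ ((os α x : Zb k) : AlgebraicClosure k) := rfl
    rw [← h3, h2]
    rfl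
  rw [h1]
  refine (norm_sum_le _ _).trans ?_
  have h2 : ∀ π ∈ (Finset.univ : Finset (Equiv.Perm (Fin n))),
      ‖∏ j, ∏ i, φ (x (π j) i : AlgebraicClosure k) ^ α j i‖ ≤ H ^ dg α := by
    intro π _
    rw [norm_prod]
    have h3 : ∀ j : Fin n, ‖∏ i, φ (x (π j) i : AlgebraicClosure k) ^ α j i‖ ≤
        H ^ ∑ i, α j i := by
      intro j
      rw [norm_prod, ← Finset.prod_pow_eq_pow_sum]
      refine Finset.prod_le_prod (fun i _ => norm_nonneg _) fun i _ => ?_
      rw [norm_pow]
      exact pow_le_pow_left₀ (norm_nonneg _) (hx φ (π j) i) _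
    refine (Finset.prod_le_prod (fun j _ => norm_nonneg _) fun j _ => h3 j).trans (le_of_eq ?_)
    rw [Finset.prod_pow_eq_pow_sum]
    rfl
  refine (Finset.sum_le_card_nsmul _ _ _ h2).trans (le_of_eq ?_)
  rw [nsmul_eq_mul, Finset.card_univ, Fintype.card_perm, Fintype.card_fin]

/-- the size of a determinant -/
theorem ud16_det_le {M : ℕ} (B : Matrix (Fin M) (Fin M) ℂ) (r : Fin M → ℝ)
    (h : ∀ i l, ‖B i l‖ ≤ r i) : ‖B.det‖ ≤ (M.factorial : ℝ) * ∏ i, r i := by
  rw [Matrix.det_apply]
  refine (norm_sum_le _ _).trans ?_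
  have h2 : ∀ σ ∈ (Finset.univ : Finset (Equiv.Perm (Fin M))),
      ‖Equiv.Perm.sign σ • ∏ i, B (σ i) i‖ ≤ ∏ i, r i := by
    intro σ _
    have h3 : ‖Equiv.Perm.sign σ • ∏ i, B (σ i) i‖ = ‖∏ i, B (σ i) i‖ := by
      rcases Int.units_eq_one_or (Equiv.Perm.sign σ) with h | h <;> rw [h]
      · rw [one_smul]
      · rw [Units.neg_smul, one_smul, norm_neg]
    rw [h3, norm_prod]
    refine (Finset.prod_le_prod (fun i _ => norm_nonneg _) fun i _ => h (σ i) i).trans
      (le_of_eq ?_)
    exact Equiv.prod_comp σ r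
  refine (Finset.sum_le_card_nsmul _ _ _ h2).trans (le_of_eq ?_)
  rw [nsmul_eq_mul, Finset.card_univ, Fintype.card_perm, Fintype.card_fin]

/-- the value of the generic orbit sum -/
theorem ud16_aeval {A : Type*} [CommRing A] {n q : ℕ} (y : Fin n → Fin (q + 1) → A)
    (α : Fin n → Fin (q + 1) → ℕ) :
    MvPolynomial.aeval (fun ρ : Fin n × Fin (q + 1) => y ρ.1 ρ.2)
      (os α (fun (j : Fin n) (c : Fin (q + 1)) =>
        (MvPolynomial.X (j, c) : MvPolynomial (Fin n × Fin (q + 1)) ℤ))) = os α y := by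
  have h2 := map_os (MvPolynomial.aeval (R := ℤ)
    (fun ρ : Fin n × Fin (q + 1) => y ρ.1 ρ.2)).toRingHom α
    (fun (j : Fin n) (c : Fin (q + 1)) =>
      (MvPolynomial.X (j, c) : MvPolynomial (Fin n × Fin (q + 1)) ℤ))
  refine Eq.trans h2 ?_
  congr 1
  funext j c
  exact MvPolynomial.aeval_X _ _

/-- the divisibility of the determinant by a power of `p` -/
theorem ud16_dvd (k : Type) [Field k] [NumberField k] {n q : ℕ} {H : ℝ} {p : ℕ}
    {V : Set (Fin n → Fin (q + 1) → Zb k)} (hV : PCl k H p V) {M : ℕ} (hM : 0 < M) (A' : ℕ)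
    (s : Fin M → Fin n → Fin (q + 1) → ℕ) (x : Fin M → Fin n → Fin (q + 1) → Zb k)
    (hx : ∀ l, x l ∈ V) :
    (p : Zb k) ^ (∑ a ∈ Finset.range A', (M - hil (im k V) a)) ∣
      (Matrix.of fun i l => os (s i) (x l)).det := by
  classical
  refine glob (p : Zb k) _ _ fun P hP hpP => ?_
  have hPp : P.IsPrime := hP.isPrime
  set x0 := x ⟨0, hM⟩ with hx0
  have hcl : ∀ l, ∃ π : Equiv.Perm (Fin n), ∃ t : Zb k, t ∉ P ∧
      ∀ j i, (p : Zb k) ∣ t * (x l j i - x0 (π j) i) := fun l =>
    close P (p : Zb k) hpP (x l) x0 (hV.cong _ (hx l) _ (hx _)) (hV.cop _ (hx l) P hP hpP)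
      (hV.cop _ (hx _) P hP hpP)
  choose π t ht htd using hcl
  -- the matched orderings
  set y : Fin M → Fin n → Fin (q + 1) → Zb k := fun l j => x l ((π l).symm j) with hy
  have hyV : ∀ l, y l ∈ V := fun l => hV.perm _ (hx l) (π l).symm
  have hos : ∀ i l, os (s i) (y l) = os (s i) (x l) := fun i l => os_perm (s i) (x l) (π l).symm
  obtain ⟨u, hu, hud⟩ := loc_div P (p : Zb k) (J := Fin n × Fin (q + 1))
    (fun i => os (s i) (fun (j : Fin n) (c : Fin (q + 1)) =>
      (MvPolynomial.X (j, c) : MvPolynomial (Fin n × Fin (q + 1)) ℤ)))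
    (fun l ρ => y l ρ.1 ρ.2) (fun ρ => x0 ρ.1 ρ.2)
    (fun l => ⟨t l, ht l, fun ρ => by
      have h1 := htd l ((π l).symm ρ.1) ρ.2
      rw [Equiv.apply_symm_apply] at h1
      exact h1⟩)
    (∑ a ∈ Finset.range A', (M - hil (im k V) a)) (fun α hα => by
      -- the weights
      have h1 := shift_ge (im k V) (fun j c => (x0 j c : AlgebraicClosure k))
        (fun l j c => (y l j c : AlgebraicClosure k)) (fun l => ⟨y l, hyV l, rfl⟩)
        (fun i j c => α i (j, c)) ?_ A'
      · refine h1.trans (le_of_eq ?_)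
        refine Finset.sum_congr rfl fun i _ => ?_
        unfold dg
        rw [Fintype.sum_prod_type]
      · intro h2
        apply hα
        have h3 : algebraMap (Zb k) (AlgebraicClosure k)
            (Matrix.of fun (i l : Fin M) => ∏ ρ : Fin n × Fin (q + 1),
              (y l ρ.1 ρ.2 - x0 ρ.1 ρ.2) ^ α i ρ).det = 0 := by
          rw [RingHom.map_det, ← h2]
          congr 1
          ext i l
          simp only [RingHom.mapMatrix_apply, Matrix.map_apply, Matrix.of_apply, map_prod,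
            map_pow, map_sub]
          unfold mn
          rw [Fintype.prod_prod_type]
          rfl
        exact (FaithfulSMul.algebraMap_injective (Zb k) (AlgebraicClosure k))
          (h3.trans (map_zero _).symm))
  refine ⟨u, hu, ?_⟩
  simp only [ud16_aeval, hos] at hud
  exact hud

theorem ud16_rk_le {F X ι : Type*} [Field F] (Y : Set X) (f : ι → X → F) (w : ι → ℕ) (a : ℕ)
    (hfin : {i | w i ≤ a}.Finite) : rk Y f w a ≤ hfin.toFinset.card := by
  classical
  unfold rk
  have h1 : ((fun i => fun y : Y => f i y) '' {i | w i ≤ a}) =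
      ((hfin.toFinset.image (fun i => fun y : Y => f i y) : Finset (Y → F)) : Set (Y → F)) := by
    rw [Finset.coe_image, Set.Finite.coe_toFinset]
  rw [h1]
  exact (finrank_span_finset_le_card _).trans Finset.card_image_le

theorem star (k : Type) [Field k] [NumberField k] (n q A A' : ℕ) (c c' : ℝ) (hc' : 0 < c')
    (hc : c' < c) : ∃ H0 : ℝ, 1 ≤ H0 ∧ ∀ H : ℝ, H0 ≤ H → ∀ p : ℕ, p.Prime → H ^ c ≤ p →
      ∀ V : Set (Fin n → Fin (q + 1) → Zb k), PCl k H p V → ∀ M : ℕ, M ≤ hinv (im k V) A →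
        c' * ((∑ a ∈ Finset.range A', (M - hil (im k V) a) : ℕ) : ℝ) ≤
          ((∑ a ∈ Finset.range A, (M - hinv (im k V) a) : ℕ) : ℝ) := by
  classical
  have hfin : ∀ a, {α : Fin n → Fin (q + 1) → ℕ | dg α ≤ a}.Finite := finite_dg n (q + 1)
  set K := (hfin A).toFinset.card with hK
  set C : ℝ := (K.factorial : ℝ) * (n.factorial : ℝ) ^ K with hC
  have hC1 : 1 ≤ C := by
    have h1 : (1 : ℝ) ≤ K.factorial := by exact_mod_cast Nat.factorial_pos K
    have h2 : (1 : ℝ) ≤ n.factorial := by exact_mod_cast Nat.factorial_pos n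
    exact one_le_mul_of_one_le_of_one_le h1 (one_le_pow₀ h2)
  have hcc : 0 < c - c' := by linarith
  refine ⟨max 2 (Real.exp (Real.log C / (c - c'))), le_trans (by norm_num) (le_max_left _ _), ?_⟩
  intro H hH p hp hHp V hV M hM
  have hH2 : 2 ≤ H := (le_max_left _ _).trans hH
  have hH0 : 0 < H := by linarith
  have hH1 : 1 ≤ H := by linarith
  have hlogH : 0 < Real.log H := Real.log_pos (by linarith)
  have hlogC : Real.log C ≤ (c - c') * Real.log H := by
    have h1 : Real.log C / (c - c') ≤ Real.log H := by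
      rw [Real.le_log_iff_exp_le hH0]
      exact (le_max_right _ _).trans hH
    rw [div_le_iff₀ hcc] at h1
    linarith
  set Φ := ∑ a ∈ Finset.range A', (M - hil (im k V) a) with hΦ
  set Ψ := ∑ a ∈ Finset.range A, (M - hinv (im k V) a) with hΨ
  rcases Nat.eq_zero_or_pos Φ with h0 | hΦ0
  · rw [h0]
    simp only [Nat.cast_zero, mul_zero]
    exact Nat.cast_nonneg _
  have hM0 : 0 < M := by
    rcases Nat.eq_zero_or_pos M with h | h
    · exfalso
      rw [hΦ, h] at hΦ0
      simp at hΦ0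
    · exact h
  have hMK : M ≤ K := hM.trans (ud16_rk_le _ _ _ _ (hfin A))
  obtain ⟨s, hs, hsw⟩ := exists_adapted (im k V) os dg hfin M A hM
  obtain ⟨y, hyV, hdet⟩ := exists_det_ne (im k V) (fun i => os (s i)) hs
  choose x hx hxy using hyV
  set z : Zb k := (Matrix.of fun i l => os (s i) (x l)).det with hz
  have hzc : (z : AlgebraicClosure k) =
      (Matrix.of fun i l => (os (s i) (y l) : AlgebraicClosure k)).det := by
    have h1 : algebraMap (Zb k) (AlgebraicClosure k) z =
        (Matrix.of fun i l => (os (s i) (y l) : AlgebraicClosure k)).det := by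
      rw [hz, RingHom.map_det]
      congr 1
      ext i l
      simp only [RingHom.mapMatrix_apply, Matrix.map_apply, Matrix.of_apply]
      rw [map_os, ← hxy]
      rfl
    exact h1
  have hz0 : z ≠ 0 := by
    intro h
    apply hdet
    have h1 : (z : AlgebraicClosure k) = 0 := by rw [h]; rfl
    rw [← h1, hzc]
  obtain ⟨w, hw⟩ := ud16_dvd k hV hM0 A' s x hx
  rw [← hz, ← hΦ] at hw
  have hw0 : w ≠ 0 := by
    rintro rfl
    rw [mul_zero] at hw
    exact hz0 hw
  obtain ⟨φ, hφ⟩ := conj_ge k w hw0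
  -- the upper bound
  have hup : ‖φ (z : AlgebraicClosure k)‖ ≤ C * H ^ Ψ := by
    have h1 : φ (z : AlgebraicClosure k) =
        (Matrix.of fun i l => φ ((os (s i) (x l) : Zb k) : AlgebraicClosure k)).det := by
      have h2 : (φ.comp (algebraMap (Zb k) (AlgebraicClosure k))) z =
          (Matrix.of fun i l => φ ((os (s i) (x l) : Zb k) : AlgebraicClosure k)).det := by
        rw [hz, RingHom.map_det]
        rfl
      exact h2
    rw [h1]
    refine (ud16_det_le _ (fun i => (n.factorial : ℝ) * H ^ dg (s i)) fun i l =>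
      ud16_os_le k (x l) (hV.sz _ (hx l)) φ (s i)).trans ?_
    rw [Finset.prod_mul_distrib, Finset.prod_const, Finset.card_univ, Fintype.card_fin,
      Finset.prod_pow_eq_pow_sum, ← mul_assoc]
    have h2 : (M.factorial : ℝ) ≤ K.factorial := by exact_mod_cast Nat.factorial_le hMK
    have h3 : (1 : ℝ) ≤ n.factorial := by exact_mod_cast Nat.factorial_pos n
    have h4 : (n.factorial : ℝ) ^ M ≤ (n.factorial : ℝ) ^ K := pow_le_pow_right₀ h3 hMK
    have h5 : H ^ ∑ i, dg (s i) ≤ H ^ Ψ := pow_le_pow_right₀ hH1 hsw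
    exact mul_le_mul (mul_le_mul h2 h4 (by positivity) (by positivity)) h5 (by positivity)
      (by positivity)
  -- the lower bound
  have hlow : (H ^ c) ^ Φ ≤ ‖φ (z : AlgebraicClosure k)‖ := by
    have h1 : (z : AlgebraicClosure k) = (p : AlgebraicClosure k) ^ Φ *
        (w : AlgebraicClosure k) := by
      rw [hw]
      push_cast
      rfl
    rw [h1, map_mul, map_pow, map_natCast, norm_mul, norm_pow, Complex.norm_natCast]
    have h2 : (H ^ c) ^ Φ ≤ (p : ℝ) ^ Φ := pow_le_pow_left₀ (by positivity) hHp Φ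
    have h3 : (0 : ℝ) ≤ (p : ℝ) ^ Φ := by positivity
    nlinarith
  have hfinal := hlow.trans hup
  have hlog := Real.log_le_log (by positivity) hfinal
  rw [Real.log_pow, Real.log_rpow hH0, Real.log_mul (by linarith) (by positivity),
    Real.log_pow] at hlog
  have hΦ1 : (1 : ℝ) ≤ Φ := by exact_mod_cast hΦ0
  have h6 : (c - c') * Real.log H ≤ (c - c') * Real.log H * Φ :=
    le_mul_of_one_le_right (by positivity) hΦ1
  have h7 : c' * Φ * Real.log H ≤ Ψ * Real.log H := by nlinarith
  exact le_of_mul_le_mul_right h7 hlogH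

end Pool.Agent.H48.UD
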