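import Pool.Agent.H48.UD.Lagr
import Pool.Agent.H48.UD.Growth
import Pool.Agent.H48.UD.ExistsRel
import Pool.Agent.H48.UD.Shift
import Pool.Agent.H48.UD.Star

/-!
# Project UD (MP_a3214d), row UD-17: the relations of a class

The points of a class modulo a prime `p ≥ H ^ c` satisfy so many relations that any `D + 1`
functions of bounded degree are algebraically dependent on the class, if `n ^ n < c ^ (D + 1)`.
-/

set_option autoImplicit false

open NumberField Module Polynomial Pool.Agent.H52.UB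

namespace Pool.Agent.H48.UD

/-- there is a maximal ideal above `p` -/
theorem ud17_maximal (k : Type) [Field k] [NumberField k] (p : ℕ) (hp : p.Prime) :
    ∃ P : Ideal (Zb k), P.IsMaximal ∧ (p : Zb k) ∈ P := by
  have h : ¬ IsUnit ((p : ℕ) : Zb k) := by
    intro hu
    obtain ⟨y, hy⟩ := hu.exists_right_inv
    have hy1 : ((p : ℕ) : AlgebraicClosure k) * (y : AlgebraicClosure k) = 1 := by
      have := congrArg (algebraMap (Zb k) (AlgebraicClosure k)) hy
      rw [map_mul, map_natCast, map_one] at this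
      exact this
    have hp0 : ((p : ℕ) : AlgebraicClosure k) ≠ 0 := by
      intro h0
      rw [h0, zero_mul] at hy1
      exact zero_ne_one hy1
    have hpq : ((p : ℕ) : ℚ) ≠ 0 := by exact_mod_cast hp.ne_zero
    have hy2 : (y : AlgebraicClosure k) = algebraMap ℚ (AlgebraicClosure k) ((p : ℚ)⁻¹) := by
      rw [map_inv₀, map_natCast]
      exact eq_inv_of_mul_eq_one_right hy1
    have hy3 : IsIntegral ℤ (algebraMap ℚ (AlgebraicClosure k) ((p : ℚ)⁻¹)) := by
      rw [← hy2]
      exact y.2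
    have hy4 : IsIntegral ℤ ((p : ℚ)⁻¹) :=
      (isIntegral_algebraMap_iff (algebraMap ℚ (AlgebraicClosure k)).injective).1 hy3
    obtain ⟨z, hz⟩ := IsIntegrallyClosed.isIntegral_iff.1 hy4
    have hz1 : (z : ℚ) * p = 1 := by
      have : (z : ℚ) = (p : ℚ)⁻¹ := hz
      rw [this, inv_mul_cancel₀ hpq]
    have hz2 : z * (p : ℤ) = 1 := by exact_mod_cast hz1
    have hz3 : IsUnit (p : ℤ) := IsUnit.of_mul_eq_one z (by rw [mul_comm]; exact hz2)
    rw [Int.isUnit_iff] at hz3
    have := hp.two_le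
    omega
  obtain ⟨P, hP, hpP⟩ := exists_max_ideal_of_mem_nonunits h
  exact ⟨P, hP, hpP⟩

/-- the Hilbert function is at most the number of monomials -/
theorem ud17_hil_le {F : Type*} [Field F] {n r : ℕ} (Y : Set (Fin n → Fin r → F)) (a : ℕ) :
    hil Y a ≤ (finite_dg n r a).toFinset.card := by
  classical
  unfold hil rk
  have h : (fun α : Fin n → Fin r → ℕ => fun y : Y => mn α (y : Fin n → Fin r → F)) ''
      {α | dg α ≤ a} = (((finite_dg n r a).toFinset.image fun α => fun y : Y =>
        mn α (y : Fin n → Fin r → F) : Finset (Y → F)) : Set (Y → F)) := by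
    rw [Finset.coe_image, Set.Finite.coe_toFinset]
  rw [h]
  exact (finrank_span_finset_le_card _).trans Finset.card_image_le

theorem class_rel (k : Type) [Field k] [NumberField k] {n q : ℕ} (hn : 1 ≤ n) (d D : ℕ) (c : ℝ)
    (hc1 : 1 < c) (hc : (n : ℝ) ^ n < c ^ (D + 1)) : ∃ (e : ℕ) (H0 : ℝ), 1 ≤ H0 ∧
      ∀ H : ℝ, H0 ≤ H → ∀ p : ℕ, p.Prime → H ^ c ≤ p →
      ∀ V : Set (Fin n → Fin (q + 1) → Zb k), PCl k H p V → ∀ (ι : Type)
        (T : ι → MvPolynomial (Fin n × Fin (q + 1)) ℤ), (∀ i, (T i).totalDegree ≤ d) →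
        ∀ B : Finset ι, B.card = D + 1 → RelOn e B ((fun (x : Fin n → Fin (q + 1) → Zb k)
          (i : ι) => ((MvPolynomial.aeval (fun ρ => x ρ.1 ρ.2) (T i) : Zb k) :
            AlgebraicClosure k)) '' V) := by
  classical
  obtain ⟨e, A, c', hc'1, hc'c, hgrow⟩ := exists_e (n ^ n) D d (n * n) c
    (Nat.one_le_pow _ _ hn) hc1 (by exact_mod_cast hc)
    (fun a => (finite_dg n (q + 1) a).toFinset.card)
  obtain ⟨H0, hH0, hstar⟩ := star k n q A (A - n * n) c c' (by linarith) hc'c
  refine ⟨e, H0, hH0, fun H hH p hp hHp V hV ι T hT B hB => ?_⟩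
  have hsep : ∀ x ∈ im k V, Function.Injective fun j => x j 0 := by
    rintro _ ⟨x, hx, rfl⟩
    obtain ⟨P, hP, hpP⟩ := ud17_maximal k p hp
    have hne : dsc x ≠ 0 := by
      intro h0
      have h1 := hV.cop x hx P hP hpP
      rw [h0] at h1
      exact h1 P.zero_mem
    intro j l hjl
    have hjl' : x j 0 = x l 0 := Subtype.ext hjl
    by_contra hne'
    apply hne
    unfold dsc
    refine Finset.prod_eq_zero (Finset.mem_univ j) ?_
    refine Finset.prod_eq_zero (Finset.mem_erase.mpr ⟨fun h => hne' h.symm, Finset.mem_univ l⟩) ?_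
    rw [hjl', sub_self]
  have h1 := hgrow (hil (im k V)) (hinv (im k V))
    (rk_mono _ _ _ (fun a => finite_dg n (q + 1) a))
    (rk_mono _ _ _ (fun a => finite_dg n (q + 1) a))
    (fun a => hil_le (im k V) hsep a)
    (fun a => ud17_hil_le (im k V) a)
    (fun M hM => hstar H hH p hp hHp V hV M hM)
  rw [← hB] at h1
  have h2 := exists_rel (im k V) d
    (fun i => MvPolynomial.map (Int.castRingHom (AlgebraicClosure k)) (T i))
    (fun i => (Finset.sup_mono (MvPolynomial.support_map_subset _ _)).trans (hT i)) e B h1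
  have h3 : (fun (x : Fin n → Fin (q + 1) → AlgebraicClosure k) (i : ι) =>
      MvPolynomial.eval (fun ρ : Fin n × Fin (q + 1) => x ρ.1 ρ.2)
        (MvPolynomial.map (Int.castRingHom (AlgebraicClosure k)) (T i))) '' im k V =
      (fun (x : Fin n → Fin (q + 1) → Zb k)
          (i : ι) => ((MvPolynomial.aeval (fun ρ => x ρ.1 ρ.2) (T i) : Zb k) :
            AlgebraicClosure k)) '' V := by
    unfold im
    rw [Set.image_image]
    refine Set.image_congr fun x _ => ?_
    funext i
    rw [MvPolynomial.eval_map]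
    have h4 : ((MvPolynomial.aeval (fun ρ : Fin n × Fin (q + 1) => x ρ.1 ρ.2) (T i) : Zb k) :
        AlgebraicClosure k) = algebraMap (Zb k) (AlgebraicClosure k)
        (MvPolynomial.aeval (fun ρ : Fin n × Fin (q + 1) => x ρ.1 ρ.2) (T i)) := rfl
    rw [h4, MvPolynomial.aeval_def, MvPolynomial.hom_eval₂]
    congr 1
  rw [h3] at h2
  exact h2

end Pool.Agent.H48.UD
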