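import Pool.Agent.H48.UD.Defs

/-!
# Project UD (MP_a3214d), row UD-2

Two points whose coefficients are congruent modulo `p` are congruent modulo `p`, locally at a prime
`P` over `p` which does not contain the discriminants, after a permutation of the places.
-/

set_option autoImplicit false

open NumberField Module Polynomial Pool.Agent.H52.UB

namespace Pool.Agent.H48.UD

/-- a Lagrange type sum -/
noncomputable def ud2_L {A : Type*} [CommRing A] {n : ℕ} (r a : Fin n → A) : A[X] :=
  ∑ j, C (a j) * ∏ l ∈ Finset.univ.erase j, (X - C (r l))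

theorem ud2_L_eval {A : Type*} [CommRing A] {n : ℕ} (r a : Fin n → A) (j : Fin n) :
    (ud2_L r a).eval (r j) = a j * ∏ l ∈ Finset.univ.erase j, (r j - r l) := by
  unfold ud2_L
  rw [eval_finsetSum, Finset.sum_eq_single j]
  · simp [eval_prod]
  · intro l _ hl
    rw [eval_mul, eval_prod]
    refine mul_eq_zero_of_right _ (Finset.prod_eq_zero (Finset.mem_erase.2 ⟨hl.symm,
      Finset.mem_univ j⟩) ?_)
    simp
  · intro hj
    exact absurd (Finset.mem_univ j) hj

theorem ud2_deriv {A : Type*} [CommRing A] {n : ℕ} (r : Fin n → A) :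
    derivative (∏ j, (X - C (r j)) : A[X]) = ud2_L r (fun _ => 1) := by
  unfold ud2_L
  rw [derivative_prod_finset]
  refine Finset.sum_congr rfl fun j _ => ?_
  simp

theorem ud2_L_coeff {A : Type*} [CommRing A] [Nontrivial A] {n : ℕ} (r a : Fin n → A) {m : ℕ}
    (hm : n ≤ m) : (ud2_L r a).coeff m = 0 := by
  unfold ud2_L
  rw [finsetSum_coeff]
  refine Finset.sum_eq_zero fun j _ => ?_
  rw [coeff_C_mul]
  refine mul_eq_zero_of_right _ (coeff_eq_zero_of_natDegree_lt (lt_of_lt_of_le ?_ hm))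
  refine lt_of_le_of_lt (natDegree_prod_le _ _) ?_
  simp only [natDegree_X_sub_C, Finset.sum_const, smul_eq_mul, mul_one,
    Finset.card_erase_of_mem (Finset.mem_univ j), Finset.card_univ, Fintype.card_fin]
  have := j.pos
  omega

theorem ud2_fP_coeff {A : Type*} [CommRing A] [Nontrivial A] {n : ℕ} (r : Fin n → A) {m : ℕ}
    (hm : n ≤ m) : (∏ j, (X - C (r j)) : A[X]).coeff m = if m = n then 1 else 0 := by
  have hmon : (∏ j, (X - C (r j)) : A[X]).Monic :=
    monic_prod_of_monic _ _ fun j _ => monic_X_sub_C (r j)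
  have hdeg : (∏ j, (X - C (r j)) : A[X]).natDegree = n := by
    rw [natDegree_prod_of_monic _ _ fun j _ => monic_X_sub_C (r j)]
    simp
  split_ifs with h
  · subst h
    have := hmon.coeff_natDegree
    rwa [hdeg] at this
  · refine coeff_eq_zero_of_natDegree_lt ?_
    rw [hdeg]
    omega

/-- congruent polynomials have congruent values -/
theorem ud2_eval_dvd {A : Type*} [CommRing A] {p : A} {F G : A[X]} (h : C p ∣ F - G) (t : A) :
    p ∣ F.eval t - G.eval t := by
  obtain ⟨Q, hQ⟩ := h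
  refine ⟨Q.eval t, ?_⟩
  rw [← eval_sub, hQ, eval_mul, eval_C]

/-- congruent polynomials have congruent derivatives -/
theorem ud2_deriv_dvd {A : Type*} [CommRing A] {p : A} {F G : A[X]} (h : C p ∣ F - G) :
    C p ∣ derivative F - derivative G := by
  obtain ⟨Q, hQ⟩ := h
  refine ⟨derivative Q, ?_⟩
  rw [← derivative_sub, hQ, derivative_C_mul]

theorem ud2_fP_dvd {A : Type*} [CommRing A] [Nontrivial A] {n q : ℕ} {p : A}
    {x x' : Fin n → Fin (q + 1) → A} (hF : ∀ ρ, p ∣ cf x ρ - cf x' ρ) : C p ∣ fP x - fP x' := by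
  rw [C_dvd_iff_dvd_coeff]
  intro m
  rw [coeff_sub]
  rcases lt_or_ge m n with hm | hm
  · have := hF (0, ⟨m, hm⟩)
    simpa [cf] using this
  · unfold fP
    rw [ud2_fP_coeff _ hm, ud2_fP_coeff _ hm, sub_self]
    exact dvd_zero p

theorem ud2_gP_dvd {A : Type*} [CommRing A] [Nontrivial A] {n q : ℕ} {p : A}
    {x x' : Fin n → Fin (q + 1) → A} (hF : ∀ ρ, p ∣ cf x ρ - cf x' ρ) {i : Fin (q + 1)}
    (hi : i ≠ 0) : C p ∣ gP x i - gP x' i := by
  rw [C_dvd_iff_dvd_coeff]
  intro m
  rw [coeff_sub]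
  rcases lt_or_ge m n with hm | hm
  · have := hF (i, ⟨m, hm⟩)
    simpa [cf, hi] using this
  · have h1 : (gP x i).coeff m = 0 := ud2_L_coeff (fun l => x l 0) (fun j => x j i) hm
    have h2 : (gP x' i).coeff m = 0 := ud2_L_coeff (fun l => x' l 0) (fun j => x' j i) hm
    rw [h1, h2, sub_self]
    exact dvd_zero p

theorem ud2_diff {A : Type*} [CommRing A] {n q : ℕ} (P : Ideal A)
    {x : Fin n → Fin (q + 1) → A} (h : dsc x ∉ P) {j l : Fin n} (hjl : l ≠ j) :
    x j 0 - x l 0 ∉ P := by
  intro hmem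
  apply h
  unfold dsc
  refine P.mem_of_dvd ((Finset.dvd_prod_of_mem (fun l => x j 0 - x l 0)
    (Finset.mem_erase.2 ⟨hjl, Finset.mem_univ l⟩)).trans ?_) hmem
  exact Finset.dvd_prod_of_mem (fun j => ∏ l ∈ Finset.univ.erase j, (x j 0 - x l 0))
    (Finset.mem_univ j)

theorem ud2_der_not_mem {A : Type*} [CommRing A] {n q : ℕ} (P : Ideal A)
    {x : Fin n → Fin (q + 1) → A} (h : dsc x ∉ P) (j : Fin n) :
    ∏ l ∈ Finset.univ.erase j, (x j 0 - x l 0) ∉ P := by
  intro hmem
  apply h
  unfold dsc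
  exact P.mem_of_dvd (Finset.dvd_prod_of_mem (fun j => ∏ l ∈ Finset.univ.erase j, (x j 0 - x l 0))
    (Finset.mem_univ j)) hmem

theorem close {A : Type*} [CommRing A] [IsDomain A] {n q : ℕ} (P : Ideal A) [P.IsPrime] (p : A)
    (hp : p ∈ P) (x x' : Fin n → Fin (q + 1) → A) (hF : ∀ ρ, p ∣ cf x ρ - cf x' ρ)
    (h : dsc x ∉ P) (h' : dsc x' ∉ P) :
    ∃ π : Equiv.Perm (Fin n), ∃ s : A, s ∉ P ∧ ∀ j i, p ∣ s * (x j i - x' (π j) i) := by
  classical
  -- the product of the differences is divisible by `p`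
  have hprod : ∀ j, p ∣ ∏ l, (x j 0 - x' l 0) := by
    intro j
    have h1 := ud2_eval_dvd (ud2_fP_dvd hF) (x j 0)
    have h2 : (fP x).eval (x j 0) = 0 := by
      unfold fP
      rw [eval_prod]
      exact Finset.prod_eq_zero (Finset.mem_univ j) (by simp)
    have h3 : (fP x').eval (x j 0) = ∏ l, (x j 0 - x' l 0) := by
      unfold fP
      rw [eval_prod]
      simp
    rw [h2, h3, zero_sub, dvd_neg] at h1
    exact h1
  have hex : ∀ j, ∃ l, x j 0 - x' l 0 ∈ P := by
    intro j
    have h1 : ∏ l, (x j 0 - x' l 0) ∈ P := P.mem_of_dvd (hprod j) hp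
    obtain ⟨l, _, hl⟩ := (Ideal.IsPrime.prod_mem_iff (p := P)).1 h1
    exact ⟨l, hl⟩
  choose π0 hπ0 using hex
  have hinj : Function.Injective π0 := by
    intro j j' hjj
    by_contra hne
    have h1 := hπ0 j
    have h2 := hπ0 j'
    rw [← hjj] at h2
    have h3 := P.sub_mem h1 h2
    rw [sub_sub_sub_cancel_right] at h3
    exact ud2_diff P h (Ne.symm hne) h3
  have hbij : Function.Bijective π0 := Finite.injective_iff_bijective.1 hinj
  refine ⟨Equiv.ofBijective π0 hbij, ?_⟩
  have hs : ∀ j, ∃ s : A, s ∉ P ∧ ∀ i, p ∣ s * (x j i - x' (π0 j) i) := by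
    intro j
    set u := ∏ l ∈ Finset.univ.erase (π0 j), (x j 0 - x' l 0) with hu
    set Da := ∏ l ∈ Finset.univ.erase j, (x j 0 - x l 0) with hDa
    set Db := ∏ l ∈ Finset.univ.erase (π0 j), (x' (π0 j) 0 - x' l 0) with hDb
    have huP : u ∉ P := by
      intro hmem
      obtain ⟨l, hl, hlP⟩ := (Ideal.IsPrime.prod_mem_iff (p := P)).1 hmem
      have h3 := P.sub_mem hlP (hπ0 j)
      rw [sub_sub_sub_cancel_left] at h3
      exact ud2_diff P h' (Finset.ne_of_mem_erase hl) h3
    have hDaP : Da ∉ P := ud2_der_not_mem P h j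
    have hDbP : Db ∉ P := ud2_der_not_mem P h' (π0 j)
    have hu0 : p ∣ u * (x j 0 - x' (π0 j) 0) := by
      have h1 := hprod j
      rw [← Finset.mul_prod_erase Finset.univ _ (Finset.mem_univ (π0 j)), mul_comm] at h1
      exact h1
    refine ⟨u * (Da * Db), ?_, ?_⟩
    · intro hmem
      rcases (Ideal.IsPrime.mem_or_mem ‹P.IsPrime› hmem) with h1 | h1
      · exact huP h1
      rcases (Ideal.IsPrime.mem_or_mem ‹P.IsPrime› h1) with h2 | h2
      · exact hDaP h2
      · exact hDbP h2
    · intro i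
      rcases eq_or_ne i 0 with rfl | hi
      · have h1 := Dvd.dvd.mul_left hu0 (Da * Db)
        convert h1 using 1
        ring
      · set a := x j 0 with ha
        set b := x' (π0 j) 0 with hb
        set D := derivative (fP x) with hD
        set D' := derivative (fP x') with hD'
        have eDa : D.eval a = Da := by
          have := ud2_L_eval (fun l => x l 0) (fun _ => 1) j
          rw [one_mul] at this
          rw [hD, hDa]
          unfold fP
          rw [ud2_deriv (fun l => x l 0)]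
          exact this
        have eDb : D'.eval b = Db := by
          have := ud2_L_eval (fun l => x' l 0) (fun _ => 1) (π0 j)
          rw [one_mul] at this
          rw [hD', hDb]
          unfold fP
          rw [ud2_deriv (fun l => x' l 0)]
          exact this
        have ega : (gP x i).eval a = x j i * Da := ud2_L_eval (fun l => x l 0) (fun l => x l i) j
        have egb : (gP x' i).eval b = x' (π0 j) i * Db :=
          ud2_L_eval (fun l => x' l 0) (fun l => x' l i) (π0 j)
        have c1 : p ∣ D.eval b - D'.eval b := ud2_eval_dvd (ud2_deriv_dvd (ud2_fP_dvd hF)) b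
        have c2 : p ∣ (gP x i).eval b - (gP x' i).eval b := ud2_eval_dvd (ud2_gP_dvd hF hi) b
        have c3 : a - b ∣ (gP x i).eval a - (gP x i).eval b := sub_dvd_eval_sub a b (gP x i)
        have c4 : a - b ∣ D.eval a - D.eval b := sub_dvd_eval_sub a b D
        obtain ⟨r1, hr1⟩ := c1
        obtain ⟨r2, hr2⟩ := c2
        obtain ⟨r3, hr3⟩ := c3
        obtain ⟨r4, hr4⟩ := c4
        obtain ⟨r0, hr0⟩ := hu0
        rw [eDb] at hr1
        rw [egb] at hr2
        rw [ega] at hr3
        rw [eDa] at hr4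
        refine ⟨r0 * (Db * r3 - r4 * (gP x i).eval b) + u * (Da * r2 - r1 * (gP x i).eval b), ?_⟩
        linear_combination (u * Db) * hr3 + (u * Da) * hr2 - (u * (gP x i).eval b) * (hr4 + hr1)
          + (Db * r3 - (gP x i).eval b * r4) * hr0
  choose s hs1 hs2 using hs
  refine ⟨∏ j, s j, ?_, ?_⟩
  · intro hmem
    obtain ⟨j, _, hj⟩ := (Ideal.IsPrime.prod_mem_iff (p := P)).1 hmem
    exact hs1 j hj
  · intro j i
    have h1 : s j ∣ ∏ j, s j := Finset.dvd_prod_of_mem s (Finset.mem_univ j)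
    exact (hs2 j i).trans (mul_dvd_mul_right h1 _)

end Pool.Agent.H48.UD
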