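import Pool.Agent.H52.UB.Defs2

/-!
# Project UD (MP_a3214d): definitions

Upper bound for the number of all extensions of degree `n` of a number field, with exponent
`(1 + o(1)) (log n / log log n)^2`. Points (`n` places, `r` coordinates), monomials and orbit sums
on sets of points, Hilbert functions, congruence classes of points.
-/

set_option autoImplicit false

open NumberField Module Polynomial Pool.Agent.H52.UB

namespace Pool.Agent.H48.UD

/-- the total degree of an exponent matrix -/
def dg {n r : ℕ} (α : Fin n → Fin r → ℕ) : ℕ := ∑ j, ∑ i, α j i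

/-- the monomial with the exponent matrix `α` -/
def mn {F : Type*} [CommSemiring F] {n r : ℕ} (α : Fin n → Fin r → ℕ) (x : Fin n → Fin r → F) :
    F :=
  ∏ j, ∏ i, x j i ^ α j i

/-- the orbit sum of the monomial with the exponent matrix `α` -/
def os {F : Type*} [CommSemiring F] {n r : ℕ} (α : Fin n → Fin r → ℕ) (x : Fin n → Fin r → F) :
    F :=
  ∑ π : Equiv.Perm (Fin n), mn α (fun j => x (π j))

/-- The dimension of the space of the functions on `Y` spanned by the `f i` with `w i ≤ a`. -/
noncomputable def rk {F X ι : Type*} [Field F] (Y : Set X) (f : ι → X → F) (w : ι → ℕ) (a : ℕ) :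
    ℕ :=
  finrank F (Submodule.span F ((fun i => fun y : Y => f i y) '' {i | w i ≤ a}))

/-- the Hilbert function of `Y`: the dimension of the polynomials of degree at most `a` on `Y` -/
noncomputable def hil {F : Type*} [Field F] {n r : ℕ} (Y : Set (Fin n → Fin r → F)) (a : ℕ) : ℕ :=
  rk Y mn dg a

/-- the same for the polynomials which are invariant under the permutations of the places -/
noncomputable def hinv {F : Type*} [Field F] {n r : ℕ} (Y : Set (Fin n → Fin r → F)) (a : ℕ) :
    ℕ :=
  rk Y os dg a

section Cf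

variable {A : Type*} [CommRing A] {n q : ℕ}

/-- the polynomial with the roots `x j 0` -/
noncomputable def fP (x : Fin n → Fin (q + 1) → A) : A[X] := ∏ j, (X - C (x j 0))

/-- the Lagrange polynomial of the `i`-th coordinates (times the derivative of `fP`) -/
noncomputable def gP (x : Fin n → Fin (q + 1) → A) (i : Fin (q + 1)) : A[X] :=
  ∑ j, C (x j i) * ∏ l ∈ Finset.univ.erase j, (X - C (x l 0))

/-- the `(q + 1) n` coefficients of a point -/
noncomputable def cf (x : Fin n → Fin (q + 1) → A) (ρ : Fin (q + 1) × Fin n) : A :=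
  if ρ.1 = 0 then (fP x).coeff ρ.2 else (gP x ρ.1).coeff ρ.2

/-- the discriminant of `fP` -/
def dsc (x : Fin n → Fin (q + 1) → A) : A :=
  ∏ j, ∏ l ∈ Finset.univ.erase j, (x j 0 - x l 0)

end Cf

/-- There is a nonzero polynomial in the variables of `B`, of degree at most `e` in every variable,
which vanishes on `V`. -/
def RelOn {F ι : Type*} [Field F] (e : ℕ) (B : Finset ι) (V : Set (ι → F)) : Prop :=
  ∃ Q : MvPolynomial ι F, Q ≠ 0 ∧ Q.vars ⊆ B ∧ (∀ i, Q.degreeOf i ≤ e) ∧
    ∀ v ∈ V, MvPolynomial.eval v Q = 0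

section Pt

variable (k : Type) [Field k] [NumberField k] {n q : ℕ}

/-- A point: a Galois stable family of vectors of algebraic integers, separated by the coordinate
`0`. -/
structure IsPt (x : Fin n → Fin (q + 1) → Zb k) : Prop where
  sym : ∀ σ : AlgebraicClosure k ≃ₐ[k] AlgebraicClosure k, ∃ π : Equiv.Perm (Fin n), ∀ j i,
    σ (x j i : AlgebraicClosure k) = (x (π j) i : AlgebraicClosure k)
  sep : Function.Injective fun j => x j 0

/-- all conjugates of the coordinates have size at most `H` -/
def Sz (H : ℝ) (x : Fin n → Fin (q + 1) → Zb k) : Prop :=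
  ∀ (φ : AlgebraicClosure k →+* ℂ) (j : Fin n) (i : Fin (q + 1)),
    ‖φ (x j i : AlgebraicClosure k)‖ ≤ H

/-- `z` is in no maximal ideal above `p` -/
def Cop (p : ℕ) (z : Zb k) : Prop := ∀ P : Ideal (Zb k), P.IsMaximal → (p : Zb k) ∈ P → z ∉ P

/-- A set of points which are congruent modulo `p`, separated modulo `p`, of size at most `H`,
closed under the permutations of the places. -/
structure PCl (H : ℝ) (p : ℕ) (V : Set (Fin n → Fin (q + 1) → Zb k)) : Prop where
  sz : ∀ x ∈ V, Sz k H x
  cop : ∀ x ∈ V, Cop k p (dsc x)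
  cong : ∀ x ∈ V, ∀ x' ∈ V, ∀ ρ, (p : Zb k) ∣ cf x ρ - cf x' ρ
  perm : ∀ x ∈ V, ∀ π : Equiv.Perm (Fin n), (fun j => x (π j)) ∈ V

/-- the set `V` as a set of points over the algebraic closure -/
def im (V : Set (Fin n → Fin (q + 1) → Zb k)) :
    Set (Fin n → Fin (q + 1) → AlgebraicClosure k) :=
  (fun x j i => (x j i : AlgebraicClosure k)) '' V

end Pt

end Pool.Agent.H48.UD
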