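import Pool.Agent.H48.UD.Defs

/-!
# Project UD, row UD-11: the few values lemma
-/

set_option autoImplicit false

open NumberField Module Polynomial

namespace Pool.Agent.H48.UD

section

variable {F ι : Type*} [Field F]

theorem ud11_mono {e : ℕ} {B B' : Finset ι} {V : Set (ι → F)} (h : RelOn e B V) (hB : B ⊆ B') :
    RelOn e B' V := by
  obtain ⟨Q, h1, h2, h3, h4⟩ := h
  exact ⟨Q, h1, fun i hi => hB (h2 hi), h3, h4⟩

theorem ud11_anti {e : ℕ} {B : Finset ι} {V V' : Set (ι → F)} (h : RelOn e B V) (hV : V' ⊆ V) :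
    RelOn e B V' := by
  obtain ⟨Q, h1, h2, h3, h4⟩ := h
  exact ⟨Q, h1, h2, h3, fun v hv => h4 v (hV hv)⟩

theorem ud11_empty {e : ℕ} {V : Set (ι → F)} (h : RelOn e ∅ V) : V = ∅ := by
  obtain ⟨Q, h1, h2, h3, h4⟩ := h
  by_contra hV
  obtain ⟨v, hv⟩ := Set.nonempty_iff_ne_empty.mpr hV
  have h5 : Q.vars = ∅ := by simpa using h2
  rw [MvPolynomial.vars_eq_empty_iff_eq_C] at h5
  have h6 := h4 v hv
  rw [h5, MvPolynomial.eval_C] at h6
  rw [h6] at h5
  exact h1 (by rw [h5, MvPolynomial.C_0])

variable [Fintype ι] [DecidableEq ι]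

/-- the polynomial in the variable `b`, all other variables are specialised to `v` -/
noncomputable def ud11_sp (Q : MvPolynomial ι F) (b : ι) (v : ι → F) : F[X] :=
  MvPolynomial.aeval (fun i => if i = b then (X : F[X]) else C (v i)) Q

theorem ud11_eval (Q : MvPolynomial ι F) (b : ι) (v : ι → F) :
    (ud11_sp Q b v).eval (v b) = MvPolynomial.eval v Q := by
  rw [ud11_sp]
  have h1 : ((Polynomial.aeval (v b) : F[X] →ₐ[F] F).comp
      (MvPolynomial.aeval (fun i => if i = b then (X : F[X]) else C (v i)))) =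
      MvPolynomial.aeval v := by
    apply MvPolynomial.algHom_ext
    intro i
    simp only [AlgHom.comp_apply, MvPolynomial.aeval_X]
    by_cases hi : i = b
    · simp [hi]
    · simp [hi]
  have h2 := congrArg (fun φ : MvPolynomial ι F →ₐ[F] F => φ Q) h1
  simp only [AlgHom.comp_apply] at h2
  rw [← Polynomial.coe_aeval_eq_eval]
  rw [h2, MvPolynomial.aeval_eq_eval]

theorem ud11_congr (Q : MvPolynomial ι F) (b : ι) (v v' : ι → F)
    (h : ∀ i ∈ Q.vars, i ≠ b → v i = v' i) : ud11_sp Q b v = ud11_sp Q b v' := by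
  rw [ud11_sp, ud11_sp, MvPolynomial.aeval_def, MvPolynomial.aeval_def]
  apply MvPolynomial.eval₂Hom_congr' rfl _ rfl
  intro i hi _
  by_cases hib : i = b
  · simp [hib]
  · simp [hib, h i hi hib]

theorem ud11_sp_eq (Q : MvPolynomial ι F) (b : ι) (v : ι → F) :
    ud11_sp Q b v = ∑ m ∈ Q.support, C (Q.coeff m * ∏ i ∈ Finset.univ.erase b, v i ^ m i) *
      X ^ (m b) := by
  rw [ud11_sp, MvPolynomial.aeval_def, MvPolynomial.eval₂_eq']
  refine Finset.sum_congr rfl fun m _ => ?_
  rw [← Finset.mul_prod_erase Finset.univ _ (Finset.mem_univ b)]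
  have h1 : ∏ i ∈ Finset.univ.erase b, (if i = b then (X : F[X]) else C (v i)) ^ m i =
      C (∏ i ∈ Finset.univ.erase b, v i ^ m i) := by
    rw [map_prod]
    refine Finset.prod_congr rfl fun i hi => ?_
    rw [if_neg (Finset.ne_of_mem_erase hi), map_pow]
  rw [h1, if_pos rfl, C_mul, Polynomial.algebraMap_eq]
  ring

theorem ud11_deg (Q : MvPolynomial ι F) (b : ι) (v : ι → F) :
    (ud11_sp Q b v).natDegree ≤ Q.degreeOf b := by
  rw [ud11_sp_eq]
  refine Polynomial.natDegree_sum_le_of_forall_le _ _ fun m hm => ?_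
  refine (Polynomial.natDegree_C_mul_X_pow_le _ _).trans ?_
  exact MvPolynomial.monomial_le_degreeOf b hm

/-- the coefficient of `X ^ k` -/
noncomputable def ud11_co (Q : MvPolynomial ι F) (b : ι) (k : ℕ) : MvPolynomial ι F :=
  ∑ m ∈ Q.support.filter (fun m => m b = k), MvPolynomial.monomial (m.erase b) (Q.coeff m)

theorem ud11_co_eval (Q : MvPolynomial ι F) (b : ι) (k : ℕ) (v : ι → F) :
    MvPolynomial.eval v (ud11_co Q b k) = (ud11_sp Q b v).coeff k := by
  rw [ud11_sp_eq, ud11_co, map_sum, Polynomial.finsetSum_coeff, Finset.sum_filter]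
  refine Finset.sum_congr rfl fun m _ => ?_
  rw [Polynomial.coeff_C_mul, Polynomial.coeff_X_pow]
  by_cases h : m b = k
  · rw [if_pos h, if_pos h.symm, mul_one, MvPolynomial.eval_monomial]
    congr 1
    rw [Finsupp.prod_fintype _ _ (fun i => pow_zero _)]
    rw [← Finset.mul_prod_erase Finset.univ _ (Finset.mem_univ b)]
    rw [Finsupp.erase_same, pow_zero, one_mul]
    refine Finset.prod_congr rfl fun i hi => ?_
    rw [Finsupp.erase_ne (Finset.ne_of_mem_erase hi)]
  · rw [if_neg h, if_neg (Ne.symm h), mul_zero]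

theorem ud11_co_supp (Q : MvPolynomial ι F) (b : ι) (k : ℕ) {n : ι →₀ ℕ}
    (hn : n ∈ (ud11_co Q b k).support) : ∃ m ∈ Q.support, m b = k ∧ n = m.erase b := by
  have h1 := MvPolynomial.support_sum hn
  rw [Finset.mem_biUnion] at h1
  obtain ⟨m, hm, h2⟩ := h1
  rw [Finset.mem_filter] at hm
  have h3 := MvPolynomial.support_monomial_subset h2
  rw [Finset.mem_singleton] at h3
  exact ⟨m, hm.1, hm.2, h3⟩

theorem ud11_co_ne (Q : MvPolynomial ι F) (b : ι) {m0 : ι →₀ ℕ} (hm : m0 ∈ Q.support) :
    ud11_co Q b (m0 b) ≠ 0 := by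
  intro h
  have h1 : (ud11_co Q b (m0 b)).coeff (m0.erase b) = Q.coeff m0 := by
    rw [ud11_co, MvPolynomial.coeff_sum]
    rw [Finset.sum_eq_single m0]
    · rw [MvPolynomial.coeff_monomial, if_pos rfl]
    · intro m hm' hne
      rw [Finset.mem_filter] at hm'
      rw [MvPolynomial.coeff_monomial, if_neg]
      intro h2
      apply hne
      ext i
      by_cases hi : i = b
      · rw [hi, hm'.2]
      · have h3 := DFunLike.congr_fun h2 i
        rwa [Finsupp.erase_ne hi, Finsupp.erase_ne hi] at h3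
    · intro h2
      have h3 : m0 ∈ Q.support.filter (fun m => m b = m0 b) := Finset.mem_filter.mpr ⟨hm, rfl⟩
      exact absurd h3 h2
  rw [h, MvPolynomial.coeff_zero] at h1
  exact (MvPolynomial.mem_support_iff.mp hm) h1.symm

theorem ud11_rel {e : ℕ} {B : Finset ι} {b : ι} {Q : MvPolynomial ι F} (hQ : Q ≠ 0)
    (hv : Q.vars ⊆ insert b B) (hd : ∀ i, Q.degreeOf i ≤ e) (V : Set (ι → F))
    (hV : ∀ v ∈ V, ud11_sp Q b v = 0) : RelOn e B V := by
  obtain ⟨m0, hm0⟩ : Q.support.Nonempty := MvPolynomial.support_nonempty.mpr hQ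
  refine ⟨ud11_co Q b (m0 b), ud11_co_ne Q b hm0, ?_, ?_, ?_⟩
  · intro i hi
    rw [MvPolynomial.mem_vars_iff_mem_support] at hi
    obtain ⟨n, hn, hi⟩ := hi
    obtain ⟨m, hm, -, rfl⟩ := ud11_co_supp Q b _ hn
    rw [Finsupp.support_erase, Finset.mem_erase] at hi
    have h1 : i ∈ Q.vars := (MvPolynomial.mem_vars_iff_mem_support i).mpr ⟨m, hm, hi.2⟩
    have h2 := hv h1
    rw [Finset.mem_insert] at h2
    exact h2.resolve_left hi.1
  · intro i
    rw [MvPolynomial.degreeOf_le_iff]
    intro n hn
    obtain ⟨m, hm, -, rfl⟩ := ud11_co_supp Q b _ hn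
    have h1 : m i ≤ e := (MvPolynomial.monomial_le_degreeOf i hm).trans (hd i)
    by_cases hi : i = b
    · rw [hi, Finsupp.erase_same]
      exact Nat.zero_le _
    · rw [Finsupp.erase_ne hi]
      exact h1
  · intro v hv'
    rw [ud11_co_eval, hV v hv', Polynomial.coeff_zero]

end

/-- the constants of the induction -/
def ud11_C (q e : ℕ) : ℕ → ℕ
  | 0 => 0
  | j + 1 => (e + 1) ^ q + q * ud11_C q e j

open scoped Classical in
theorem ud11_main {F : Type} [Field F] {ι : Type} [Fintype ι] (D e : ℕ) (N : ι → ℕ)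
    (hN : ∀ i, 1 ≤ N i) (P : ℕ) (hP : ∀ B : Finset ι, B.card ≤ D → ∏ i ∈ B, N i ≤ P) (j : ℕ) :
    ∀ V : Set (ι → F), (Finset.univ.filter fun B : Finset ι => ¬ RelOn e B V).card ≤ j →
      (∀ B : Finset ι, B.card = D + 1 → RelOn e B V) →
      (∀ i, ((fun v : ι → F => v i) '' V).Finite ∧ ((fun v : ι → F => v i) '' V).ncard ≤ N i) →
      V.Finite ∧ V.ncard ≤ ud11_C (Fintype.card ι) e j * P := by
  induction j with
  | zero =>
    intro V h1 _ _
    have h2 : RelOn e ∅ V := by
      by_contra h3
      have h4 : (∅ : Finset ι) ∈ Finset.univ.filter fun B : Finset ι => ¬ RelOn e B V :=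
        Finset.mem_filter.mpr ⟨Finset.mem_univ _, h3⟩
      have h5 := Finset.card_pos.mpr ⟨_, h4⟩
      omega
    rw [ud11_empty h2]
    exact ⟨Set.finite_empty, by simp⟩
  | succ j ih =>
    intro V h1 hD hfin
    by_cases hVe : V = ∅
    · rw [hVe]
      exact ⟨Set.finite_empty, by simp⟩
    -- a maximal set without relation
    have hne : (Finset.univ.filter fun B : Finset ι => ¬ RelOn e B V).Nonempty :=
      ⟨∅, Finset.mem_filter.mpr ⟨Finset.mem_univ _, fun h => hVe (ud11_empty h)⟩⟩
    obtain ⟨B, hB, hmax⟩ := Finset.exists_max_image _ Finset.card hne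
    have hB1 : ¬ RelOn e B V := (Finset.mem_filter.mp hB).2
    have hBD : B.card ≤ D := by
      by_contra h
      obtain ⟨B', hB', hc⟩ := Finset.exists_subset_card_eq (s := B) (n := D + 1) (by omega)
      exact hB1 (ud11_mono (hD B' hc) hB')
    have hQ : ∀ b, ∃ Q : MvPolynomial ι F, b ∉ B → Q ≠ 0 ∧ Q.vars ⊆ insert b B ∧
        (∀ i, Q.degreeOf i ≤ e) ∧ ∀ v ∈ V, MvPolynomial.eval v Q = 0 := by
      intro b
      by_cases hb : b ∈ B
      · exact ⟨0, fun h => absurd hb h⟩
      have h2 : RelOn e (insert b B) V := by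
        by_contra h3
        have h4 := hmax (insert b B) (Finset.mem_filter.mpr ⟨Finset.mem_univ _, h3⟩)
        rw [Finset.card_insert_of_notMem hb] at h4
        omega
      obtain ⟨Q, h5, h6, h7, h8⟩ := h2
      exact ⟨Q, fun _ => ⟨h5, h6, h7, h8⟩⟩
    choose Q hQ using hQ
    -- the exceptional sets
    let Vb : ι → Set (ι → F) := fun b => {v | v ∈ V ∧ b ∉ B ∧ ud11_sp (Q b) b v = 0}
    have hVb : ∀ b, Vb b ⊆ V := fun b v hv => hv.1
    have hVb2 : ∀ b, (Vb b).Finite ∧ (Vb b).ncard ≤ ud11_C (Fintype.card ι) e j * P := by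
      intro b
      by_cases hb : b ∈ B
      · have h2 : Vb b = ∅ := by
          ext v
          simp only [Vb, Set.mem_ofPred_eq, Set.mem_empty_iff_false, iff_false]
          rintro ⟨-, h3, -⟩
          exact h3 hb
        rw [h2]
        exact ⟨Set.finite_empty, by simp⟩
      · apply ih
        · have h2 : (Finset.univ.filter fun B' : Finset ι => ¬ RelOn e B' (Vb b)) ⊂
              Finset.univ.filter fun B' : Finset ι => ¬ RelOn e B' V := by
            rw [Finset.ssubset_iff_of_subset]
            · refine ⟨B, hB, ?_⟩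
              rw [Finset.mem_filter, not_and_not_right]
              intro _
              exact ud11_rel (hQ b hb).1 (hQ b hb).2.1 (hQ b hb).2.2.1 _ fun v hv => hv.2.2
            · intro B' hB'
              rw [Finset.mem_filter] at hB' ⊢
              exact ⟨hB'.1, fun h => hB'.2 (ud11_anti h (hVb b))⟩
          have h3 := Finset.card_lt_card h2
          omega
        · exact fun B' hB' => ud11_anti (hD B' hB') (hVb b)
        · intro i
          have h2 : (fun v : ι → F => v i) '' (Vb b) ⊆ (fun v : ι → F => v i) '' V :=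
            Set.image_mono (hVb b)
          exact ⟨(hfin i).1.subset h2, (Set.ncard_le_ncard h2 (hfin i).1).trans (hfin i).2⟩
    -- the main part
    let S : ι → Finset F := fun i => (hfin i).1.toFinset
    let U : Finset (ι → F) := Fintype.piFinset fun i => if i ∈ B then S i else {0}
    let T : (ι → F) → Finset (ι → F) := fun u => Fintype.piFinset fun i =>
      if i ∈ B then {u i} else (ud11_sp (Q i) i u).roots.toFinset
    have hU : U.card ≤ P := by
      refine le_trans ?_ (hP B hBD)
      rw [Fintype.card_piFinset]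
      have h2 : ∀ i, (if i ∈ B then S i else {0}).card = if i ∈ B then (S i).card else 1 := by
        intro i
        by_cases hi : i ∈ B
        · rw [if_pos hi, if_pos hi]
        · rw [if_neg hi, if_neg hi, Finset.card_singleton]
      rw [Finset.prod_congr rfl fun i _ => h2 i, Finset.prod_ite_mem, Finset.univ_inter]
      refine Finset.prod_le_prod' fun i _ => ?_
      have h3 := (hfin i).2
      rwa [Set.ncard_eq_toFinset_card _ (hfin i).1] at h3
    have hT : ∀ u, (T u).card ≤ (e + 1) ^ (Fintype.card ι) := by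
      intro u
      rw [Fintype.card_piFinset]
      refine (Finset.prod_le_pow_card _ _ (e + 1) fun i _ => ?_).trans (le_of_eq ?_)
      · by_cases hi : i ∈ B
        · rw [if_pos hi, Finset.card_singleton]
          omega
        · rw [if_neg hi]
          refine (Multiset.toFinset_card_le _).trans ((Polynomial.card_roots' _).trans ?_)
          have h2 := (ud11_deg (Q i) i u).trans ((hQ i hi).2.2.1 i)
          omega
      · rw [Finset.card_univ]
    let V0 : Finset (ι → F) := U.biUnion T
    have hV0 : V0.card ≤ (e + 1) ^ (Fintype.card ι) * P := by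
      refine (Finset.card_biUnion_le_card_mul _ _ _ fun u _ => hT u).trans ?_
      rw [mul_comm]
      exact Nat.mul_le_mul_left _ hU
    have hcov : V ⊆ (V0 : Set (ι → F)) ∪ ⋃ b ∈ (Finset.univ : Finset ι), Vb b := by
      intro v hv
      by_cases hex : ∃ b, v ∈ Vb b
      · obtain ⟨b, hb⟩ := hex
        right
        simp only [Set.mem_iUnion]
        exact ⟨b, Finset.mem_univ b, hb⟩
      · left
        push Not at hex
        rw [Finset.mem_coe, Finset.mem_biUnion]
        refine ⟨fun i => if i ∈ B then v i else 0, ?_, ?_⟩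
        · rw [Fintype.mem_piFinset]
          intro i
          by_cases hi : i ∈ B
          · rw [if_pos hi, if_pos hi, Set.Finite.mem_toFinset]
            exact ⟨v, hv, rfl⟩
          · rw [if_neg hi, if_neg hi, Finset.mem_singleton]
        · rw [Fintype.mem_piFinset]
          intro i
          by_cases hi : i ∈ B
          · rw [if_pos hi, Finset.mem_singleton]
            exact (if_pos hi).symm
          · rw [if_neg hi, Multiset.mem_toFinset]
            have h2 : ud11_sp (Q i) i (fun i => if i ∈ B then v i else 0) =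
                ud11_sp (Q i) i v := by
              apply ud11_congr
              intro i' hi' hne'
              have h3 := (hQ i hi).2.1 hi'
              rw [Finset.mem_insert] at h3
              rw [if_pos (h3.resolve_left hne')]
            rw [h2]
            have h4 : ud11_sp (Q i) i v ≠ 0 := fun h => hex i ⟨hv, hi, h⟩
            rw [Polynomial.mem_roots h4, Polynomial.IsRoot.def, ud11_eval]
            exact (hQ i hi).2.2.2 v hv
    have hfinU : ((V0 : Set (ι → F)) ∪ ⋃ b ∈ (Finset.univ : Finset ι), Vb b).Finite := by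
      refine V0.finite_toSet.union ?_
      exact Set.Finite.biUnion (Finset.finite_toSet _) fun b _ => (hVb2 b).1
    refine ⟨hfinU.subset hcov, ?_⟩
    refine (Set.ncard_le_ncard hcov hfinU).trans ((Set.ncard_union_le _ _).trans ?_)
    rw [Set.ncard_coe_finset]
    have h5 : (⋃ b ∈ (Finset.univ : Finset ι), Vb b).ncard ≤
        Fintype.card ι * (ud11_C (Fintype.card ι) e j * P) := by
      refine (Finset.set_ncard_biUnion_le _ _).trans ?_
      refine (Finset.sum_le_card_nsmul _ _ _ fun b _ => (hVb2 b).2).trans (le_of_eq ?_)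
      rw [Finset.card_univ, smul_eq_mul]
    have h6 : ud11_C (Fintype.card ι) e (j + 1) =
        (e + 1) ^ (Fintype.card ι) + Fintype.card ι * ud11_C (Fintype.card ι) e j := rfl
    rw [h6, add_mul, mul_assoc]
    exact Nat.add_le_add hV0 h5

theorem few (q D e : ℕ) : ∃ C : ℕ, ∀ (F : Type) [Field F] (ι : Type) [Fintype ι],
    Fintype.card ι = q → ∀ V : Set (ι → F),
      (∀ B : Finset ι, B.card = D + 1 → RelOn e B V) → ∀ N : ι → ℕ, (∀ i, 1 ≤ N i) →
      (∀ i, ((fun v : ι → F => v i) '' V).Finite ∧ ((fun v : ι → F => v i) '' V).ncard ≤ N i) →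
      ∀ P : ℕ, (∀ B : Finset ι, B.card ≤ D → ∏ i ∈ B, N i ≤ P) →
      V.Finite ∧ V.ncard ≤ C * P := by
  classical
  refine ⟨ud11_C q e (2 ^ q), ?_⟩
  intro F _ ι _ hq V hV N hN hfin P hP
  subst hq
  refine ud11_main D e N hN P hP _ V ?_ hV hfin
  refine (Finset.card_filter_le _ _).trans (le_of_eq ?_)
  rw [Finset.card_univ, Fintype.card_finset]

end Pool.Agent.H48.UD
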