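import Pool.Agent.H48.UD.Defs
import Pool.Agent.H67.MU.Bdd

/-!
# Project UD (MP_a3214d), row UD-14: the classes modulo the first prime, integers of bounded size
-/

set_option autoImplicit false

open NumberField Module Polynomial Pool.Agent.H52.UB

namespace Pool.Agent.H48.UD

theorem class_card (k : Type) [Field k] [NumberField k] (p : ℕ) (hp : 0 < p) (ι : Type)
    [Fintype ι] (V : Set (ι → 𝓞 k)) :
    ∃ R : Finset (ι → 𝓞 k), (R : Set (ι → 𝓞 k)) ⊆ V ∧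
      R.card ≤ p ^ (finrank ℚ k * Fintype.card ι) ∧
      ∀ v ∈ V, ∃ r ∈ R, ∀ i, (p : 𝓞 k) ∣ v i - r i := by
  classical
  set I : Ideal (𝓞 k) := Ideal.span {(p : 𝓞 k)} with hI
  have hnorm : Ideal.absNorm I = p ^ finrank ℚ k := by
    rw [hI, Ideal.absNorm_span_natCast, RingOfIntegers.rank]
  have hcard : Nat.card (𝓞 k ⧸ I) = p ^ finrank ℚ k := by
    rw [← hnorm, Ideal.absNorm_apply]
    rfl
  haveI : Finite (𝓞 k ⧸ I) := Nat.finite_of_card_ne_zero (by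
    rw [hcard]
    exact (pow_pos hp _).ne')
  haveI : Fintype (𝓞 k ⧸ I) := Fintype.ofFinite _
  -- the classes
  let c : (ι → 𝓞 k) → (ι → 𝓞 k ⧸ I) := fun v i => Ideal.Quotient.mk I (v i)
  let S : Finset (ι → 𝓞 k ⧸ I) := Finset.univ.filter fun z => ∃ v ∈ V, c v = z
  have hS : ∀ z ∈ S, ∃ v ∈ V, c v = z := fun z hz => (Finset.mem_filter.1 hz).2
  let g : {z // z ∈ S} → (ι → 𝓞 k) := fun z => (hS z.1 z.2).choose
  have hg1 : ∀ z : {z // z ∈ S}, g z ∈ V := fun z => (hS z.1 z.2).choose_spec.1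
  have hg2 : ∀ z : {z // z ∈ S}, c (g z) = z.1 := fun z => (hS z.1 z.2).choose_spec.2
  refine ⟨S.attach.image g, ?_, ?_, ?_⟩
  · intro v hv
    rw [Finset.mem_coe, Finset.mem_image] at hv
    obtain ⟨z, -, rfl⟩ := hv
    exact hg1 z
  · calc (S.attach.image g).card ≤ S.attach.card := Finset.card_image_le
      _ = S.card := Finset.card_attach
      _ ≤ Fintype.card (ι → 𝓞 k ⧸ I) := Finset.card_le_univ _
      _ = p ^ (finrank ℚ k * Fintype.card ι) := by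
        rw [Fintype.card_fun, ← Nat.card_eq_fintype_card, hcard, ← pow_mul]
  · intro v hv
    have hvS : c v ∈ S := Finset.mem_filter.2 ⟨Finset.mem_univ _, v, hv, rfl⟩
    refine ⟨g ⟨c v, hvS⟩, Finset.mem_image.2 ⟨_, Finset.mem_attach _ _, rfl⟩, fun i => ?_⟩
    have h1 := congrFun (hg2 ⟨c v, hvS⟩) i
    have h2 : Ideal.Quotient.mk I (v i - g ⟨c v, hvS⟩ i) = 0 := by
      rw [map_sub, sub_eq_zero]
      exact h1.symm
    rw [Ideal.Quotient.eq_zero_iff_mem] at h2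
    exact Ideal.mem_span_singleton.1 h2

theorem count_bdd (k : Type) [Field k] [NumberField k] : ∃ C : ℝ, 1 ≤ C ∧ ∀ T : ℝ, 1 ≤ T →
    Set.Finite {a : 𝓞 k | Pool.Agent.H67.MU.Bdd T a} ∧
      (Set.ncard {a : 𝓞 k | Pool.Agent.H67.MU.Bdd T a} : ℝ) ≤ C * T ^ finrank ℚ k := by
  obtain ⟨C, hC, h⟩ := Pool.Agent.H67.MU.bdd_mem_count k
  refine ⟨2 * C, by linarith, fun T hT => ?_⟩
  have h1 := h T (by linarith) ⊤ top_ne_bot
  have h2 : {a : 𝓞 k | Pool.Agent.H67.MU.Bdd T a ∧ a ∈ (⊤ : Ideal (𝓞 k))} =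
      {a : 𝓞 k | Pool.Agent.H67.MU.Bdd T a} := by
    ext a
    simp
  rw [h2, Ideal.absNorm_top, Nat.cast_one, div_one] at h1
  refine ⟨h1.1, h1.2.trans ?_⟩
  have h3 : (1 : ℝ) ≤ T ^ finrank ℚ k := one_le_pow₀ hT
  nlinarith

end Pool.Agent.H48.UD
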