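import Pool.Agent.H48.UD.Defs
import Pool.Agent.H48.UD.Close
import Pool.Agent.H52.UB.Count
import Pool.Agent.H52.UB.Uniq

/-! # Project UD, row UD-6: the traces of a point in a class -/

set_option autoImplicit false

open NumberField Module Polynomial Pool.Agent.H52.UB

namespace Pool.Agent.H48.UD

theorem pts_inj (k : Type) [Field k] [NumberField k] {n q : ℕ} (p : ℕ) (hp : p.Prime)
    (β : Fin n × Fin (q + 1) → Fin (q + 1) → ℕ) (x x' : Fin n → Fin (q + 1) → Zb k)
    (hF : ∀ ρ, (p : Zb k) ∣ cf x ρ - cf x' ρ) (h : Cop k p (dsc x)) (h' : Cop k p (dsc x'))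
    (hJ : Cop k p (jac β x).det)
    (hT : ∀ ρ, ∑ j, mon (x j) (β ρ) = ∑ j, mon (x' j) (β ρ)) :
    ∃ π : Equiv.Perm (Fin n), ∀ j i, x j i = x' (π j) i := by
  obtain ⟨P, hPm, hPp⟩ := ub22_maximal k p hp
  obtain ⟨π, s, hs, hd⟩ := close P (p : Zb k) hPp x x' hF (h P hPm hPp) (h' P hPm hPp)
  refine ⟨π, ?_⟩
  have hT' : ∀ ρ, ∑ j, mon (x j) (β ρ) = ∑ j, mon ((fun j => x' (π j)) j) (β ρ) := by
    intro ρ
    rw [hT ρ]
    exact (Equiv.sum_comp π fun j => mon (x' j) (β ρ)).symm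
  have hP' : ∀ j i, (fun j => x' (π j)) j i - x j i ∈ P := by
    intro j i
    obtain ⟨y, hy⟩ := hd j i
    have h1 : s * (x j i - x' (π j) i) ∈ P := by
      rw [hy]
      exact P.mul_mem_right _ hPp
    have h2 : x j i - x' (π j) i ∈ P := (hPm.isPrime.mem_or_mem h1).resolve_left hs
    have h3 : x' (π j) i - x j i = -(x j i - x' (π j) i) := by ring
    show x' (π j) i - x j i ∈ P
    rw [h3]
    exact P.neg_mem h2
  have h4 : x = fun j => x' (π j) := uniq P β x (fun j => x' (π j)) hT' hP' (hJ P hPm hPp)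
  intro j i
  exact congrFun (congrFun h4 j) i

end Pool.Agent.H48.UD
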