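import Pool.Agent.H48.UD.Defs

/-!
# Project UD, row UD-1: the Hilbert function of all polynomials against the one of the invariants

Lagrange identity: for a polynomial function `G` of degree at most `a`,
`G (x) dsc (x) = ∑ e, x ^ e * I_e (x)` with symmetric polynomial functions `I_e`.
-/

set_option autoImplicit false

open NumberField Module Polynomial Pool.Agent.H52.UB

namespace Pool.Agent.H48.UD

section Lagr

variable {F : Type*} [Field F] {n r : ℕ}

/-- polynomial functions of degree at most `a` -/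
def ud1_M (F : Type*) [Field F] (n r a : ℕ) : Submodule F ((Fin n → Fin r → F) → F) :=
  Submodule.span F (mn '' {α : Fin n → Fin r → ℕ | dg α ≤ a})

/-- symmetric polynomial functions of degree at most `a` -/
def ud1_O (F : Type*) [Field F] (n r a : ℕ) : Submodule F ((Fin n → Fin r → F) → F) :=
  Submodule.span F (os '' {α : Fin n → Fin r → ℕ | dg α ≤ a})

theorem ud1_dg_add (α β : Fin n → Fin r → ℕ) : dg (α + β) = dg α + dg β := by
  simp [dg, Finset.sum_add_distrib]

theorem ud1_mn_add (α β : Fin n → Fin r → ℕ) (x : Fin n → Fin r → F) :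
    mn (α + β) x = mn α x * mn β x := by
  simp [mn, pow_add, Finset.prod_mul_distrib]

theorem ud1_mono {a b : ℕ} (h : a ≤ b) : ud1_M F n r a ≤ ud1_M F n r b :=
  Submodule.span_mono (Set.image_mono fun _ hα => le_trans hα h)

theorem ud1_one : (1 : (Fin n → Fin r → F) → F) ∈ ud1_M F n r 0 := by
  refine Submodule.subset_span ⟨0, by simp [dg], ?_⟩
  funext x; simp [mn]

theorem ud1_mul {a b : ℕ} {f g : (Fin n → Fin r → F) → F} (hf : f ∈ ud1_M F n r a)
    (hg : g ∈ ud1_M F n r b) : f * g ∈ ud1_M F n r (a + b) := by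
  unfold ud1_M at hf
  induction hf using Submodule.span_induction with
  | mem f hf =>
    obtain ⟨α, hα, rfl⟩ := hf
    unfold ud1_M at hg
    induction hg using Submodule.span_induction with
    | mem g hg =>
      obtain ⟨β, hβ, rfl⟩ := hg
      refine Submodule.subset_span ⟨α + β, ?_, ?_⟩
      · show dg (α + β) ≤ a + b
        rw [ud1_dg_add]; exact add_le_add hα hβ
      · funext x; simp [ud1_mn_add]
    | zero => simp
    | add f g _ _ h1 h2 => rw [mul_add]; exact add_mem h1 h2
    | smul c f _ h => rw [mul_smul_comm]; exact Submodule.smul_mem _ _ h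
  | zero => simp
  | add f g _ _ h1 h2 => rw [add_mul]; exact add_mem h1 h2
  | smul c f _ h => rw [smul_mul_assoc]; exact Submodule.smul_mem _ _ h

theorem ud1_prod {ι : Type*} (s : Finset ι) (b : ℕ) (f : ι → (Fin n → Fin r → F) → F)
    (hf : ∀ i ∈ s, f i ∈ ud1_M F n r b) : ∏ i ∈ s, f i ∈ ud1_M F n r (s.card * b) := by
  classical
  induction s using Finset.induction_on with
  | empty => simpa using ud1_one
  | insert i s hi ih =>
    rw [Finset.prod_insert hi, Finset.card_insert_of_notMem hi, add_mul, one_mul, add_comm]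
    exact ud1_mul (hf i (Finset.mem_insert_self i s))
      (ih fun j hj => hf j (Finset.mem_insert_of_mem hj))

end Lagr

section Lagr2

variable {F : Type*} [Field F] {n q : ℕ}

/-- the coordinate `0` of the place `l` -/
def ud1_xi (F : Type*) [Field F] (n q : ℕ) (l : Fin n) : (Fin n → Fin (q + 1) → F) → F :=
  fun x => x l 0

theorem ud1_xi_mem (l : Fin n) : ud1_xi F n q l ∈ ud1_M F n (q + 1) 1 := by
  refine Submodule.subset_span ⟨fun j i => if j = l ∧ i = 0 then 1 else 0, ?_, ?_⟩
  · show dg _ ≤ 1
    unfold dg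
    rw [Finset.sum_eq_single l]
    · rw [Finset.sum_eq_single 0]
      · simp
      · intro i _ hi; simp [hi]
      · simp
    · intro j _ hj
      simp [hj]
    · simp
  · funext x
    unfold mn ud1_xi
    rw [Finset.prod_eq_single l]
    · rw [Finset.prod_eq_single 0]
      · simp
      · intro i _ hi; simp [hi]
      · simp
    · intro j _ hj
      simp [hj]
    · simp

/-- the Lagrange product over a set of places, coefficients are functions -/
noncomputable def ud1_L (F : Type*) [Field F] (n q : ℕ) (s : Finset (Fin n)) :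
    ((Fin n → Fin (q + 1) → F) → F)[X] := ∏ l ∈ s, (X - C (ud1_xi F n q l))

theorem ud1_L_coeff (s : Finset (Fin n)) (e : ℕ) :
    (ud1_L F n q s).coeff e ∈ ud1_M F n (q + 1) s.card := by
  classical
  induction s using Finset.induction_on generalizing e with
  | empty =>
    simp only [ud1_L, Finset.prod_empty, Finset.card_empty, coeff_one]
    split_ifs
    · exact ud1_one
    · exact zero_mem _
  | insert l s hl ih =>
    have h1 : ud1_L F n q (insert l s) = (X - C (ud1_xi F n q l)) * ud1_L F n q s := by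
      rw [ud1_L, Finset.prod_insert hl, ← ud1_L]
    rw [h1, sub_mul, coeff_sub, coeff_C_mul, Finset.card_insert_of_notMem hl]
    refine sub_mem ?_ ?_
    · cases e with
      | zero => simp
      | succ e => rw [coeff_X_mul]; exact ud1_mono (Nat.le_succ _) (ih e)
    · exact ud1_mono (le_of_eq (Nat.add_comm 1 s.card)) (ud1_mul (ud1_xi_mem l) (ih e))

/-- value at a point -/
theorem ud1_L_eval (s : Finset (Fin n)) (x : Fin n → Fin (q + 1) → F) (t : F) :
    (((ud1_L F n q s).map (Pi.evalRingHom (fun _ : Fin n → Fin (q + 1) → F => F) x)).eval t) =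
      ∏ l ∈ s, (t - x l 0) := by
  simp [ud1_L, Polynomial.map_prod, eval_prod, ud1_xi]

theorem ud1_L_deg (j : Fin n) : (ud1_L F n q (Finset.univ.erase j)).natDegree < n := by
  have h : (ud1_L F n q (Finset.univ.erase j)).natDegree ≤ (Finset.univ.erase j).card := by
    unfold ud1_L
    refine (natDegree_prod_le _ _).trans ?_
    refine (Finset.sum_le_card_nsmul _ _ 1 fun l _ => natDegree_X_sub_C_le _).trans ?_
    simp
  have h2 : (Finset.univ.erase j : Finset (Fin n)).card < n := by
    have := Finset.card_erase_lt_of_mem (Finset.mem_univ j)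
    simpa using this
  omega

/-- the coefficients `c_(j,e)` -/
noncomputable def ud1_c (F : Type*) [Field F] (n q : ℕ) (j e : Fin n) :
    (Fin n → Fin (q + 1) → F) → F := (ud1_L F n q (Finset.univ.erase j)).coeff e

theorem ud1_c_mem (j e : Fin n) : ud1_c F n q j e ∈ ud1_M F n (q + 1) n := by
  refine ud1_mono ?_ (ud1_L_coeff _ _)
  have h := Finset.card_le_univ (Finset.univ.erase j : Finset (Fin n))
  rwa [Fintype.card_fin] at h

theorem ud1_c_sum (j : Fin n) (x : Fin n → Fin (q + 1) → F) (t : F) :
    ∑ e : Fin n, ud1_c F n q j e x * t ^ (e : ℕ) = ∏ l ∈ Finset.univ.erase j, (t - x l 0) := by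
  rw [← ud1_L_eval]
  set P := (ud1_L F n q (Finset.univ.erase j)).map
    (Pi.evalRingHom (fun _ : Fin n → Fin (q + 1) → F => F) x) with hP
  have hdeg : P.natDegree < n := lt_of_le_of_lt (natDegree_map_le) (ud1_L_deg j)
  rw [eval_eq_sum_range' hdeg, ← Fin.sum_univ_eq_sum_range (fun e => P.coeff e * t ^ e)]
  refine Finset.sum_congr rfl fun e _ => ?_
  rw [hP, coeff_map]
  rfl

theorem ud1_c_perm (j e : Fin n) (x : Fin n → Fin (q + 1) → F) (π : Equiv.Perm (Fin n)) :
    ud1_c F n q j e (fun l => x (π l)) = ud1_c F n q (π j) e x := by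
  have h : (ud1_L F n q (Finset.univ.erase j)).map
      (Pi.evalRingHom (fun _ : Fin n → Fin (q + 1) → F => F) (fun l => x (π l))) =
      (ud1_L F n q (Finset.univ.erase (π j))).map
      (Pi.evalRingHom (fun _ : Fin n → Fin (q + 1) → F => F) x) := by
    simp only [ud1_L, Polynomial.map_prod, Polynomial.map_sub, map_X, map_C]
    refine Finset.prod_equiv π ?_ ?_
    · intro l; simp
    · intro l _; rfl
  have h1 := congrArg (fun P => P.coeff (e : ℕ)) h
  simp only [coeff_map] at h1
  exact h1

/-- symmetrization -/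
def ud1_sym (F : Type*) [Field F] (n r : ℕ) :
    ((Fin n → Fin r → F) → F) →ₗ[F] ((Fin n → Fin r → F) → F) where
  toFun f := fun x => ∑ π : Equiv.Perm (Fin n), f (fun j => x (π j))
  map_add' f g := by funext x; simp [Finset.sum_add_distrib]
  map_smul' c f := by funext x; simp [Finset.mul_sum]

theorem ud1_sym_mem {a : ℕ} {f : (Fin n → Fin (q + 1) → F) → F} (hf : f ∈ ud1_M F n (q + 1) a) :
    ud1_sym F n (q + 1) f ∈ ud1_O F n (q + 1) a := by
  have h : (ud1_M F n (q + 1) a).map (ud1_sym F n (q + 1)) ≤ ud1_O F n (q + 1) a := by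
    unfold ud1_M
    rw [Submodule.map_span, Submodule.span_le]
    rintro _ ⟨_, ⟨α, hα, rfl⟩, rfl⟩
    exact Submodule.subset_span ⟨α, hα, rfl⟩
  exact h ⟨f, hf, rfl⟩

/-- the monomial in the coordinates `0` -/
def ud1_x (F : Type*) [Field F] (n q : ℕ) (e : Fin n → Fin n) : (Fin n → Fin (q + 1) → F) → F :=
  fun x => ∏ j, x j 0 ^ (e j : ℕ)

/-- the Lagrange identity -/
theorem ud1_lagrange (G : (Fin n → Fin (q + 1) → F) → F) (x : Fin n → Fin (q + 1) → F) :
    dsc x * G x = ∑ e : Fin n → Fin n, ud1_x F n q e x *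
      ud1_sym F n (q + 1) (G * ∏ j, ud1_c F n q j (e j)) x := by
  classical
  have h1 : dsc x * G x = ∑ π : Equiv.Perm (Fin n), G (fun j => x (π j)) *
      ∏ j, ∏ l ∈ Finset.univ.erase (π j), (x j 0 - x l 0) := by
    rw [Finset.sum_eq_single (1 : Equiv.Perm (Fin n))]
    · simp [dsc, mul_comm]
    · intro π _ hπ
      obtain ⟨j, hj⟩ : ∃ j, π j ≠ j := by
        by_contra hcon
        push Not at hcon
        exact hπ (Equiv.ext hcon)
      have : ∏ j, ∏ l ∈ Finset.univ.erase (π j), (x j 0 - x l 0) = 0 := by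
        refine Finset.prod_eq_zero (Finset.mem_univ j) ?_
        refine Finset.prod_eq_zero (i := j) ?_ (sub_self _)
        simp [Ne.symm hj]
      rw [this, mul_zero]
    · simp
  rw [h1]
  have h2 : ∀ π : Equiv.Perm (Fin n), ∏ j, ∏ l ∈ Finset.univ.erase (π j), (x j 0 - x l 0) =
      ∑ e : Fin n → Fin n, ∏ j, (ud1_c F n q (π j) (e j) x * x j 0 ^ (e j : ℕ)) := by
    intro π
    rw [← Fintype.prod_sum (fun j (e : Fin n) => ud1_c F n q (π j) e x * x j 0 ^ (e : ℕ))]
    refine Finset.prod_congr rfl fun j _ => ?_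
    rw [ud1_c_sum]
  simp only [h2, Finset.mul_sum]
  rw [Finset.sum_comm]
  refine Finset.sum_congr rfl fun e _ => ?_
  show _ = ud1_x F n q e x * ∑ π : Equiv.Perm (Fin n),
    (G * ∏ j, ud1_c F n q j (e j)) (fun j => x (π j))
  rw [Finset.mul_sum]
  refine Finset.sum_congr rfl fun π _ => ?_
  rw [Pi.mul_apply, Finset.prod_apply, Finset.prod_mul_distrib]
  simp only [ud1_c_perm]
  unfold ud1_x
  ring

theorem ud1_finite (n r a : ℕ) : {α : Fin n → Fin r → ℕ | dg α ≤ a}.Finite := by
  have h : {α : Fin n → Fin r → ℕ | dg α ≤ a} ⊆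
      Set.pi Set.univ fun _ => Set.pi Set.univ fun _ => Set.Iic a := by
    intro α hα j _ i _
    have h1 : α j i ≤ ∑ i, α j i := Finset.single_le_sum (f := fun i => α j i)
      (fun _ _ => Nat.zero_le _) (Finset.mem_univ i)
    have h2 : ∑ i, α j i ≤ dg α := Finset.single_le_sum (f := fun j => ∑ i, α j i)
      (fun _ _ => Nat.zero_le _) (Finset.mem_univ j)
    exact (h1.trans h2).trans hα
  exact (Set.Finite.pi' fun _ => Set.Finite.pi' fun _ => Set.finite_Iic a).subset
    (by
      intro α hα j i
      exact h hα j (Set.mem_univ _) i (Set.mem_univ _))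

/-- restriction to `Y` -/
def ud1_res {X : Type*} (Y : Set X) : (X → F) →ₗ[F] (Y → F) where
  toFun f := fun y => f y
  map_add' _ _ := rfl
  map_smul' _ _ := rfl

theorem ud1_rk {X ι : Type*} (Y : Set X) (f : ι → X → F) (w : ι → ℕ) (a : ℕ) :
    rk Y f w a = finrank F ((Submodule.span F (f '' {i | w i ≤ a})).map (ud1_res Y)) := by
  unfold rk
  rw [Submodule.map_span, Set.image_image]
  rfl

/-- multiplication by a function -/
def ud1_mulY {X : Type*} (g : X → F) : (X → F) →ₗ[F] (X → F) where
  toFun f := g * f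
  map_add' f h := mul_add g f h
  map_smul' c f := by simp

/-- the Hilbert function of all polynomials is at most `n ^ n` times the one of the invariants -/
theorem hil_le {F : Type*} [Field F] {n q : ℕ} (Y : Set (Fin n → Fin (q + 1) → F))
    (hs : ∀ x ∈ Y, Function.Injective fun j => x j 0) (a : ℕ) :
    hil Y a ≤ n ^ n * hinv Y (a + n * n) := by
  classical
  unfold hil hinv
  rw [ud1_rk, ud1_rk]
  set MY := (Submodule.span F (mn '' {α : Fin n → Fin (q + 1) → ℕ | dg α ≤ a})).map
    (ud1_res Y) with hMY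
  set OY := (Submodule.span F (os '' {α : Fin n → Fin (q + 1) → ℕ | dg α ≤ a + n * n})).map
    (ud1_res Y) with hOY
  have : FiniteDimensional F OY := by
    rw [hOY, Submodule.map_span]
    exact FiniteDimensional.span_of_finite F (((ud1_finite n (q + 1) _).image _).image _)
  -- the linear map `(I_e) ↦ ∑ x^e I_e`
  let L : ((Fin n → Fin n) → OY) →ₗ[F] (Y → F) :=
    ∑ e : Fin n → Fin n, (ud1_mulY (fun y : Y => ud1_x F n q e y)) ∘ₗ OY.subtype ∘ₗ
      LinearMap.proj e
  have hL : ∀ I, L I = ∑ e : Fin n → Fin n, (fun y : Y => ud1_x F n q e y) * (I e : Y → F) := by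
    intro I
    simp [L, LinearMap.sum_apply, ud1_mulY]
  -- multiplication by `dsc`
  let D : (Y → F) →ₗ[F] (Y → F) := ud1_mulY (fun y : Y => dsc (y : Fin n → Fin (q + 1) → F))
  have hD : Function.Injective D := by
    intro f g hfg
    funext y
    have h1 := congrFun hfg y
    have h2 : dsc (y : Fin n → Fin (q + 1) → F) * f y = dsc (y : Fin n → Fin (q + 1) → F) * g y := h1
    refine mul_left_cancel₀ ?_ h2
    unfold dsc
    refine Finset.prod_ne_zero_iff.2 fun j _ => Finset.prod_ne_zero_iff.2 fun l hl => ?_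
    rw [Finset.mem_erase] at hl
    exact sub_ne_zero.2 fun h => hl.1 (hs y y.2 h).symm
  have hsub : MY.map D ≤ LinearMap.range L := by
    rw [hMY, ← Submodule.map_comp, Submodule.map_span, Submodule.span_le]
    rintro _ ⟨_, ⟨α, hα, rfl⟩, rfl⟩
    have hmem : ∀ e : Fin n → Fin n, ud1_res Y (ud1_sym F n (q + 1)
        (mn α * ∏ j, ud1_c F n q j (e j))) ∈ OY := by
      intro e
      refine Submodule.mem_map_of_mem ?_
      refine ud1_sym_mem ?_
      refine ud1_mul (Submodule.subset_span ⟨α, hα, rfl⟩) ?_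
      have := ud1_prod (Finset.univ : Finset (Fin n)) n (fun j => ud1_c F n q j (e j))
        (fun j _ => ud1_c_mem (F := F) (q := q) j (e j))
      simpa using this
    refine ⟨fun e => ⟨_, hmem e⟩, ?_⟩
    rw [hL]
    funext y
    rw [Finset.sum_apply]
    have := ud1_lagrange (mn α) (y : Fin n → Fin (q + 1) → F)
    rw [LinearMap.comp_apply]
    show _ = dsc (y : Fin n → Fin (q + 1) → F) * mn α (y : Fin n → Fin (q + 1) → F)
    rw [this]
    rfl
  calc finrank F MY = finrank F (MY.map D) := by
        exact (Submodule.equivMapOfInjective D hD MY).finrank_eq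
    _ ≤ finrank F (LinearMap.range L) := Submodule.finrank_mono hsub
    _ ≤ finrank F ((Fin n → Fin n) → OY) := LinearMap.finrank_range_le L
    _ = n ^ n * finrank F OY := by
        rw [Module.finrank_pi_fintype]
        simp

end Lagr2

end Pool.Agent.H48.UD
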