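import Pool.Agent.H48.UD.Defs

/-!
# Project UD (MP_a3214d), row UD-5: points

The coefficients and the traces of a point are integers of `k`; the number `dsc * (det jac)^2`.
-/

set_option autoImplicit false

open NumberField Module Polynomial Pool.Agent.H52.UB

namespace Pool.Agent.H48.UD

section Perm

variable {A : Type*} [CommRing A] {n q : ℕ}

theorem ud5_prod_erase {M : Type*} [CommMonoid M] (π : Equiv.Perm (Fin n)) (g : Fin n → M)
    (j : Fin n) :
    ∏ l ∈ Finset.univ.erase j, g (π l) = ∏ l ∈ Finset.univ.erase (π j), g l := by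
  refine Finset.prod_equiv π (fun i => ?_) (fun i _ => rfl)
  simp

theorem ud5_cf_perm (x : Fin n → Fin (q + 1) → A) (π : Equiv.Perm (Fin n)) :
    cf (fun j => x (π j)) = cf x := by
  have h1 : fP (fun j => x (π j)) = fP x := by
    unfold fP
    exact Equiv.prod_comp π (fun j => (X - C (x j 0) : A[X]))
  have h2 : ∀ i, gP (fun j => x (π j)) i = gP x i := by
    intro i
    unfold gP
    rw [← Equiv.sum_comp π (fun j => C (x j i) *
      ∏ l ∈ Finset.univ.erase j, (X - C (x l 0) : A[X]))]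
    refine Finset.sum_congr rfl fun j _ => ?_
    rw [ud5_prod_erase π (fun l => (X - C (x l 0) : A[X])) j]
  funext ρ
  unfold cf
  rw [h1, h2]

theorem ud5_dsc_perm (x : Fin n → Fin (q + 1) → A) (π : Equiv.Perm (Fin n)) :
    dsc (fun j => x (π j)) = dsc x := by
  unfold dsc
  rw [← Equiv.prod_comp π (fun j => ∏ l ∈ Finset.univ.erase j, (x j 0 - x l 0))]
  refine Finset.prod_congr rfl fun j _ => ?_
  exact ud5_prod_erase π (fun l => x (π j) 0 - x l 0) j

theorem ud5_mon_perm (x : Fin n → Fin (q + 1) → A) (π : Equiv.Perm (Fin n))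
    (b : Fin (q + 1) → ℕ) : ∑ j, mon (x (π j)) b = ∑ j, mon (x j) b :=
  Equiv.sum_comp π (fun j => mon (x j) b)

theorem ud5_jac_perm (β : Fin n × Fin (q + 1) → Fin (q + 1) → ℕ) (x : Fin n → Fin (q + 1) → A)
    (π : Equiv.Perm (Fin n)) :
    (jac β (fun j => x (π j))).det = (jac β x).det ∨
      (jac β (fun j => x (π j))).det = -(jac β x).det := by
  have h1 : jac β (fun j => x (π j)) =
      (jac β x).submatrix id (Equiv.prodCongr π (Equiv.refl (Fin (q + 1)))) := by
    ext ρ' ρ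
    rfl
  rw [h1, Matrix.det_permute']
  rcases Int.units_eq_one_or (Equiv.Perm.sign (Equiv.prodCongr π (Equiv.refl (Fin (q + 1)))))
    with h | h
  · left
    rw [h]
    simp
  · right
    rw [h]
    simp

theorem ud5_jac_sq_perm (β : Fin n × Fin (q + 1) → Fin (q + 1) → ℕ)
    (x : Fin n → Fin (q + 1) → A) (π : Equiv.Perm (Fin n)) :
    (jac β (fun j => x (π j))).det ^ 2 = (jac β x).det ^ 2 := by
  rcases ud5_jac_perm β x π with h | h
  · rw [h]
  · rw [h, neg_sq]

end Perm

section Map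

variable {A B : Type*} [CommRing A] [CommRing B] (f : A →+* B) {n q : ℕ}

theorem ud5_map_cf (x : Fin n → Fin (q + 1) → A) (ρ : Fin (q + 1) × Fin n) :
    f (cf x ρ) = cf (fun j i => f (x j i)) ρ := by
  have h1 : (fP x).map f = fP (fun j i => f (x j i)) := by
    unfold fP
    simp [Polynomial.map_prod]
  have h2 : ∀ i, (gP x i).map f = gP (fun j i => f (x j i)) i := by
    intro i
    unfold gP
    simp [Polynomial.map_prod, Polynomial.map_sum]
  unfold cf
  split_ifs
  · rw [← h1, Polynomial.coeff_map]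
  · rw [← h2, Polynomial.coeff_map]

theorem ud5_map_dsc (x : Fin n → Fin (q + 1) → A) :
    f (dsc x) = dsc (fun j i => f (x j i)) := by
  unfold dsc
  simp [map_prod]

theorem ud5_map_mon (x : Fin (q + 1) → A) (b : Fin (q + 1) → ℕ) :
    f (mon x b) = mon (fun i => f (x i)) b := by
  unfold mon
  simp [map_prod]

theorem ud5_map_jac (β : Fin n × Fin (q + 1) → Fin (q + 1) → ℕ)
    (x : Fin n → Fin (q + 1) → A) :
    f (jac β x).det = (jac β (fun j i => f (x j i))).det := by
  rw [RingHom.map_det]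
  congr 1
  ext ρ' ρ
  simp [jac, RingHom.mapMatrix_apply, Matrix.map_apply, map_prod]

end Map

section Pt

variable (k : Type) [Field k] [NumberField k] {n q : ℕ}

theorem fixed_int (z : Zb k) (h : ∀ σ : AlgebraicClosure k ≃ₐ[k] AlgebraicClosure k,
    σ (z : AlgebraicClosure k) = (z : AlgebraicClosure k)) :
    ∃ c : 𝓞 k, algebraMap k (AlgebraicClosure k) (c : k) = (z : AlgebraicClosure k) := by
  obtain ⟨c, hc⟩ := (InfiniteGalois.mem_range_algebraMap_iff_fixed
    (k := k) (K := AlgebraicClosure k) (z : AlgebraicClosure k)).2 h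
  have h1 : IsIntegral ℤ (algebraMap k (AlgebraicClosure k) c) := by
    rw [hc]
    exact z.2
  have h2 : IsIntegral ℤ c :=
    (isIntegral_algebraMap_iff (algebraMap k (AlgebraicClosure k)).injective).1 h1
  exact ⟨⟨c, h2⟩, hc⟩

omit [NumberField k] in
/-- the point as a family over the algebraic closure, moved by an automorphism -/
theorem ud5_sym {x : Fin n → Fin (q + 1) → Zb k} (hx : IsPt k x)
    (σ : AlgebraicClosure k ≃ₐ[k] AlgebraicClosure k) : ∃ π : Equiv.Perm (Fin n),
    (fun (j : Fin n) (i : Fin (q + 1)) =>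
      ((σ : AlgebraicClosure k →+* AlgebraicClosure k).comp (algebraMap (Zb k)
        (AlgebraicClosure k))) (x j i)) =
    fun (j : Fin n) => (fun (j : Fin n) (i : Fin (q + 1)) =>
      algebraMap (Zb k) (AlgebraicClosure k) (x j i)) (π j) := by
  obtain ⟨π, hπ⟩ := hx.sym σ
  refine ⟨π, ?_⟩
  funext j i
  exact hπ j i

/-- the coefficients of a point are integers of `k` -/
theorem cf_int {x : Fin n → Fin (q + 1) → Zb k} (hx : IsPt k x) (ρ : Fin (q + 1) × Fin n) :
    ∃ c : 𝓞 k, algebraMap k (AlgebraicClosure k) (c : k) =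
      ((cf x ρ : Zb k) : AlgebraicClosure k) := by
  refine fixed_int k _ fun σ => ?_
  obtain ⟨π, hπ⟩ := ud5_sym k hx σ
  have h1 := ud5_map_cf ((σ : AlgebraicClosure k →+* AlgebraicClosure k).comp (algebraMap (Zb k)
    (AlgebraicClosure k))) x ρ
  rw [hπ] at h1
  have h2 := congrFun (ud5_cf_perm (fun (j : Fin n) (i : Fin (q + 1)) =>
    algebraMap (Zb k) (AlgebraicClosure k) (x j i)) π) ρ
  exact (h1.trans h2).trans (ud5_map_cf (algebraMap (Zb k) (AlgebraicClosure k)) x ρ).symm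

theorem tr_int {x : Fin n → Fin (q + 1) → Zb k} (hx : IsPt k x) (b : Fin (q + 1) → ℕ) :
    ∃ c : 𝓞 k, algebraMap k (AlgebraicClosure k) (c : k) =
      ((∑ j, mon (x j) b : Zb k) : AlgebraicClosure k) := by
  refine fixed_int k _ fun σ => ?_
  obtain ⟨π, hπ⟩ := ud5_sym k hx σ
  set F := (σ : AlgebraicClosure k →+* AlgebraicClosure k).comp (algebraMap (Zb k)
    (AlgebraicClosure k)) with hF
  have h0 : ∀ {g : Zb k →+* AlgebraicClosure k}, g (∑ j, mon (x j) b) =
      ∑ j, mon ((fun (j : Fin n) (i : Fin (q + 1)) => g (x j i)) j) b := by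
    intro g
    rw [map_sum]
    exact Finset.sum_congr rfl fun j _ => ud5_map_mon g (x j) b
  have h1 : F (∑ j, mon (x j) b) = algebraMap (Zb k) (AlgebraicClosure k) (∑ j, mon (x j) b) := by
    rw [h0, h0, hπ]
    exact ud5_mon_perm (fun (j : Fin n) (i : Fin (q + 1)) =>
      algebraMap (Zb k) (AlgebraicClosure k) (x j i)) π b
  exact h1

theorem tr_size {x : Fin n → Fin (q + 1) → Zb k} (b : Fin (q + 1) → ℕ)
    (Y : Fin (q + 1) → ℝ)
    (hY : ∀ (φ : AlgebraicClosure k →+* ℂ) j i, ‖φ (x j i : AlgebraicClosure k)‖ ≤ Y i)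
    (c : 𝓞 k) (hc : algebraMap k (AlgebraicClosure k) (c : k) =
      ((∑ j, mon (x j) b : Zb k) : AlgebraicClosure k)) :
    Pool.Agent.H67.MU.Bdd (n * ∏ i, Y i ^ b i) c := by
  intro φ
  let _ : Algebra k ℂ := φ.toAlgebra
  let ψ : AlgebraicClosure k →ₐ[k] ℂ := IsAlgClosed.lift
  have h1 : φ (c : k) = ψ (algebraMap k (AlgebraicClosure k) (c : k)) := (ψ.commutes (c : k)).symm
  have h2 : ψ ((∑ j, mon (x j) b : Zb k) : AlgebraicClosure k) =
      ∑ j, ∏ i, ψ (x j i : AlgebraicClosure k) ^ b i := by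
    have h3 : ((∑ j, mon (x j) b : Zb k) : AlgebraicClosure k) =
        ∑ j, ∏ i, (x j i : AlgebraicClosure k) ^ b i := by
      have h4 := map_sum (algebraMap (Zb k) (AlgebraicClosure k)) (fun j => mon (x j) b)
        Finset.univ
      refine h4.trans (Finset.sum_congr rfl fun j _ => ?_)
      rw [ud5_map_mon]
      rfl
    rw [h3, map_sum]
    refine Finset.sum_congr rfl fun j _ => ?_
    rw [map_prod]
    refine Finset.prod_congr rfl fun i _ => ?_
    rw [map_pow]
  rw [h1, hc, h2]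
  calc ‖∑ j, ∏ i, ψ (x j i : AlgebraicClosure k) ^ b i‖
      ≤ ∑ j : Fin n, ‖∏ i, ψ (x j i : AlgebraicClosure k) ^ b i‖ := norm_sum_le _ _
    _ ≤ ∑ _j : Fin n, ∏ i, Y i ^ b i := by
        refine Finset.sum_le_sum fun j _ => ?_
        rw [norm_prod]
        refine Finset.prod_le_prod (fun i _ => norm_nonneg _) fun i _ => ?_
        rw [norm_pow]
        exact pow_le_pow_left₀ (norm_nonneg _) (hY (ψ : AlgebraicClosure k →+* ℂ) j i) _
    _ = n * ∏ i, Y i ^ b i := by
        rw [Finset.sum_const, Finset.card_univ, Fintype.card_fin, nsmul_eq_mul]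

theorem ud5_natDegree {z : Zb k} {c : 𝓞 k}
    (hc : algebraMap k (AlgebraicClosure k) (c : k) = (z : AlgebraicClosure k)) :
    (minpoly ℤ z).natDegree ≤ finrank ℚ k := by
  have h1 : (minpoly ℤ c).natDegree ≤ finrank ℤ (𝓞 k) := minpoly.natDegree_le c
  rw [NumberField.RingOfIntegers.rank] at h1
  refine le_trans ?_ h1
  have hcint : IsIntegral ℤ c := Algebra.IsIntegral.isIntegral c
  have h2 : aeval z (minpoly ℤ c) = 0 := by
    have hinj : Function.Injective (algebraMap (Zb k) (AlgebraicClosure k)) :=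
      Subtype.val_injective
    apply hinj
    rw [map_zero, ← Polynomial.aeval_algebraMap_apply]
    have h3 : algebraMap (Zb k) (AlgebraicClosure k) z =
        algebraMap k (AlgebraicClosure k) (algebraMap (𝓞 k) k c) := hc.symm
    rw [h3, Polynomial.aeval_algebraMap_apply, Polynomial.aeval_algebraMap_apply,
      minpoly.aeval, map_zero, map_zero]
  exact Polynomial.natDegree_le_natDegree (minpoly.min ℤ z (minpoly.monic hcint) h2)

theorem ud5_size {H : ℝ} (hH : 2 ≤ H) (β : Fin n × Fin (q + 1) → Fin (q + 1) → ℕ)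
    (y : Fin n → Fin (q + 1) → ℂ) (hy : ∀ j i, ‖y j i‖ ≤ H) :
    ‖dsc y‖ ≤ H ^ (2 * (n * n)) ∧ ‖(jac β y).det‖ ≤
      H ^ ((Fintype.card (Fin n × Fin (q + 1))).factorial +
        2 * (∑ ρ, ∑ l, β ρ l) * Fintype.card (Fin n × Fin (q + 1))) := by
  have hH1 : (1 : ℝ) ≤ H := by linarith
  have hH0 : (0 : ℝ) ≤ H := by linarith
  constructor
  · unfold dsc
    rw [norm_prod]
    have h1 : ∀ j : Fin n, ‖∏ l ∈ Finset.univ.erase j, (y j 0 - y l 0)‖ ≤ H ^ (2 * n) := by
      intro j
      rw [norm_prod]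
      calc ∏ l ∈ Finset.univ.erase j, ‖y j 0 - y l 0‖
          ≤ ∏ _l ∈ Finset.univ.erase j, H ^ 2 := by
            refine Finset.prod_le_prod (fun i _ => norm_nonneg _) fun l _ => ?_
            have h2 := norm_sub_le (y j 0) (y l 0)
            have h3 := hy j 0
            have h4 := hy l 0
            nlinarith
        _ = (H ^ 2) ^ (Finset.univ.erase j).card := by rw [Finset.prod_const]
        _ ≤ (H ^ 2) ^ n := by
            refine pow_le_pow_right₀ (one_le_pow₀ hH1) ?_
            calc (Finset.univ.erase j).card ≤ (Finset.univ : Finset (Fin n)).card :=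
                  Finset.card_erase_le
              _ = n := by rw [Finset.card_univ, Fintype.card_fin]
        _ = H ^ (2 * n) := by rw [← pow_mul]
    calc ∏ j : Fin n, ‖∏ l ∈ Finset.univ.erase j, (y j 0 - y l 0)‖
        ≤ ∏ _j : Fin n, H ^ (2 * n) :=
          Finset.prod_le_prod (fun i _ => norm_nonneg _) fun j _ => h1 j
      _ = H ^ (2 * (n * n)) := by
          rw [Finset.prod_const, Finset.card_univ, Fintype.card_fin, ← pow_mul]
          congr 1
          ring
  · set S := ∑ ρ, ∑ l, β ρ l with hS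
    have hent : ∀ ρ' ρ, NormedField.toAbsoluteValue ℂ (jac β y ρ' ρ) ≤ H ^ (2 * S) := by
      intro ρ' ρ
      change ‖jac β y ρ' ρ‖ ≤ H ^ (2 * S)
      have hβ : ∑ l, β ρ' l ≤ S := by
        rw [hS]
        exact Finset.single_le_sum (f := fun ρ => ∑ l, β ρ l) (fun _ _ => Nat.zero_le _)
          (Finset.mem_univ ρ')
      have h1 : β ρ' ρ.2 ≤ S := le_trans (Finset.single_le_sum (f := fun l => β ρ' l)
        (fun _ _ => Nat.zero_le _) (Finset.mem_univ ρ.2)) hβ
      have h2 : ((β ρ' ρ.2 : ℕ) : ℝ) ≤ H ^ S := by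
        calc ((β ρ' ρ.2 : ℕ) : ℝ) ≤ (S : ℝ) := by exact_mod_cast h1
          _ ≤ (2 : ℝ) ^ S := by exact_mod_cast (Nat.lt_two_pow_self (n := S)).le
          _ ≤ H ^ S := pow_le_pow_left₀ (by norm_num) hH S
      have h3 : ‖∏ l, y ρ.1 l ^ (β ρ' l - if l = ρ.2 then 1 else 0)‖ ≤ H ^ S := by
        rw [norm_prod]
        calc ∏ l, ‖y ρ.1 l ^ (β ρ' l - if l = ρ.2 then 1 else 0)‖
            ≤ ∏ l, H ^ (β ρ' l) := by
              refine Finset.prod_le_prod (fun i _ => norm_nonneg _) fun l _ => ?_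
              rw [norm_pow]
              calc ‖y ρ.1 l‖ ^ (β ρ' l - if l = ρ.2 then 1 else 0)
                  ≤ H ^ (β ρ' l - if l = ρ.2 then 1 else 0) :=
                    pow_le_pow_left₀ (norm_nonneg _) (hy _ _) _
                _ ≤ H ^ (β ρ' l) := pow_le_pow_right₀ hH1 (Nat.sub_le _ _)
          _ = H ^ (∑ l, β ρ' l) := by rw [Finset.prod_pow_eq_pow_sum]
          _ ≤ H ^ S := pow_le_pow_right₀ hH1 hβ
      change ‖((β ρ' ρ.2 : ℕ) : ℂ) *
        ∏ l, y ρ.1 l ^ (β ρ' l - if l = ρ.2 then 1 else 0)‖ ≤ H ^ (2 * S)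
      rw [norm_mul, two_mul, pow_add]
      refine mul_le_mul ?_ h3 (norm_nonneg _) (by positivity)
      rw [Complex.norm_natCast]
      exact h2
    have h5 := Matrix.det_le hent
    change ‖(jac β y).det‖ ≤ _ at h5
    refine h5.trans ?_
    rw [nsmul_eq_mul, pow_add, ← pow_mul]
    refine mul_le_mul_of_nonneg_right ?_ (by positivity)
    set N := (Fintype.card (Fin n × Fin (q + 1))).factorial with hN
    calc (N : ℝ) ≤ (2 : ℝ) ^ N := by exact_mod_cast (Nat.lt_two_pow_self (n := N)).le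
      _ ≤ H ^ N := pow_le_pow_left₀ (by norm_num) hH N

/-- the number `dsc x * (det jac)^2` -/
theorem bad_spec (β : Fin n × Fin (q + 1) → Fin (q + 1) → ℕ) : ∃ w : ℝ, ∀ H : ℝ, 2 ≤ H →
    ∀ x : Fin n → Fin (q + 1) → Zb k, IsPt k x → Sz k H x → (jac β x).det ≠ 0 →
      dsc x * (jac β x).det ^ 2 ≠ 0 ∧
      (minpoly ℤ (dsc x * (jac β x).det ^ 2)).natDegree ≤ finrank ℚ k ∧
      ∀ φ : AlgebraicClosure k →+* ℂ,
        ‖φ ((dsc x * (jac β x).det ^ 2 : Zb k) : AlgebraicClosure k)‖ ≤ H ^ w := by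
  set E := (Fintype.card (Fin n × Fin (q + 1))).factorial +
    2 * (∑ ρ, ∑ l, β ρ l) * Fintype.card (Fin n × Fin (q + 1)) with hE
  refine ⟨((2 * (n * n) + E * 2 : ℕ) : ℝ), ?_⟩
  intro H hH x hx hsz hdet
  refine ⟨?_, ?_, ?_⟩
  · refine mul_ne_zero ?_ (pow_ne_zero _ hdet)
    unfold dsc
    refine Finset.prod_ne_zero_iff.2 fun j _ => Finset.prod_ne_zero_iff.2 fun l hl => ?_
    rw [sub_ne_zero]
    intro h
    exact (Finset.ne_of_mem_erase hl) (hx.sep h.symm)
  · have h1 : ∃ c : 𝓞 k, algebraMap k (AlgebraicClosure k) (c : k) =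
        ((dsc x * (jac β x).det ^ 2 : Zb k) : AlgebraicClosure k) := by
      refine fixed_int k _ fun σ => ?_
      obtain ⟨π, hπ⟩ := ud5_sym k hx σ
      set F := (σ : AlgebraicClosure k →+* AlgebraicClosure k).comp (algebraMap (Zb k)
        (AlgebraicClosure k)) with hF
      have h2 : F (dsc x * (jac β x).det ^ 2) =
          algebraMap (Zb k) (AlgebraicClosure k) (dsc x * (jac β x).det ^ 2) := by
        have h3 := ud5_dsc_perm (fun (j : Fin n) (i : Fin (q + 1)) =>
          algebraMap (Zb k) (AlgebraicClosure k) (x j i)) π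
        have h4 := ud5_jac_sq_perm β (fun (j : Fin n) (i : Fin (q + 1)) =>
          algebraMap (Zb k) (AlgebraicClosure k) (x j i)) π
        rw [map_mul, map_pow, ud5_map_dsc F, ud5_map_jac F, hπ,
          map_mul, map_pow, ud5_map_dsc (algebraMap (Zb k) (AlgebraicClosure k)),
          ud5_map_jac (algebraMap (Zb k) (AlgebraicClosure k))]
        exact congrArg₂ (· * ·) h3 h4
      exact h2
    obtain ⟨c, hc⟩ := h1
    exact ud5_natDegree k hc
  · intro φ
    set F := φ.comp (algebraMap (Zb k) (AlgebraicClosure k)) with hF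
    have h1 : φ ((dsc x * (jac β x).det ^ 2 : Zb k) : AlgebraicClosure k) =
        dsc (fun j i => F (x j i)) * (jac β (fun j i => F (x j i))).det ^ 2 := by
      rw [← ud5_map_dsc F, ← ud5_map_jac F, ← map_pow, ← map_mul]
      rfl
    obtain ⟨h2, h3⟩ := ud5_size hH β (fun j i => F (x j i)) (fun j i => hsz φ j i)
    rw [h1, norm_mul, norm_pow, Real.rpow_natCast, pow_add, pow_mul H E 2]
    refine mul_le_mul h2 (pow_le_pow_left₀ (norm_nonneg _) h3 2) (by positivity) ?_
    have : (0 : ℝ) ≤ H := by linarith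
    positivity

omit [NumberField k] in
theorem cop_of_mul {p : ℕ} {z w : Zb k} (h : Cop k p (z * w)) : Cop k p z ∧ Cop k p w :=
  ⟨fun P hP hp hz => h P hP hp (P.mul_mem_right w hz),
    fun P hP hp hw => h P hP hp (P.mul_mem_left z hw)⟩

omit [NumberField k] in
theorem perm_spec (β : Fin n × Fin (q + 1) → Fin (q + 1) → ℕ) (x : Fin n → Fin (q + 1) → Zb k)
    (π : Equiv.Perm (Fin n)) :
    cf (fun j => x (π j)) = cf x ∧ dsc (fun j => x (π j)) = dsc x ∧
      ((jac β (fun j => x (π j))).det = (jac β x).det ∨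
        (jac β (fun j => x (π j))).det = -(jac β x).det) ∧
      (IsPt k x → IsPt k (fun j => x (π j))) ∧
      (∀ b : Fin (q + 1) → ℕ, ∑ j, mon (x (π j)) b = ∑ j, mon (x j) b) := by
  refine ⟨ud5_cf_perm x π, ud5_dsc_perm x π, ud5_jac_perm β x π, ?_, ud5_mon_perm x π⟩
  intro hx
  refine ⟨fun σ => ?_, ?_⟩
  · obtain ⟨π', hπ'⟩ := hx.sym σ
    refine ⟨(π.trans π').trans π.symm, fun j i => ?_⟩
    rw [hπ' (π j) i]
    simp
  · exact hx.sep.comp π.injective

end Pt

end Pool.Agent.H48.UD
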