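import Pool.Agent.H48.UD.Defs

/-!
# UD-12 : descent and reduction of relations
-/

set_option autoImplicit false

open NumberField Module Polynomial Pool.Agent.H52.UB

namespace Pool.Agent.H48.UD

/-- `RelOn` in terms of exponents and coefficients: from a relation to its coefficients. -/
theorem ud12_out {F ι : Type*} [Field F] {e : ℕ} {B : Finset ι} {V : Set (ι → F)}
    (h : RelOn e B V) : ∃ (S : Finset (ι →₀ ℕ)) (c : (ι →₀ ℕ) → F),
      (∀ m ∈ S, m.support ⊆ B) ∧ (∀ m ∈ S, ∀ i, m i ≤ e) ∧ (∃ m ∈ S, c m ≠ 0) ∧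
      ∀ v ∈ V, ∑ m ∈ S, c m * ∏ i ∈ m.support, v i ^ m i = 0 := by
  classical
  obtain ⟨Q, hQ, hv, hd, hV⟩ := h
  refine ⟨Q.support, fun m => Q.coeff m, ?_, ?_, ?_, ?_⟩
  · intro m hm i hi
    exact hv ((MvPolynomial.mem_vars_iff_mem_support i).2 ⟨m, hm, hi⟩)
  · intro m hm i
    exact (MvPolynomial.degreeOf_le_iff.1 (hd i)) m hm
  · obtain ⟨m, hm⟩ := MvPolynomial.ne_zero_iff.1 hQ
    exact ⟨m, MvPolynomial.mem_support_iff.2 hm, hm⟩
  · intro v hv'
    rw [← hV v hv', MvPolynomial.eval_eq]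

/-- `RelOn` in terms of exponents and coefficients: from the coefficients to the relation. -/
theorem ud12_in {F ι : Type*} [Field F] {e : ℕ} {B : Finset ι} {V : Set (ι → F)}
    (S : Finset (ι →₀ ℕ)) (c : (ι →₀ ℕ) → F) (hB : ∀ m ∈ S, m.support ⊆ B)
    (he : ∀ m ∈ S, ∀ i, m i ≤ e) (hc : ∃ m ∈ S, c m ≠ 0)
    (hV : ∀ v ∈ V, ∑ m ∈ S, c m * ∏ i ∈ m.support, v i ^ m i = 0) : RelOn e B V := by
  classical
  have hco : ∀ m, (∑ m' ∈ S, MvPolynomial.monomial m' (c m')).coeff m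
      = if m ∈ S then c m else 0 := by
    intro m
    rw [MvPolynomial.coeff_sum]
    simp only [MvPolynomial.coeff_monomial]
    rw [Finset.sum_ite_eq' S m (fun m' => c m')]
  have hsup : ∀ m ∈ (∑ m' ∈ S, MvPolynomial.monomial m' (c m')).support, m ∈ S := by
    intro m hm
    rw [MvPolynomial.mem_support_iff, hco] at hm
    by_contra hm'
    rw [if_neg hm'] at hm
    exact hm rfl
  refine ⟨∑ m ∈ S, MvPolynomial.monomial m (c m), ?_, ?_, ?_, ?_⟩
  · obtain ⟨m, hm, hm'⟩ := hc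
    rw [MvPolynomial.ne_zero_iff]
    refine ⟨m, ?_⟩
    rw [hco, if_pos hm]
    exact hm'
  · intro i hi
    obtain ⟨m, hm, hmi⟩ := (MvPolynomial.mem_vars_iff_mem_support i).1 hi
    exact hB m (hsup m hm) hmi
  · intro i
    rw [MvPolynomial.degreeOf_le_iff]
    intro m hm
    exact he m (hsup m hm) i
  · intro v hv
    rw [map_sum, ← hV v hv]
    refine Finset.sum_congr rfl fun m _ => ?_
    rw [MvPolynomial.eval_monomial]
    rfl

theorem rel_desc {k Ω : Type*} [Field k] [Field Ω] [Algebra k Ω] {ι : Type*} (e : ℕ)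
    (B : Finset ι) (V : Set (ι → k))
    (h : RelOn e B ((fun (v : ι → k) (i : ι) => algebraMap k Ω (v i)) '' V)) : RelOn e B V := by
  classical
  obtain ⟨S, c, hB, he, ⟨m0, hm0, hc0⟩, hV⟩ := ud12_out h
  obtain ⟨f, hf⟩ := Module.Projective.exists_dual_ne_zero k hc0
  refine ud12_in S (fun m => f (c m)) hB he ⟨m0, hm0, hf⟩ ?_
  intro v hv
  have h1 := hV _ ⟨v, hv, rfl⟩
  have h2 := congrArg f h1
  rw [map_sum, map_zero] at h2
  rw [← h2]
  refine Finset.sum_congr rfl fun m _ => ?_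
  have h3 : (∏ i ∈ m.support, (algebraMap k Ω (v i)) ^ m i)
      = algebraMap k Ω (∏ i ∈ m.support, v i ^ m i) := by
    rw [map_prod]
    simp only [map_pow]
  show f (c m) * _ = f (c m * ∏ i ∈ m.support, (algebraMap k Ω (v i)) ^ m i)
  rw [h3, mul_comm (c m), ← Algebra.smul_def, map_smul, smul_eq_mul, mul_comm]

/-- A nonzero system of elements of a Dedekind domain becomes, after a scaling by an element of the
fraction field, a system which is not contained in the prime `P`. -/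
theorem ud12_scale {A : Type*} [CommRing A] [IsDedekindDomain A] (P : Ideal A)
    (hP : P ≠ ⊤) {κ : Type*} (S : Finset κ) (a : κ → A) (ha : ∃ m ∈ S, a m ≠ 0) :
    ∃ (t b : A) (x : κ → A), t ≠ 0 ∧ (∀ m ∈ S, b * a m = t * x m) ∧ ∃ m ∈ S, x m ∉ P := by
  classical
  obtain ⟨m0, hm0, ha0⟩ := ha
  obtain ⟨J, hJ⟩ : Ideal.span (a '' (S : Set κ)) ∣ Ideal.span {a m0} := by
    rw [Ideal.dvd_iff_le, Ideal.span_singleton_le_iff_mem]
    exact Ideal.subset_span ⟨m0, hm0, rfl⟩
  have hb : ∀ b ∈ J, ∀ m ∈ S, ∃ x, b * a m = a m0 * x := by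
    intro b hb m hm
    have h1 : b * a m ∈ Ideal.span {a m0} := by
      rw [hJ, mul_comm b]
      exact Ideal.mul_mem_mul (Ideal.subset_span ⟨m, hm, rfl⟩) hb
    obtain ⟨x, hx⟩ := Ideal.mem_span_singleton'.1 h1
    exact ⟨x, by rw [← hx, mul_comm]⟩
  by_cases hex : ∃ b ∈ J, ∃ m ∈ S, ∃ x, b * a m = a m0 * x ∧ x ∉ P
  · obtain ⟨b, hbJ, m, hm, x, hx, hxP⟩ := hex
    choose! y hy using hb b hbJ
    refine ⟨a m0, b, y, ha0, hy, m, hm, ?_⟩
    have : y m = x := mul_left_cancel₀ ha0 ((hy m hm).symm.trans hx)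
    rw [this]
    exact hxP
  · exfalso
    push Not at hex
    have h2 : Ideal.span (a '' (S : Set κ)) * J ≤ Ideal.span {a m0} * P := by
      rw [Ideal.mul_le]
      intro r hr s hs
      induction hr using Submodule.span_induction with
      | mem r hr =>
        obtain ⟨m, hm, rfl⟩ := hr
        obtain ⟨x, hx⟩ := hb s hs m hm
        have h5 : a m * s = a m0 * x := by rw [mul_comm (a m), hx]
        rw [h5]
        exact Ideal.mul_mem_mul (Ideal.mem_span_singleton_self _) (hex s hs m hm x hx)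
      | zero => rw [zero_mul]; exact Ideal.zero_mem _
      | add r r' _ _ h h' => rw [add_mul]; exact Ideal.add_mem _ h h'
      | smul c r _ h =>
        rw [smul_mul_assoc]
        exact Submodule.smul_mem _ _ h
    rw [← hJ] at h2
    have h3 : a m0 ∈ Ideal.span {a m0} * P := h2 (Ideal.mem_span_singleton_self _)
    obtain ⟨z, hz, hz'⟩ := Ideal.mem_span_singleton_mul.1 h3
    have : z = 1 := mul_left_cancel₀ ha0 (by rw [hz', mul_one])
    rw [this] at hz
    exact hP ((Ideal.eq_top_iff_one P).2 hz)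

theorem red_rel (k : Type) [Field k] [NumberField k] {ι : Type*} (e : ℕ) (B : Finset ι)
    (V : Set (ι → 𝓞 k)) (h : RelOn e B ((fun (v : ι → 𝓞 k) (i : ι) => (v i : k)) '' V))
    {F : Type*} [Field F] (ψ : 𝓞 k →+* F) :
    RelOn e B ((fun (v : ι → 𝓞 k) (i : ι) => ψ (v i)) '' V) := by
  classical
  obtain ⟨S, c, hB, he, ⟨m0, hm0, hc0⟩, hV⟩ := ud12_out h
  -- common denominator
  obtain ⟨d, hd⟩ := IsLocalization.exist_integer_multiples (nonZeroDivisors (𝓞 k)) S c
  choose! a ha using hd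
  have hd0 : (d : 𝓞 k) ≠ 0 := nonZeroDivisors.coe_ne_zero d
  have ha' : ∀ m ∈ S, algebraMap (𝓞 k) k (a m) = algebraMap (𝓞 k) k d * c m := by
    intro m hm
    have := ha m hm
    rw [this]
    rfl
  have hdk : algebraMap (𝓞 k) k d ≠ 0 := by
    intro h0
    exact hd0 (RingOfIntegers.coe_eq_zero_iff.1 h0)
  have ha0 : a m0 ≠ 0 := by
    intro h0
    have h1 := ha' m0 hm0
    rw [h0, map_zero] at h1
    rcases mul_eq_zero.1 h1.symm with h3 | h3
    · exact hdk h3
    · exact hc0 h3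
  obtain ⟨t, b, x, ht, hx, m1, hm1, hx1⟩ := ud12_scale (RingHom.ker ψ) (RingHom.ker_ne_top ψ) S a
    ⟨m0, hm0, ha0⟩
  refine ud12_in S (fun m => ψ (x m)) hB he ⟨m1, hm1, ?_⟩ ?_
  · intro h0
    exact hx1 (RingHom.mem_ker.2 h0)
  · rintro _ ⟨v, hv, rfl⟩
    have h1 : ∑ m ∈ S, c m * ∏ i ∈ m.support, (algebraMap (𝓞 k) k (v i)) ^ m i = 0 :=
      hV _ ⟨v, hv, rfl⟩
    have h2 : ∑ m ∈ S, x m * ∏ i ∈ m.support, v i ^ m i = 0 := by
      have h3 : t * ∑ m ∈ S, x m * ∏ i ∈ m.support, v i ^ m i = 0 := by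
        apply FaithfulSMul.algebraMap_injective (𝓞 k) k
        have h4 : algebraMap (𝓞 k) k (t * ∑ m ∈ S, x m * ∏ i ∈ m.support, v i ^ m i)
            = algebraMap (𝓞 k) k b * algebraMap (𝓞 k) k d *
              ∑ m ∈ S, c m * ∏ i ∈ m.support, (algebraMap (𝓞 k) k (v i)) ^ m i := by
          rw [Finset.mul_sum, map_sum, Finset.mul_sum]
          refine Finset.sum_congr rfl fun m hm => ?_
          rw [← mul_assoc, ← hx m hm, map_mul, map_mul, ha' m hm, map_prod]
          simp only [map_pow]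
          ring
        rw [h4, h1, mul_zero, map_zero]
      rcases mul_eq_zero.1 h3 with h4 | h4
      · exact absurd h4 ht
      · exact h4
    have h3 := congrArg ψ h2
    rw [map_sum, map_zero] at h3
    rw [← h3]
    refine Finset.sum_congr rfl fun m _ => ?_
    rw [map_mul, map_prod]
    simp only [map_pow]

end Pool.Agent.H48.UD
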