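import Pool.Agent.H48.UD.Few
import Pool.Agent.H48.UD.Red

/-!
# Project UD (MP_a3214d), UD-13: the classes modulo the second prime
-/

set_option autoImplicit false

open NumberField Module Polynomial IsDedekindDomain Pool.Agent.H52.UB

namespace Pool.Agent.H48.UD

/-- the trace of an element with a power divisible by `p` is divisible by `p` -/
theorem ud13_trace (k : Type) [Field k] [NumberField k] (p : ℕ) (hp : p.Prime) (x : 𝓞 k) (N : ℕ)
    (h : (p : 𝓞 k) ∣ x ^ N) : (p : ℤ) ∣ Algebra.trace ℤ (𝓞 k) x := by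
  classical
  have hpf := Fact.mk hp
  let b := RingOfIntegers.basis k
  rw [Algebra.trace_eq_matrix_trace b, ← ZMod.intCast_zmod_eq_zero_iff_dvd]
  have h1 : ((Matrix.trace (Algebra.leftMulMatrix b x) : ℤ) : ZMod p) =
      Matrix.trace ((Int.castRingHom (ZMod p)).mapMatrix (Algebra.leftMulMatrix b x)) := by
    rw [RingHom.mapMatrix_apply]
    exact AddMonoidHom.map_trace (Int.castAddHom (ZMod p)) (Algebra.leftMulMatrix b x)
  rw [h1]
  have h2 : IsNilpotent ((Int.castRingHom (ZMod p)).mapMatrix (Algebra.leftMulMatrix b x)) := by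
    refine ⟨N, ?_⟩
    obtain ⟨w, hw⟩ := h
    rw [← map_pow, ← map_pow, hw, map_mul, map_mul, map_natCast, map_natCast]
    have h3 : (p : Matrix (Free.ChooseBasisIndex ℤ (𝓞 k)) (Free.ChooseBasisIndex ℤ (𝓞 k))
        (ZMod p)) = 0 := by
      rw [← map_natCast (algebraMap (ZMod p)
        (Matrix (Free.ChooseBasisIndex ℤ (𝓞 k)) (Free.ChooseBasisIndex ℤ (𝓞 k)) (ZMod p))) p,
        ZMod.natCast_self, map_zero]
    rw [h3, zero_mul]
  exact (Matrix.isNilpotent_trace_of_isNilpotent h2).eq_zero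

theorem dvd_of_pow (k : Type) [Field k] [NumberField k] (p : ℕ) (hp : p.Prime)
    (hd : ¬ (p : ℤ) ∣ discr k) (x : 𝓞 k) (N : ℕ) (h : (p : 𝓞 k) ∣ x ^ N) : (p : 𝓞 k) ∣ x := by
  classical
  let b := RingOfIntegers.basis k
  have h1 : ∀ i, (p : ℤ) ∣ (Algebra.traceMatrix ℤ b).mulVec (b.equivFun x) i := by
    intro i
    rw [Algebra.traceMatrix_of_basis_mulVec]
    refine ud13_trace k p hp _ N ?_
    rw [mul_pow]
    exact h.mul_right _
  have h2 : ∀ i, (p : ℤ) ∣ b.equivFun x i := by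
    intro i
    have h3 : (Algebra.traceMatrix ℤ b).det * b.equivFun x i =
        (Algebra.traceMatrix ℤ b).adjugate.mulVec
          ((Algebra.traceMatrix ℤ b).mulVec (b.equivFun x)) i := by
      rw [Matrix.mulVec_mulVec, Matrix.adjugate_mul, Matrix.smul_mulVec, Matrix.one_mulVec]
      rfl
    have h4 : (p : ℤ) ∣ (Algebra.traceMatrix ℤ b).det * b.equivFun x i := by
      rw [h3]
      exact Finset.dvd_sum fun j _ => (h1 j).mul_left _
    refine (Int.Prime.dvd_mul' hp h4).resolve_left fun h5 => hd ?_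
    rw [NumberField.discr, Algebra.discr_def]
    exact h5
  rw [← b.sum_equivFun x]
  refine Finset.dvd_sum fun i _ => ?_
  obtain ⟨c, hc⟩ := h2 i
  refine ⟨c • b i, ?_⟩
  rw [hc, mul_smul, Nat.cast_smul_eq_nsmul, nsmul_eq_mul]

/-- the primes over `p`: finitely many, with product of the norms at most `p ^ [k : ℚ]` -/
theorem ud13_primes (k : Type) [Field k] [NumberField k] (p : ℕ) (hp : p.Prime) :
    ∃ S : Finset (HeightOneSpectrum (𝓞 k)), (∀ v, v ∈ S ↔ (p : 𝓞 k) ∈ v.asIdeal) ∧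
      ∏ v ∈ S, Ideal.absNorm v.asIdeal ≤ p ^ finrank ℚ k ∧ S.card ≤ finrank ℚ k := by
  classical
  have hp0 : (p : 𝓞 k) ≠ 0 := by exact_mod_cast hp.ne_zero
  have hI : Ideal.span {(p : 𝓞 k)} ≠ 0 := by
    rw [Ne, Ideal.zero_eq_bot, Ideal.span_singleton_eq_bot]
    exact hp0
  have hfin : {v : HeightOneSpectrum (𝓞 k) | v.asIdeal ∣ Ideal.span {(p : 𝓞 k)}}.Finite :=
    Ideal.finite_factors hI
  have hmem : ∀ v, v ∈ hfin.toFinset ↔ (p : 𝓞 k) ∈ v.asIdeal := by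
    intro v
    rw [Set.Finite.mem_toFinset]
    exact Ideal.dvd_span_singleton
  have hdvd : ∏ P ∈ (hfin.toFinset.image (fun v : HeightOneSpectrum (𝓞 k) => v.asIdeal)), P ∣
      Ideal.span {(p : 𝓞 k)} := by
    refine Finset.prod_primes_dvd _ ?_ ?_
    · intro P hP
      obtain ⟨v, -, rfl⟩ := Finset.mem_image.1 hP
      exact v.prime
    · intro P hP
      obtain ⟨v, hv, rfl⟩ := Finset.mem_image.1 hP
      exact (Set.Finite.mem_toFinset hfin).1 hv
  rw [Finset.prod_image (fun x _ y _ h => HeightOneSpectrum.ext h)] at hdvd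
  have hN := map_dvd Ideal.absNorm hdvd
  rw [map_prod, Ideal.absNorm_span_natCast, RingOfIntegers.rank] at hN
  have hle := Nat.le_of_dvd (pow_pos hp.pos _) hN
  refine ⟨hfin.toFinset, hmem, hle, ?_⟩
  have h2 : p ^ hfin.toFinset.card ≤ ∏ v ∈ hfin.toFinset, Ideal.absNorm v.asIdeal := by
    refine Finset.pow_card_le_prod _ _ _ ?_
    intro v hv
    have hv' := (hmem v).mp hv
    have h0 : Ideal.absNorm v.asIdeal ≠ 0 := by
      rw [Ne, Ideal.absNorm_eq_zero_iff]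
      exact v.ne_bot
    refine Nat.le_of_dvd (Nat.pos_of_ne_zero h0) ?_
    by_contra hcon
    have hcop : Nat.Coprime p (Ideal.absNorm v.asIdeal) :=
      (Nat.Prime.coprime_iff_not_dvd hp).2 hcon
    obtain ⟨a, c, hac⟩ := Nat.isCoprime_iff_coprime.2 hcop
    have h1 : (1 : 𝓞 k) ∈ v.asIdeal := by
      have h2 : ((a * (p : ℤ) + c * (Ideal.absNorm v.asIdeal : ℤ) : ℤ) : 𝓞 k) = 1 := by
        rw [hac]; simp
      rw [← h2]
      push_cast
      exact v.asIdeal.add_mem (v.asIdeal.mul_mem_left _ hv')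
        (v.asIdeal.mul_mem_left _ (Ideal.absNorm_mem v.asIdeal))
    exact v.isPrime.ne_top ((Ideal.eq_top_iff_one _).2 h1)
  exact (Nat.pow_le_pow_iff_right hp.one_lt).1 (h2.trans hle)

/-- an element in all primes over `p` is divisible by `p` -/
theorem ud13_dvd (k : Type) [Field k] [NumberField k] (p : ℕ) (hp : p.Prime)
    (hd : ¬ (p : ℤ) ∣ discr k) (x : 𝓞 k)
    (h : ∀ v : HeightOneSpectrum (𝓞 k), (p : 𝓞 k) ∈ v.asIdeal → x ∈ v.asIdeal) :
    (p : 𝓞 k) ∣ x := by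
  have hp0 : (p : 𝓞 k) ≠ 0 := by exact_mod_cast hp.ne_zero
  have h1 : x ∈ (Ideal.span {(p : 𝓞 k)}).radical := by
    rw [Ideal.radical_eq_sInf, Ideal.mem_sInf]
    rintro J ⟨hJ1, hJ2⟩
    have hpJ : (p : 𝓞 k) ∈ J := (Ideal.span_singleton_le_iff_mem _).mp hJ1
    have hJ0 : J ≠ ⊥ := by
      rintro rfl
      exact hp0 ((Submodule.mem_bot _).mp hpJ)
    exact h ⟨J, hJ2, hJ0⟩ hpJ
  obtain ⟨N, hN⟩ := h1
  exact dvd_of_pow k p hp hd x N (Ideal.mem_span_singleton.mp hN)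

/-- the image of `V` modulo a prime -/
theorem ud13_image (k : Type) [Field k] [NumberField k] {q D e C : ℕ}
    (hC : ∀ (F : Type) [Field F] (ι : Type) [Fintype ι],
      Fintype.card ι = q → ∀ V : Set (ι → F),
      (∀ B : Finset ι, B.card = D + 1 → RelOn e B V) → ∀ N : ι → ℕ, (∀ i, 1 ≤ N i) →
      (∀ i, ((fun v : ι → F => v i) '' V).Finite ∧ ((fun v : ι → F => v i) '' V).ncard ≤ N i) →
      ∀ P : ℕ, (∀ B : Finset ι, B.card ≤ D → ∏ i ∈ B, N i ≤ P) →
      V.Finite ∧ V.ncard ≤ C * P)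
    (ι : Type) [Fintype ι] (hι : Fintype.card ι = q) (V : Set (ι → 𝓞 k))
    (hV : ∀ B : Finset ι, B.card = D + 1 →
      RelOn e B ((fun (v : ι → 𝓞 k) (i : ι) => (v i : k)) '' V))
    (v : HeightOneSpectrum (𝓞 k)) :
    ((fun (x : ι → 𝓞 k) (i : ι) => Ideal.Quotient.mk v.asIdeal (x i)) '' V).Finite ∧
      ((fun (x : ι → 𝓞 k) (i : ι) => Ideal.Quotient.mk v.asIdeal (x i)) '' V).ncard ≤
        C * Ideal.absNorm v.asIdeal ^ D := by
  classical
  have hmax : v.asIdeal.IsMaximal := v.isMaximal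
  let _ : Field (𝓞 k ⧸ v.asIdeal) := Ideal.Quotient.field v.asIdeal
  have hfin : Finite (𝓞 k ⧸ v.asIdeal) := Ideal.finiteQuotientOfFreeOfNeBot _ v.ne_bot
  have hN : Nat.card (𝓞 k ⧸ v.asIdeal) = Ideal.absNorm v.asIdeal := by
    rw [Ideal.absNorm_apply, Submodule.cardQuot_apply]
  have hpos : 1 ≤ Ideal.absNorm v.asIdeal := by
    rw [← hN]
    exact Nat.card_pos
  refine hC (𝓞 k ⧸ v.asIdeal) ι hι _ (fun B hB => ?_) (fun _ => Ideal.absNorm v.asIdeal)
    (fun _ => hpos) (fun i => ⟨Set.toFinite _, ?_⟩) _ (fun B hB => ?_)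
  · exact red_rel k e B V (hV B hB) (Ideal.Quotient.mk v.asIdeal)
  · rw [← hN, ← Set.ncard_univ]
    exact Set.ncard_le_ncard (Set.subset_univ _)
  · rw [Finset.prod_const]
    exact Nat.pow_le_pow_right hpos hB

theorem class_card2 (k : Type) [Field k] [NumberField k] (q D e : ℕ) : ∃ C : ℝ, 0 < C ∧
    ∀ p : ℕ, p.Prime → ¬ (p : ℤ) ∣ discr k → ∀ (ι : Type) [Fintype ι], Fintype.card ι = q →
    ∀ V : Set (ι → 𝓞 k), (∀ B : Finset ι, B.card = D + 1 →
      RelOn e B ((fun (v : ι → 𝓞 k) (i : ι) => (v i : k)) '' V)) →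
    ∃ R : Finset (ι → 𝓞 k), (R : Set (ι → 𝓞 k)) ⊆ V ∧
      (R.card : ℝ) ≤ C * (p : ℝ) ^ (finrank ℚ k * D) ∧
      ∀ v ∈ V, ∃ r ∈ R, ∀ i, (p : 𝓞 k) ∣ v i - r i := by
  classical
  obtain ⟨C0, hC0⟩ := few q D e
  refine ⟨((C0 : ℝ) + 1) ^ finrank ℚ k, by positivity, ?_⟩
  intro p hp hd ι _ hι V hV
  obtain ⟨S, hS, hprod, hcard⟩ := ud13_primes k p hp
  set Φ : (ι → 𝓞 k) → (∀ v : S, ι → 𝓞 k ⧸ v.1.asIdeal) :=
    fun x v i => Ideal.Quotient.mk v.1.asIdeal (x i) with hΦ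
  have hv := fun v : S => ud13_image k hC0 ι hι V hV v.1
  set Z : Finset (∀ v : S, ι → 𝓞 k ⧸ v.1.asIdeal) :=
    Fintype.piFinset fun v => (hv v).1.toFinset with hZ
  have hsub : Φ '' V ⊆ (Z : Set (∀ v : S, ι → 𝓞 k ⧸ v.1.asIdeal)) := by
    rintro _ ⟨x, hx, rfl⟩
    rw [Finset.mem_coe, hZ, Fintype.mem_piFinset]
    intro v
    rw [Set.Finite.mem_toFinset]
    exact ⟨x, hx, rfl⟩
  have hZcard : Z.card ≤ (C0 + 1) ^ finrank ℚ k * p ^ (finrank ℚ k * D) := by
    rw [hZ, Fintype.card_piFinset]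
    calc ∏ v : S, ((hv v).1.toFinset).card
        ≤ ∏ v : S, ((C0 + 1) * Ideal.absNorm v.1.asIdeal ^ D) := by
          refine Finset.prod_le_prod' fun v _ => ?_
          rw [← Set.ncard_eq_toFinset_card _ (hv v).1]
          exact (hv v).2.trans (Nat.mul_le_mul_right _ (Nat.le_succ _))
      _ = (C0 + 1) ^ S.card * (∏ v ∈ S, Ideal.absNorm v.asIdeal) ^ D := by
          rw [Finset.prod_mul_distrib, Finset.prod_const, Finset.card_univ, Fintype.card_coe,
            Finset.prod_pow, Finset.prod_coe_sort S (fun v => Ideal.absNorm v.asIdeal)]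
      _ ≤ (C0 + 1) ^ finrank ℚ k * (p ^ finrank ℚ k) ^ D :=
          Nat.mul_le_mul (Nat.pow_le_pow_right (Nat.succ_pos _) hcard)
            (Nat.pow_le_pow_left hprod _)
      _ = (C0 + 1) ^ finrank ℚ k * p ^ (finrank ℚ k * D) := by rw [← pow_mul]
  have hfinΦ : (Φ '' V).Finite := Z.finite_toSet.subset hsub
  obtain ⟨R0, hR0, hbij⟩ := Set.exists_subset_bijOn V Φ
  have hR0fin : R0.Finite := by
    refine Set.Finite.of_finite_image (f := Φ) ?_ hbij.injOn
    rw [hbij.image_eq]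
    exact hfinΦ
  refine ⟨hR0fin.toFinset, ?_, ?_, ?_⟩
  · rw [Set.Finite.coe_toFinset]
    exact hR0
  · have h1 : hR0fin.toFinset.card = (Φ '' V).ncard := by
      rw [← Set.ncard_eq_toFinset_card _ hR0fin, ← hbij.image_eq, hbij.injOn.ncard_image]
    have h2 : (Φ '' V).ncard ≤ Z.card := by
      rw [← Set.ncard_coe_finset Z]
      exact Set.ncard_le_ncard hsub Z.finite_toSet
    rw [h1]
    exact_mod_cast h2.trans hZcard
  · intro x hx
    obtain ⟨r, hr, hxr⟩ : Φ x ∈ Φ '' R0 := by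
      rw [hbij.image_eq]
      exact ⟨x, hx, rfl⟩
    refine ⟨r, (Set.Finite.mem_toFinset _).mpr hr, fun i => ?_⟩
    refine ud13_dvd k p hp hd _ fun v hvp => ?_
    have h3 := congrFun (congrFun hxr ⟨v, (hS v).mpr hvp⟩) i
    exact (Ideal.Quotient.eq).mp h3.symm

end Pool.Agent.H48.UD
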